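import Pool.Agent.Lib.MP_9a7643_lc.ExtRich

/-!
# Countably incomplete ultrapowers are ℵ₁-saturated
-/

open FirstOrder Filter Cardinal

namespace Pool.Agent.Lib.MP_9a7643_lc

section
variable {L : FirstOrder.Language.{0, 0}}

theorem countable_formula (hL : Countable L.Symbols) (α : Type) [Countable α] :
    Countable (L.Formula α) := by
  have h1 := Language.BoundedFormula.card_le (L := L) (α := α)
  have h2 : #(Σ n, L.BoundedFormula α n) ≤ ℵ₀ := by
    refine h1.trans (max_le le_rfl ?_)
    simp only [Cardinal.lift_id]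
    refine Cardinal.add_le_aleph0.2 ⟨Cardinal.mk_le_aleph0, ?_⟩
    exact Cardinal.mk_le_aleph0_iff.2 hL
  have h3 : Countable (Σ n, L.BoundedFormula α n) := Cardinal.mk_le_aleph0_iff.1 h2
  have h4 : Function.Injective (fun φ : L.Formula α => (⟨0, φ⟩ : Σ n, L.BoundedFormula α n)) := by
    intro φ ψ h
    simpa using h
  exact h4.countable

/-- Łoś's theorem for formulas in ultrapowers. -/
theorem los {I : Type} {D : Ultrafilter I} {M : Type} [L.Structure M] [Nonempty M] {α : Type}
    (φ : L.Formula α) (x : α → I → M) :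
    (φ.Realize (M := Pow D M) (fun i => ((x i : I → M) : (D : Filter I).Product (fun _ => M)))) ↔
      ∀ᶠ t in (D : Filter I), φ.Realize (fun i => x i t) :=
  Language.Ultraproduct.realize_formula_cast (L := L) (M := fun _ : I => M) (u := D) φ x

/-- Ultrapowers by countably incomplete ultrafilters are `ℵ₁`-saturated. -/
theorem saturated_aleph0 (hL : Countable L.Symbols) {M : Type} [L.Structure M] [Nonempty M]
    {I : Type} (D : Ultrafilter I) (hD : RegFor D ℕ) : Saturated L (Pow D M) ℵ₀ := by
  classical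
  intro A hA n p hp
  have hAc : Countable A := Cardinal.mk_le_aleph0_iff.1 hA
  have hcount : Countable p := by
    have := countable_formula hL (A ⊕ Fin n)
    infer_instance
  by_cases hpe : p = ∅
  · subst hpe
    obtain ⟨x, _⟩ := hp ∅ (by simp)
    exact ⟨x, fun φ hφ => absurd hφ (Set.notMem_empty φ)⟩
  have hpne : Nonempty p := (Set.nonempty_iff_ne_empty.2 hpe).to_subtype
  obtain ⟨ψ, hψ⟩ := exists_surjective_nat p
  have hrep : ∀ a : A, ∃ r : I → M, (r : (D : Filter I).Product (fun _ => M)) = (a : Pow D M) :=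
    fun a => Quotient.exists_rep (a : Pow D M)
  choose rep hrep using hrep
  -- satisfiability of the first formulas at almost all indices
  have hX : ∀ k : ℕ, ∀ᶠ t in (D : Filter I), ∃ x : Fin n → M, ∀ i ≤ k,
      (ψ i : L.Formula (A ⊕ Fin n)).Realize (Sum.elim (fun a => rep a t) x) := by
    intro k
    obtain ⟨x, hx⟩ := hp ((Finset.range (k + 1)).image (fun i => (ψ i : L.Formula (A ⊕ Fin n)))) (by
      intro φ hφ
      simp only [Finset.coe_image, Set.mem_image] at hφ
      obtain ⟨i, _, rfl⟩ := hφ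
      exact (ψ i).2)
    have hxr : ∀ l, ∃ r : I → M, (r : (D : Filter I).Product (fun _ => M)) = x l :=
      fun l => Quotient.exists_rep (x l)
    choose r hr using hxr
    have h1 : ∀ᶠ t in (D : Filter I), ∀ i ∈ Finset.range (k + 1),
        (ψ i : L.Formula (A ⊕ Fin n)).Realize (Sum.elim (fun a => rep a t) (fun l => r l t)) := by
      rw [Filter.eventually_all_finset]
      intro i hi
      have h2 := hx (ψ i) (Finset.mem_image_of_mem (fun i => (ψ i : L.Formula (A ⊕ Fin n))) hi)
      have h3 := (los (D := D) (ψ i : L.Formula (A ⊕ Fin n)) (Sum.elim rep r)).1 (by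
        refine (iff_of_eq (congrArg _ ?_)).2 h2
        funext v
        rcases v with v | v
        · exact hrep v
        · exact hr v)
      filter_upwards [h3] with t ht
      refine (iff_of_eq (congrArg _ ?_)).2 ht
      funext v
      rcases v with v | v <;> rfl
    filter_upwards [h1] with t ht
    exact ⟨fun l => r l t, fun i hi => ht i (Finset.mem_range.2 (by omega))⟩
  obtain ⟨E, hE, hE'⟩ := hD
  have hsol : ∀ t, ∃ x : Fin n → M, ∀ k, t ∈ E k →
      (∃ x : Fin n → M, ∀ i ≤ k, (ψ i : L.Formula (A ⊕ Fin n)).Realize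
        (Sum.elim (fun a => rep a t) x)) →
      (ψ k : L.Formula (A ⊕ Fin n)).Realize (Sum.elim (fun a => rep a t) x) := by
    intro t
    let S : Set ℕ := {k | t ∈ E k ∧ ∃ x : Fin n → M, ∀ i ≤ k, (ψ i : L.Formula (A ⊕ Fin n)).Realize
        (Sum.elim (fun a => rep a t) x)}
    have hSf : S.Finite := (hE' t).subset (fun k hk => hk.1)
    by_cases hS : S.Nonempty
    · obtain ⟨m, hm, hmax⟩ := hSf.exists_maximal hS
      obtain ⟨_, x, hx⟩ := hm
      refine ⟨x, fun k hk1 hk2 => hx k ?_⟩
      by_contra hlt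
      exact hlt (hmax ⟨hk1, hk2⟩ (by omega))
    · refine ⟨fun _ => Classical.arbitrary M, fun k hk1 hk2 => absurd ⟨k, hk1, hk2⟩ hS⟩
  choose x hx using hsol
  refine ⟨fun l => ((fun t => x t l : I → M) : (D : Filter I).Product (fun _ => M)), ?_⟩
  intro φ hφ
  obtain ⟨k, hk⟩ := hψ ⟨φ, hφ⟩
  have h3 := (los (D := D) φ (Sum.elim rep (fun l t => x t l))).2 (by
    filter_upwards [hE k, hX k] with t ht1 ht2
    have := hx t k ht1 ht2
    rw [hk] at this
    refine (iff_of_eq (congrArg _ ?_)).2 this
    funext v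
    rcases v with v | v <;> rfl)
  refine (iff_of_eq (congrArg _ ?_)).2 h3
  funext v
  rcases v with v | v
  · exact (hrep v).symm
  · rfl

end

end Pool.Agent.Lib.MP_9a7643_lc
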