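import Pool.Agent.Lib.MP_9a7643_lc.Defs

/-!
# Back and forth for extension properties
-/

open FirstOrder Filter Cardinal

namespace Pool.Agent.Lib.MP_9a7643_lc

section
variable {L : FirstOrder.Language.{0, 0}} (F : ∀ (A : Type) [L.Structure A], Prop)

/-- The extension property of `N` for structures with `F` of size `≤ κ`. -/
def Ext (κ : Cardinal.{0}) (N : Type) [L.Structure N] : Prop :=
  ∀ (A B : Type) [L.Structure A] [L.Structure B], F A → F B → #B ≤ κ →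
    ∀ (j : A ↪[L] B) (g : A ↪[L] N), ∃ h : B ↪[L] N, ∀ a, h (j a) = g a

/-- Every set of size `≤ κ` is contained in a substructure with `F` of size `≤ κ`. -/
def Hull (κ : Cardinal.{0}) (N : Type) [L.Structure N] : Prop :=
  ∀ X : Set N, #X ≤ κ → ∃ A : L.Substructure N, X ⊆ A ∧ F A ∧ #A ≤ κ

variable {F}

/-- one direction of the quantifier step -/
theorem bf_all {N₁ N₂ : Type} [L.Structure N₁] [L.Structure N₂]
    (h2 : Ext F ℵ₀ N₂) (H1 : Hull F ℵ₀ N₁)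
    {α : Type} {n : ℕ} (φ : L.BoundedFormula α (n + 1))
    (ih : ∀ (A : Type) [L.Structure A], F A → #A ≤ ℵ₀ → ∀ (g₁ : A ↪[L] N₁) (g₂ : A ↪[L] N₂)
      (v : α → A) (xs : Fin (n + 1) → A), φ.Realize (g₁ ∘ v) (g₁ ∘ xs) ↔ φ.Realize (g₂ ∘ v) (g₂ ∘ xs))
    (A : Type) [L.Structure A] (hF : F A) (hA : #A ≤ ℵ₀) (g₁ : A ↪[L] N₁) (g₂ : A ↪[L] N₂)
    (v : α → A) (xs : Fin n → A) (h : φ.all.Realize (g₂ ∘ v) (g₂ ∘ xs)) :
    φ.all.Realize (g₁ ∘ v) (g₁ ∘ xs) := by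
  rw [Language.BoundedFormula.realize_all] at h ⊢
  intro c
  obtain ⟨B, hXB, hFB, hB⟩ := H1 (Set.range g₁ ∪ {c}) (by
    refine (Cardinal.mk_union_le _ _).trans ?_
    refine (add_le_add (Cardinal.mk_range_le.trans hA) (?_ : _ ≤ (ℵ₀ : Cardinal))).trans ?_
    · simp
    · simp)
  have hj : ∀ a, g₁ a ∈ B := fun a => hXB (Or.inl ⟨a, rfl⟩)
  have hc : c ∈ B := hXB (Or.inr rfl)
  obtain ⟨k, hk⟩ := h2 A B hF hFB hB (Language.Embedding.codRestrict B g₁ hj) g₂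
  have key := ih B hFB hB B.subtype k (fun i => ⟨g₁ (v i), hj _⟩)
    (Fin.snoc (fun i => (⟨g₁ (xs i), hj _⟩ : B)) ⟨c, hc⟩)
  have e1 : (B.subtype ∘ fun i => (⟨g₁ (v i), hj _⟩ : B)) = g₁ ∘ v := by
    funext i; rfl
  have e2 : (B.subtype ∘ (Fin.snoc (fun i => (⟨g₁ (xs i), hj _⟩ : B)) ⟨c, hc⟩ : Fin (n+1) → B)) =
      Fin.snoc (g₁ ∘ xs) c := by
    rw [Fin.comp_snoc]; rfl
  have hk' : ∀ a, k ⟨g₁ a, hj a⟩ = g₂ a := fun a => hk a
  have e3 : (k ∘ fun i => (⟨g₁ (v i), hj _⟩ : B)) = g₂ ∘ v := by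
    funext i; exact hk' _
  have e4 : (k ∘ (Fin.snoc (fun i => (⟨g₁ (xs i), hj _⟩ : B)) ⟨c, hc⟩ : Fin (n+1) → B)) =
      Fin.snoc (g₂ ∘ xs) (k ⟨c, hc⟩) := by
    rw [Fin.comp_snoc]; congr 1; funext i; exact hk' _
  rw [e1, e2, e3, e4] at key
  exact key.2 (h _)

/-- Back and forth. -/
theorem bf {N₁ N₂ : Type} [L.Structure N₁] [L.Structure N₂]
    (h1 : Ext F ℵ₀ N₁) (h2 : Ext F ℵ₀ N₂) (H1 : Hull F ℵ₀ N₁) (H2 : Hull F ℵ₀ N₂)
    {α : Type} {n : ℕ} (φ : L.BoundedFormula α n) :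
    ∀ (A : Type) [L.Structure A], F A → #A ≤ ℵ₀ → ∀ (g₁ : A ↪[L] N₁) (g₂ : A ↪[L] N₂)
      (v : α → A) (xs : Fin n → A), φ.Realize (g₁ ∘ v) (g₁ ∘ xs) ↔ φ.Realize (g₂ ∘ v) (g₂ ∘ xs) := by
  induction φ with
  | falsum => intro A _ _ _ g₁ g₂ v xs; exact Iff.rfl
  | equal t₁ t₂ =>
    intro A _ _ _ g₁ g₂ v xs
    simp only [Language.BoundedFormula.Realize, ← Sum.comp_elim,
      Language.HomClass.realize_term]
    rw [g₁.injective.eq_iff, g₂.injective.eq_iff]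
  | rel R ts =>
    intro A _ _ _ g₁ g₂ v xs
    simp only [Language.BoundedFormula.Realize, ← Sum.comp_elim,
      Language.HomClass.realize_term]
    have e1 := g₁.map_rel R (fun i => (ts i).realize (Sum.elim v xs))
    have e2 := g₂.map_rel R (fun i => (ts i).realize (Sum.elim v xs))
    exact e1.trans e2.symm
  | imp φ ψ ih1 ih2 =>
    intro A _ hF hA g₁ g₂ v xs
    simp only [Language.BoundedFormula.Realize]
    rw [ih1 A hF hA g₁ g₂ v xs, ih2 A hF hA g₁ g₂ v xs]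
  | all φ ih =>
    intro A _ hF hA g₁ g₂ v xs
    constructor
    · exact bf_all h1 H2 φ (fun B _ hFB hB k₁ k₂ w ys => (ih B hFB hB k₂ k₁ w ys).symm)
        A hF hA g₂ g₁ v xs
    · exact bf_all h2 H1 φ ih A hF hA g₁ g₂ v xs

end

end Pool.Agent.Lib.MP_9a7643_lc
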