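import Pool.Agent.Lib.MP_9a7643_lc.Reg

/-!
# Consequences of good for equality: lower cofinality, size of pseudofinite sets, flexibility
-/

open FirstOrder Filter Cardinal

namespace Pool.Agent.Lib.MP_9a7643_lc

section
variable {I : Type} {D : Ultrafilter I}

/-- `r : I → ℕ` is nonstandard modulo `D`. -/
def NonStd (D : Ultrafilter I) (r : I → ℕ) : Prop := ∀ m : ℕ, ∀ᶠ t in (D : Filter I), m ≤ r t

/-- A point-finite sequence of sets gives a nonstandard number `H` with `t ∈ S n` for `n < H t`. -/
theorem exists_height {S : ℕ → Set I} (hS : ∀ n, S n ∈ D) (hf : ∀ t, {n | t ∈ S n}.Finite) :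
    ∃ H : I → ℕ, NonStd D H ∧ ∀ t, ∀ n < H t, t ∈ S n := by
  classical
  have hex : ∀ t, ∃ n, t ∉ S n := by
    intro t
    by_contra hcon
    push Not at hcon
    have : {n | t ∈ S n} = Set.univ := Set.eq_univ_of_forall hcon
    exact Set.infinite_univ (this ▸ hf t)
  refine ⟨fun t => Nat.find (hex t), fun m => ?_, fun t n hn => ?_⟩
  · have h1 : ∀ᶠ t in (D : Filter I), ∀ n ∈ Finset.range m, t ∈ S n := by
      rw [Filter.eventually_all_finset]
      exact fun n _ => hS n
    filter_upwards [h1] with t ht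
    rw [Nat.le_find_iff]
    intro n hn h
    exact h (ht n (Finset.mem_range.2 hn))
  · by_contra h
    exact Nat.find_min (hex t) hn h

theorem exists_nonStd (hreg : RegFor D ℕ) : ∃ g : I → ℕ, NonStd D g := by
  obtain ⟨E, hE, hE'⟩ := hreg
  obtain ⟨H, hH, _⟩ := exists_height hE hE'
  exact ⟨H, hH⟩

/-- Families of `|I|` nonstandard numbers have a nonstandard lower bound. -/
theorem lower_bound (hI : ℵ₀ ≤ #I) (hg : GoodEq D I) (hreg : RegFor D ℕ) {ι : Type}
    (hι : #ι ≤ #I) (l : ι → I → ℕ) (hl : ∀ i, NonStd D (l i)) :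
    ∃ H : I → ℕ, NonStd D H ∧ ∀ i, ∀ᶠ t in (D : Filter I), H t ≤ l i t := by
  classical
  let s : Setoid ι :=
    { r := fun i j => ∀ᶠ t in (D : Filter I), l i t = l j t
      iseqv := ⟨fun i => Filter.Eventually.of_forall fun t => rfl,
        fun h => by filter_upwards [h] with t ht using ht.symm,
        fun h h' => by filter_upwards [h, h'] with t ht ht' using ht.trans ht'⟩ }
  have hcard : #(ℕ ⊕ Quotient s) ≤ #I := by
    rw [Cardinal.mk_sum, Cardinal.lift_id, Cardinal.lift_id]
    refine (add_le_add ((by simp : #ℕ ≤ ℵ₀).trans hI) (Cardinal.mk_quotient_le.trans hι)).trans ?_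
    exact (Cardinal.add_eq_self hI).le
  obtain ⟨d, hd, hd'⟩ := hg.mono_card hcard ℕ
    (Sum.elim (fun n _ => n) (fun q => l q.out)) (by
      rintro (n | q) (m | q') hne
      · exact Filter.Eventually.of_forall (fun t h => hne (congrArg Sum.inl h))
      · filter_upwards [hl q'.out (n + 1)] with t ht h
        simp only [Sum.elim_inl, Sum.elim_inr] at h
        omega
      · filter_upwards [hl q.out (m + 1)] with t ht h
        simp only [Sum.elim_inl, Sum.elim_inr] at h
        omega
      · have h1 : ¬ ∀ᶠ t in (D : Filter I), l q.out t = l q'.out t := by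
          intro h
          apply hne
          have h2 : (⟦q.out⟧ : Quotient s) = ⟦q'.out⟧ := Quotient.sound h
          rw [Quotient.out_eq, Quotient.out_eq] at h2
          rw [h2]
        exact Ultrafilter.eventually_not.2 h1)
  obtain ⟨E, hE, hE'⟩ := hreg
  obtain ⟨H, hH, hHS⟩ := exists_height (D := D) (S := fun n => d (Sum.inl n) ∩ E n)
    (fun n => Filter.inter_mem (hd _) (hE n)) (fun t => (hE' t).subset fun n hn => hn.2)
  refine ⟨H, hH, fun i => ?_⟩
  have h1 : ∀ᶠ t in (D : Filter I), l (Quotient.mk s i).out t = l i t :=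
    Quotient.exact (Quotient.out_eq (Quotient.mk s i))
  filter_upwards [h1, hd (Sum.inr (Quotient.mk s i))] with t ht1 ht2
  rw [← ht1]
  by_contra hlt
  push Not at hlt
  have h3 := hHS t _ hlt
  exact hd' (Sum.inl (l (Quotient.mk s i).out t)) (Sum.inr (Quotient.mk s i)) (by simp) t h3.1 ht2 rfl

/-- Pseudofinite sets are large: below every nonstandard number there are `|I|` numbers which are
pairwise different modulo `D`. -/
theorem many_below (hI : ℵ₀ ≤ #I) (hg : GoodEq D I) (hreg : RegFor D I) (r : I → ℕ)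
    (hr : NonStd D r) : ∃ h : I → I → ℕ, (∀ i, ∀ᶠ t in (D : Filter I), h i t < r t) ∧
      ∀ i j, i ≠ j → ∀ᶠ t in (D : Filter I), h i t ≠ h j t := by
  classical
  -- classes of functions below `r`
  let s : Setoid {f : I → ℕ // ∀ᶠ t in (D : Filter I), f t < r t} :=
    { r := fun f g => ∀ᶠ t in (D : Filter I), f.1 t = g.1 t
      iseqv := ⟨fun i => Filter.Eventually.of_forall fun t => rfl,
        fun h => by filter_upwards [h] with t ht using ht.symm,
        fun h h' => by filter_upwards [h, h'] with t ht ht' using ht.trans ht'⟩ }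
  let X := Quotient s
  have hrep : ∀ x y : X, x ≠ y → ∀ᶠ t in (D : Filter I), x.out.1 t ≠ y.out.1 t := by
    intro x y hne
    have h1 : ¬ ∀ᶠ t in (D : Filter I), x.out.1 t = y.out.1 t := by
      intro h
      apply hne
      have h2 : (⟦x.out⟧ : Quotient s) = ⟦y.out⟧ := Quotient.sound h
      rwa [Quotient.out_eq, Quotient.out_eq] at h2
    exact Ultrafilter.eventually_not.2 h1
  rcases le_total #I #X with hle | hle
  · rw [Cardinal.le_def] at hle
    obtain ⟨e⟩ := hle
    exact ⟨fun i => (e i).out.1, fun i => (e i).out.2, fun i j hij =>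
      hrep _ _ (fun h => hij (e.injective h))⟩
  · exfalso
    obtain ⟨d, hd, hd'⟩ := hg.mono_card hle ℕ (fun x : X => x.out.1) hrep
    obtain ⟨E, hE, hE'⟩ := hreg.mono_card hle
    -- the standard numbers
    let c : ℕ → X := fun n => ⟦⟨fun _ => n, by filter_upwards [hr (n + 1)] with t ht; omega⟩⟧
    have hcinj : Function.Injective c := by
      intro n m h
      have h1 : ∀ᶠ t in (D : Filter I), n = m := Quotient.exact h
      exact h1.exists.choose_spec
    -- the last standard number which is active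
    let S : I → Set ℕ := fun t => {n | t ∈ d (c n) ∩ E (c n) ∧ (c n).out.1 t < r t}
    have hSf : ∀ t, (S t).Finite := by
      intro t
      refine ((hE' t).preimage hcinj.injOn).subset ?_
      intro n hn
      exact hn.1.2
    have hSm : ∀ n, ∀ᶠ t in (D : Filter I), n ∈ S t := by
      intro n
      filter_upwards [hd (c n), hE (c n), (c n).out.2] with t h1 h2 h3
      exact ⟨⟨h1, h2⟩, h3⟩
    have hmax : ∀ t, ∃ m, (S t).Nonempty → (m ∈ S t ∧ ∀ n ∈ S t, n ≤ m) := by
      intro t
      by_cases hne : (S t).Nonempty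
      · obtain ⟨m, hm, hmax⟩ := (hSf t).exists_maximal hne
        refine ⟨m, fun _ => ⟨hm, fun n hn => ?_⟩⟩
        by_contra hlt
        exact hlt (hmax hn (by omega))
      · exact ⟨0, fun h => absurd h hne⟩
    choose m hm using hmax
    let f : {f : I → ℕ // ∀ᶠ t in (D : Filter I), f t < r t} :=
      ⟨fun t => (c (m t)).out.1 t, by
        filter_upwards [hSm 0] with t ht
        exact (hm t ⟨0, ht⟩).1.2⟩
    have hf : ∀ᶠ t in (D : Filter I), (Quotient.mk s f).out.1 t = f.1 t :=
      Quotient.exact (Quotient.out_eq (Quotient.mk s f))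
    -- `f` is one of the standard numbers
    have hfc : ∀ᶠ t in (D : Filter I), c (m t) = Quotient.mk s f := by
      filter_upwards [hf, hSm 0, hd (Quotient.mk s f)] with t h1 h2 h3
      by_contra hne
      refine hd' (c (m t)) (Quotient.mk s f) hne t (hm t ⟨0, h2⟩).1.1.1 h3 ?_
      exact h1.symm
    obtain ⟨t₀, ht₀⟩ := hfc.exists
    have h1 : ∀ᶠ t in (D : Filter I), m t = m t₀ := by
      filter_upwards [hfc] with t ht
      exact hcinj (ht.trans ht₀.symm)
    obtain ⟨t, ht1, ht2⟩ := (h1.and (hSm (m t₀ + 1))).exists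
    have h3 := (hm t ⟨_, ht2⟩).2 _ ht2
    omega

/-- Flexibility: for every nonstandard `r` there is a family of `|I|` sets of `D` such that at most
`r t` of them contain `t`. -/
theorem flexible (hI : ℵ₀ ≤ #I) (hg : GoodEq D I) (hreg : RegFor D I) (r : I → ℕ)
    (hr : NonStd D r) {ι : Type} (hι : #ι ≤ #I) : ∃ d : ι → Set I, (∀ i, d i ∈ D) ∧
      ∀ t, {i | t ∈ d i}.Finite ∧ Set.ncard {i | t ∈ d i} ≤ r t := by
  classical
  obtain ⟨h, hh1, hh2⟩ := many_below hI hg hreg r hr
  obtain ⟨d, hd, hd'⟩ := hg ℕ h hh2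
  rw [Cardinal.le_def] at hι
  obtain ⟨e⟩ := hι
  refine ⟨fun i => d (e i) ∩ {t | h (e i) t < r t}, fun i => Filter.inter_mem (hd _) (hh1 _), ?_⟩
  intro t
  have hinj : Set.InjOn (fun i => h (e i) t) {i | t ∈ d (e i) ∩ {t | h (e i) t < r t}} := by
    intro i hi j hj hij
    by_contra hne
    exact hd' (e i) (e j) (fun h => hne (e.injective h)) t hi.1 hj.1 hij
  have hmaps : Set.MapsTo (fun i => h (e i) t) {i | t ∈ d (e i) ∩ {t | h (e i) t < r t}}
      (Set.Iio (r t)) := fun i hi => hi.2
  constructor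
  · exact Set.Finite.of_injOn hmaps hinj (Set.finite_Iio _)
  · have h1 := Set.ncard_le_ncard_of_injOn (fun i => h (e i) t) hmaps hinj (Set.finite_Iio (r t))
    refine h1.trans ?_
    rw [← Nat.card_coe_set_eq]
    simp

end

end Pool.Agent.Lib.MP_9a7643_lc
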