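import Pool.Agent.Lib.MP_9a7643_lc.BinDefs
import Pool.Agent.Lib.MP_9a7643_lc.Aleph1
import Pool.Agent.Lib.MP_9a7643_lc.GoodCons

/-!
# Binary theories with free amalgamation: compactness and the one-point step
-/

open FirstOrder Filter Cardinal

namespace Pool.Agent.Lib.MP_9a7643_lc

section
variable {T : CTheory}

theorem TpEq.refl' {L : FirstOrder.Language.{0, 0}} {M : Type} [L.Structure M] {α : Type}
    (u : α → M) : TpEq L u u := fun _ => Iff.rfl

theorem TpEq.relabel {L : FirstOrder.Language.{0, 0}} {M N : Type} [L.Structure M] [L.Structure N]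
    {α β : Type} {u : α → M} {v : α → N} (h : TpEq L u v) (f : β → α) :
    TpEq L (u ∘ f) (v ∘ f) := by
  intro φ
  have := h (φ.relabel f)
  rw [Language.Formula.realize_relabel, Language.Formula.realize_relabel] at this
  exact this

theorem TpEq.eq_iff {L : FirstOrder.Language.{0, 0}} {M N : Type} [L.Structure M] [L.Structure N]
    {α : Type} {u : α → M} {v : α → N} (h : TpEq L u v) (i j : α) : u i = u j ↔ v i = v j := by
  have := h ((Language.Term.var i : L.Term α).equal (Language.Term.var j))
  rw [Language.Formula.realize_equal, Language.Formula.realize_equal] at this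
  exact this

/-- Łoś for pairs of formulas -/
theorem los_iff {L : FirstOrder.Language.{0, 0}} {I : Type} {D : Ultrafilter I} {M : Type}
    [L.Structure M] [Nonempty M] {α : Type} (φ : L.Formula α) (x y : α → I → M) :
    (φ.Realize (M := Pow D M) (fun i => ((x i : I → M) : (D : Filter I).Product (fun _ => M))) ↔
      φ.Realize (M := Pow D M) (fun i => ((y i : I → M) : (D : Filter I).Product (fun _ => M)))) ↔
      ∀ᶠ t in (D : Filter I), (φ.Realize (fun i => x i t) ↔ φ.Realize (fun i => y i t)) := by
  rw [los, los]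
  constructor
  · intro h
    by_cases h1 : ∀ᶠ t in (D : Filter I), φ.Realize (fun i => x i t)
    · filter_upwards [h1, h.1 h1] with t ht1 ht2
      exact iff_of_true ht1 ht2
    · have h2 : ¬ ∀ᶠ t in (D : Filter I), φ.Realize (fun i => y i t) := fun h3 => h1 (h.2 h3)
      rw [← Ultrafilter.eventually_not] at h1 h2
      filter_upwards [h1, h2] with t ht1 ht2
      exact iff_of_false ht1 ht2
  · intro h
    constructor
    · intro h1
      filter_upwards [h, h1] with t ht1 ht2 using ht1.1 ht2
    · intro h1
      filter_upwards [h, h1] with t ht1 ht2 using ht1.2 ht2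

/-- the hyperfilter on `ℕ` has a point-finite sequence -/
theorem regFor_hyperfilter : RegFor (Filter.hyperfilter ℕ) ℕ := by
  refine ⟨fun n => {m | n ≤ m}, fun n => ?_, fun t => ?_⟩
  · refine Filter.mem_hyperfilter_of_finite_compl ?_
    refine (Set.finite_lt_nat n).subset ?_
    intro m hm
    simp only [Set.mem_compl_iff, Set.mem_ofPred_eq, not_le] at hm
    exact hm
  · refine (Set.finite_le_nat t).subset ?_
    intro n hn
    exact hn

theorem pow_models {T : CTheory} {I : Type} (D : Ultrafilter I) {M : Type} [T.L.Structure M]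
    [Nonempty M] (hM : M ⊨ T.T) : Pow D M ⊨ T.T := by
  rw [Language.Theory.model_iff]
  intro φ hφ
  have := Language.Ultraproduct.sentence_realize (L := T.L) (M := fun _ : I => M) (u := D) φ
  exact this.2 (Filter.Eventually.of_forall (fun _ => hM.realize_of_mem φ hφ))

/-- Uniform compactness: for all `k, r` there is a level `l` such that for different
`a 0, …, a (k-1)` and `c i ≠ a i` which agree on the first `l` formulas in one variable there is
`c₀` such that `(c₀, a i)` and `(c i, a i)` agree on the first `r` formulas in two variables. -/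
theorem uniform_level (hT : IsBinaryFree T) (M : Type) [T.L.Structure M] [Nonempty M]
    (hM : M ⊨ T.T) (θ : ℕ → T.L.Formula Unit) (hθ : Function.Surjective θ)
    (φ : ℕ → T.L.Formula (Fin 2)) (k r : ℕ) : ∃ l : ℕ, ∀ (a c : Fin k → M),
      Function.Injective a → (∀ i, c i ≠ a i) →
      (∀ i j, ∀ n < l, (θ n).Realize (fun _ : Unit => c i) ↔ (θ n).Realize (fun _ : Unit => c j)) →
      ∃ c₀ : M, ∀ i, ∀ n < r, (φ n).Realize ![c₀, a i] ↔ (φ n).Realize ![c i, a i] := by
  by_contra hcon
  push Not at hcon
  choose a c hinj hne hagree hbad using hcon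
  let U := Filter.hyperfilter ℕ
  have hN : Pow U M ⊨ T.T := pow_models U hM
  have hsat : Saturated T.L (Pow U M) ℵ₀ := saturated_aleph0 T.countable U regFor_hyperfilter
  have : Nonempty (Pow U M) := Language.Ultraproduct.Product.instNonempty
  have hlarge : ∀ n : ℕ, ∀ᶠ l in (U : Filter ℕ), n < l := by
    intro n
    refine Filter.mem_hyperfilter_of_finite_compl ?_
    refine (Set.finite_le_nat n).subset ?_
    intro m hm
    simp only [Set.mem_compl_iff, Set.mem_ofPred_eq, not_lt] at hm
    exact hm
  let a' : Fin k → Pow U M := fun i => ((fun l => a l i : ℕ → M) : (U : Filter ℕ).Product (fun _ => M))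
  let c' : Fin k → Pow U M := fun i => ((fun l => c l i : ℕ → M) : (U : Filter ℕ).Product (fun _ => M))
  obtain ⟨c₀, hc₀⟩ := hT.2 (Pow U M) hN hsat k a' c' (by
      intro i j hij
      have h1 : ∀ᶠ l in (U : Filter ℕ), a l i = a l j := (pow_eq _ _).1 hij
      obtain ⟨l, hl⟩ := h1.exists
      exact hinj l hl) (by
      intro i hi
      have h1 : ∀ᶠ l in (U : Filter ℕ), c l i = a l i := (pow_eq _ _).1 hi
      obtain ⟨l, hl⟩ := h1.exists
      exact hne l i hl) (by
      intro i j ψ
      obtain ⟨n, rfl⟩ := hθ ψ
      have h1 := (los_iff (D := U) (θ n) (fun (_ : Unit) l => c l i) (fun (_ : Unit) l => c l j)).2 (by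
        filter_upwards [hlarge n] with l hl
        exact hagree l i j n hl)
      exact h1)
  obtain ⟨d, hd⟩ : ∃ d : ℕ → M, (d : (U : Filter ℕ).Product (fun _ => M)) = c₀ :=
    Quotient.exists_rep c₀
  have h2 : ∀ᶠ l in (U : Filter ℕ), ∀ i ∈ (Finset.univ : Finset (Fin k)), ∀ n ∈ Finset.range r,
      ((φ n).Realize ![d l, a l i] ↔ (φ n).Realize ![c l i, a l i]) := by
    rw [Filter.eventually_all_finset]
    intro i _
    rw [Filter.eventually_all_finset]
    intro n _
    have h3 := (los_iff (D := U) (φ n) (![d, fun l => a l i]) (![fun l => c l i, fun l => a l i])).1 (by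
      have h4 := hc₀ i (φ n)
      have e1 : (fun s : Fin 2 => (((![d, fun l => a l i] : Fin 2 → ℕ → M) s : ℕ → M) :
          (U : Filter ℕ).Product (fun _ => M))) = ![c₀, a' i] := by
        funext s
        fin_cases s
        · exact hd
        · rfl
      have e2 : (fun s : Fin 2 => (((![fun l => c l i, fun l => a l i] : Fin 2 → ℕ → M) s : ℕ → M) :
          (U : Filter ℕ).Product (fun _ => M))) = ![c' i, a' i] := by
        funext s
        fin_cases s <;> rfl
      rw [e1, e2]
      exact h4)
    filter_upwards [h3] with l hl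
    have e1 : (fun s : Fin 2 => (![d, fun l => a l i] : Fin 2 → ℕ → M) s l) = ![d l, a l i] := by
      funext s
      fin_cases s <;> rfl
    have e2 : (fun s : Fin 2 => (![fun l => c l i, fun l => a l i] : Fin 2 → ℕ → M) s l) =
        ![c l i, a l i] := by
      funext s
      fin_cases s <;> rfl
    rw [e1, e2] at hl
    exact hl
  obtain ⟨l, hl⟩ := h2.exists
  obtain ⟨i, n, hn, hin⟩ := hbad l (d l)
  have h5 := hl i (Finset.mem_univ i) n (Finset.mem_range.2 hn)
  rcases hin with ⟨h6, h7⟩ | ⟨h6, h7⟩
  · exact h7 (h5.1 h6)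
  · exact h6 (h5.2 h7)

end

end Pool.Agent.Lib.MP_9a7643_lc
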