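import Pool.Agent.Lib.MP_9a7643_lc.Bin

/-!
# Binary theories with free amalgamation: the one-point step
-/

open FirstOrder Filter Cardinal

namespace Pool.Agent.Lib.MP_9a7643_lc

section
variable {L : FirstOrder.Language.{0, 0}}

open Classical in
/-- `ψ` or its negation -/
noncomputable def lit {α : Type} (b : Prop) (ψ : L.Formula α) : L.Formula α :=
  if b then ψ else Language.Formula.not ψ

theorem realize_lit {α : Type} (b : Prop) (ψ : L.Formula α) {M : Type} [L.Structure M]
    (v : α → M) : (lit b ψ).Realize v ↔ (ψ.Realize v ↔ b) := by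
  unfold lit
  by_cases h : b
  · simp [h]
  · rw [if_neg h, Language.Formula.realize_not]
    constructor
    · intro h'
      exact iff_of_false h' h
    · intro h' h''
      exact h (h'.1 h'')

/-- finite approximations of a one-point extension -/
noncomputable def levForm (θ : ℕ → L.Formula Unit) (φ : ℕ → L.Formula (Fin 2)) (u s : ℕ → Prop)
    (l : ℕ) : L.Formula Unit :=
  Language.Formula.iExs Unit
    (Language.Formula.not ((Language.Term.var (Sum.inr ()) : L.Term (Unit ⊕ Unit)).equal
        (Language.Term.var (Sum.inl ()))) ⊓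
      (Language.Formula.iInf (fun n : Fin l => lit (u n) ((θ n).relabel (fun _ => Sum.inr ()))) ⊓
        Language.Formula.iInf (fun n : Fin l =>
          lit (s n) ((φ n).relabel (![Sum.inr (), Sum.inl ()] : Fin 2 → Unit ⊕ Unit)))))

theorem realize_levForm (θ : ℕ → L.Formula Unit) (φ : ℕ → L.Formula (Fin 2)) (u s : ℕ → Prop)
    (l : ℕ) {M : Type} [L.Structure M] (y : M) :
    (levForm θ φ u s l).Realize (fun _ => y) ↔ ∃ x : M, x ≠ y ∧
      (∀ n < l, (θ n).Realize (fun _ => x) ↔ u n) ∧ (∀ n < l, (φ n).Realize ![x, y] ↔ s n) := by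
  rw [levForm, Language.Formula.realize_iExs]
  have key : ∀ x : Unit → M, (Sum.elim (fun _ : Unit => y) x ∘
      (![Sum.inr (), Sum.inl ()] : Fin 2 → Unit ⊕ Unit)) = ![x (), y] := by
    intro x
    funext i
    fin_cases i <;> rfl
  constructor
  · rintro ⟨x, hx⟩
    rw [Language.Formula.realize_inf, Language.Formula.realize_inf, Language.Formula.realize_iInf,
      Language.Formula.realize_iInf, Language.Formula.realize_not,
      Language.Formula.realize_equal] at hx
    refine ⟨x (), hx.1, fun n hn => ?_, fun n hn => ?_⟩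
    · have := hx.2.1 ⟨n, hn⟩
      rw [realize_lit, Language.Formula.realize_relabel] at this
      exact this
    · have := hx.2.2 ⟨n, hn⟩
      rw [realize_lit, Language.Formula.realize_relabel, key] at this
      exact this
  · rintro ⟨x, h1, h2, h3⟩
    refine ⟨fun _ => x, ?_⟩
    rw [Language.Formula.realize_inf, Language.Formula.realize_inf, Language.Formula.realize_iInf,
      Language.Formula.realize_iInf, Language.Formula.realize_not,
      Language.Formula.realize_equal]
    refine ⟨h1, fun n => ?_, fun n => ?_⟩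
    · rw [realize_lit, Language.Formula.realize_relabel]
      exact h2 n n.2
    · rw [realize_lit, Language.Formula.realize_relabel, key]
      exact h3 n n.2

end

variable {T : CTheory}

open Classical in
/-- The one-point step. -/
theorem step (hT : IsBinaryFree T) {I : Type} [Infinite I] (D : Ultrafilter I) (hD : Regular D)
    (hg : GoodEq D I) (M : Type) [T.L.Structure M] [Nonempty M] (hM : M ⊨ T.T)
    {N₁ : Type} [T.L.Structure N₁] {ι : Type} (hι : #ι ≤ #I) (e₁ : ι → N₁)
    (hinj : Function.Injective e₁) (e₂ : ι → Pow D M) (htp : TpEq T.L e₁ e₂) (c : N₁)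
    (hc : ∀ i, c ≠ e₁ i) : ∃ x : Pow D M, ∀ i, TpEq T.L ![c, e₁ i] ![x, e₂ i] := by
  have hI : ℵ₀ ≤ #I := Cardinal.infinite_iff.1 inferInstance
  have hregN : RegFor D ℕ := hD.nat
  have hregI : RegFor D I := hD
  -- enumerations of the formulas
  have hcu := countable_formula T.countable Unit
  have hc2 := countable_formula T.countable (Fin 2)
  have hne1 : Nonempty (T.L.Formula Unit) := ⟨⊤⟩
  have hne2 : Nonempty (T.L.Formula (Fin 2)) := ⟨⊤⟩
  obtain ⟨θ, hθ⟩ := exists_surjective_nat (T.L.Formula Unit)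
  obtain ⟨φ, hφ⟩ := exists_surjective_nat (T.L.Formula (Fin 2))
  -- representatives
  have hrep : ∀ i, ∃ r : I → M, (r : (D : Filter I).Product (fun _ => M)) = e₂ i :=
    fun i => Quotient.exists_rep (e₂ i)
  choose ρ hρ using hrep
  let u : ℕ → Prop := fun n => (θ n).Realize (fun _ => c)
  let s : ι → ℕ → Prop := fun i n => (φ n).Realize ![c, e₁ i]
  let Lev : ι → I → ℕ → Prop := fun i t l => ∃ x : M, x ≠ ρ i t ∧
      (∀ n < l, (θ n).Realize (fun _ => x) ↔ u n) ∧ (∀ n < l, (φ n).Realize ![x, ρ i t] ↔ s i n)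
  have hLevmono : ∀ i t l l', l' ≤ l → Lev i t l → Lev i t l' := by
    rintro i t l l' hl ⟨x, h1, h2, h3⟩
    exact ⟨x, h1, fun n hn => h2 n (hn.trans_le hl), fun n hn => h3 n (hn.trans_le hl)⟩
  have hLev : ∀ i l, ∀ᶠ t in (D : Filter I), Lev i t l := by
    intro i l
    have h1 : (levForm θ φ u (s i) l).Realize (fun _ : Unit => e₁ i) := by
      rw [realize_levForm]
      exact ⟨c, hc i, fun n _ => Iff.rfl, fun n _ => Iff.rfl⟩
    have h2 : (levForm θ φ u (s i) l).Realize (fun _ : Unit => e₂ i) :=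
      (htp.relabel (fun _ : Unit => i) _).1 h1
    have h3 := (los (D := D) (levForm θ φ u (s i) l) (fun _ : Unit => ρ i)).1 (by
      refine (iff_of_eq (congrArg _ ?_)).2 h2
      funext v
      exact hρ i)
    filter_upwards [h3] with t ht
    exact (realize_levForm θ φ u (s i) l (ρ i t)).1 ht
  -- levels
  obtain ⟨g, hgN⟩ := exists_nonStd hregN
  let lev : ι → I → ℕ := fun i t => Nat.findGreatest (Lev i t) (g t)
  have hlevN : ∀ i, NonStd D (lev i) := by
    intro i m
    filter_upwards [hgN m, hLev i m] with t h1 h2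
    exact Nat.le_findGreatest h1 h2
  have hlevL : ∀ i, ∀ᶠ t in (D : Filter I), Lev i t (lev i t) := by
    intro i
    filter_upwards [hLev i 0] with t h1
    exact Nat.findGreatest_spec (P := Lev i t) (Nat.zero_le _) h1
  obtain ⟨H, hHN, hH⟩ := lower_bound hI hg hregN hι lev hlevN
  -- the level bound
  choose lb hlb using fun k r => uniform_level hT M hM θ hθ φ k r
  let Lb : ℕ → ℕ := fun r => (Finset.range (r + 1)).sup (fun k => lb k r)
  have hLb : ∀ r k, k ≤ r → lb k r ≤ Lb r := fun r k hk =>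
    Finset.le_sup (f := fun k => lb k r) (Finset.mem_range.2 (by omega))
  let r : I → ℕ := fun t => Nat.findGreatest (fun r => Lb r ≤ H t) (H t)
  have hrN : NonStd D r := by
    intro m
    filter_upwards [hHN (max m (Lb m))] with t ht
    exact Nat.le_findGreatest ((le_max_left _ _).trans ht) ((le_max_right _ _).trans ht)
  have hrH : ∀ t, r t ≤ H t := fun t => Nat.findGreatest_le _
  have hrL : ∀ᶠ t in (D : Filter I), Lb (r t) ≤ H t := by
    filter_upwards [hHN (Lb 0)] with t ht
    exact Nat.findGreatest_spec (P := fun r => Lb r ≤ H t) (Nat.zero_le _) ht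
  obtain ⟨d₁, hd₁, hd₁'⟩ := flexible hI hg hregI r hrN hι
  obtain ⟨d₂, hd₂, hd₂'⟩ := hg.mono_card hι M ρ (by
    intro i j hij
    have h1 : ¬ ∀ᶠ t in (D : Filter I), ρ i t = ρ j t := by
      rw [← pow_eq, hρ, hρ]
      intro h
      exact hij (hinj ((htp.eq_iff i j).2 h))
    exact Ultrafilter.eventually_not.2 h1)
  let Act : I → Set ι := fun t => {i | t ∈ d₁ i ∧ t ∈ d₂ i ∧ H t ≤ lev i t ∧ Lev i t (lev i t)}
  have hActf : ∀ t, (Act t).Finite := fun t => (hd₁' t).1.subset fun i hi => hi.1
  have hActc : ∀ t, (Act t).ncard ≤ r t := fun t =>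
    (Set.ncard_le_ncard (fun i hi => hi.1) (hd₁' t).1).trans (hd₁' t).2
  have hsol : ∀ t, ∃ x : M, Lb (r t) ≤ H t → ∀ i ∈ Act t, ∀ n < r t,
      ((φ n).Realize ![x, ρ i t] ↔ s i n) := by
    intro t
    by_cases hL : Lb (r t) ≤ H t
    · have := (hActf t).to_subtype
      obtain ⟨k, ⟨e⟩⟩ := Finite.exists_equiv_fin (Act t)
      have hk : k = (Act t).ncard := by
        rw [← Nat.card_coe_set_eq, Nat.card_congr e, Nat.card_eq_fintype_card, Fintype.card_fin]
      have hkr : k ≤ r t := hk ▸ hActc t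
      have hcl : ∀ j : Fin k, Lev (e.symm j).1 t (H t) := fun j =>
        hLevmono _ _ _ _ (e.symm j).2.2.2.1 (e.symm j).2.2.2.2
      choose x hx1 hx2 hx3 using hcl
      obtain ⟨c₀, hc₀⟩ := hlb k (r t) (fun j => ρ (e.symm j).1 t) x (by
        intro j j' hjj'
        by_contra hne
        refine hd₂' (e.symm j).1 (e.symm j').1 ?_ t (e.symm j).2.2.1 (e.symm j').2.2.1 hjj'
        intro h
        exact hne (e.symm.injective (Subtype.ext h))) hx1 (by
        intro j j' n hn
        have hn' : n < H t := hn.trans_le ((hLb _ _ hkr).trans hL)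
        exact (hx2 j n hn').trans (hx2 j' n hn').symm)
      refine ⟨c₀, fun _ i hi n hn => ?_⟩
      have h1 := hc₀ (e ⟨i, hi⟩) n hn
      have h2 := hx3 (e ⟨i, hi⟩) n (hn.trans_le (hrH t))
      rw [Equiv.symm_apply_apply] at h1 h2
      exact h1.trans h2
    · exact ⟨Classical.arbitrary M, fun h => absurd h hL⟩
  choose x hx using hsol
  refine ⟨((fun t => x t : I → M) : (D : Filter I).Product (fun _ => M)), fun i ψ => ?_⟩
  obtain ⟨n, rfl⟩ := hφ ψ
  have hae : ∀ᶠ t in (D : Filter I), ((φ n).Realize ![x t, ρ i t] ↔ s i n) := by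
    filter_upwards [hd₁ i, hd₂ i, hH i, hlevL i, hrL, hrN (n + 1)] with t h1 h2 h3 h4 h5 h6
    exact hx t h5 i ⟨h1, h2, h3, h4⟩ n (by omega)
  have hlos := los (D := D) (φ n) (![x, ρ i] : Fin 2 → I → M)
  have e1 : (fun v : Fin 2 => (((![x, ρ i] : Fin 2 → I → M) v : I → M) :
      (D : Filter I).Product (fun _ => M))) =
      ![((fun t => x t : I → M) : (D : Filter I).Product (fun _ => M)), e₂ i] := by
    funext v
    fin_cases v
    · rfl
    · exact hρ i
  have e2 : ∀ t, (fun v : Fin 2 => (![x, ρ i] : Fin 2 → I → M) v t) = ![x t, ρ i t] := by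
    intro t
    funext v
    fin_cases v <;> rfl
  rw [e1] at hlos
  simp only [e2] at hlos
  refine Iff.trans ?_ hlos.symm
  rw [Filter.eventually_congr hae]
  change s i n ↔ _
  simp

end Pool.Agent.Lib.MP_9a7643_lc
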