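import Pool.Agent.Lib.MP_9a7643_lc.Defs

/-!
# Binary theories with free amalgamation
-/

open FirstOrder Filter Cardinal

namespace Pool.Agent.Lib.MP_9a7643_lc

/-- The tuples `u` in `M` and `v` in `N` have the same type. -/
def TpEq (L : FirstOrder.Language.{0, 0}) {M N : Type} [L.Structure M] [L.Structure N] {α : Type}
    (u : α → M) (v : α → N) : Prop :=
  ∀ φ : L.Formula α, φ.Realize u ↔ φ.Realize v

/-- `T` is binary with free amalgamation:
(1) the type of a finite tuple, in a model of `T`, is determined by the types of its pairs;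
(2) in every `ℵ₁`-saturated model, if `a 0, …, a (k-1)` are different elements and `c i ≠ a i` are
elements which all have the same type, then some `c₀` satisfies
`tp (c₀, a i) = tp (c i, a i)` for all `i`. -/
def IsBinaryFree (T : CTheory) : Prop :=
  (∀ (M N : Type) [T.L.Structure M] [T.L.Structure N] [Nonempty M] [Nonempty N],
    M ⊨ T.T → N ⊨ T.T → ∀ (m : ℕ) (u : Fin m → M) (v : Fin m → N),
      (∀ i j, TpEq T.L ![u i, u j] ![v i, v j]) → TpEq T.L u v) ∧
  (∀ (N : Type) [T.L.Structure N] [Nonempty N], N ⊨ T.T → Saturated T.L N ℵ₀ →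
    ∀ (k : ℕ) (a c : Fin k → N), Function.Injective a → (∀ i, c i ≠ a i) →
      (∀ i j, TpEq T.L (fun _ : Unit => c i) (fun _ : Unit => c j)) →
        ∃ c₀ : N, ∀ i, TpEq T.L ![c₀, a i] ![c i, a i])

end Pool.Agent.Lib.MP_9a7643_lc
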