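import Pool.Agent.Lib.MP_9a7643_lc.BF

/-!
# Saturation from the extension property
-/

open FirstOrder Filter Cardinal

namespace Pool.Agent.Lib.MP_9a7643_lc

section
variable {L : FirstOrder.Language.{0, 0}} {F : ∀ (A : Type) [L.Structure A], Prop}

/-- the diagonal elementary embedding -/
noncomputable def diag {J : Type} (U : Ultrafilter J) (N : Type) [L.Structure N] [Nonempty N] :
    N ↪ₑ[L] Pow U N where
  toFun x := ((fun _ => x : J → N) : (U : Filter J).Product (fun _ => N))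
  map_formula' := by
    intro n φ x
    have := Language.Ultraproduct.realize_formula_cast (L := L) (M := fun _ : J => N) (u := U) φ
      (fun i _ => x i)
    exact this.trans (by simp)

theorem sat_of {N : Type} [L.Structure N] [Nonempty N] {κ : Cardinal.{0}} (hκ : ℵ₀ ≤ κ)
    (hFH : ∀ (B : Type) [L.Structure B], F B → Hull F ℵ₀ B)
    (hE : Ext F κ N) (hE0 : Ext F ℵ₀ N) (hH : Hull F κ N) (hH0 : Hull F ℵ₀ N)
    (hN' : ∀ (J : Type) (U : Ultrafilter J), RegFor U ℕ →
      Ext F ℵ₀ (Pow U N) ∧ Hull F κ (Pow U N) ∧ Hull F ℵ₀ (Pow U N)) : Saturated L N κ := by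
  classical
  intro A hA n p hp
  -- the ultrapower `N'` and the realization `c` in `N'`
  let J := Finset (p ⊕ ℕ)
  let U : Ultrafilter J := Ultrafilter.of atTop
  have hU : ∀ q : p ⊕ ℕ, {s : J | q ∈ s} ∈ U := by
    intro q
    have h1 : (U : Filter J) ≤ atTop := Ultrafilter.of_le _
    refine h1 ?_
    refine Filter.mem_of_superset (Filter.mem_atTop ({q} : Finset (p ⊕ ℕ))) ?_
    intro s hs
    exact hs (Finset.mem_singleton_self q)
  have hUreg : RegFor U ℕ := by
    refine ⟨fun k => {s : J | Sum.inr k ∈ s}, fun k => hU _, ?_⟩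
    intro s
    refine Set.Finite.subset (Set.Finite.preimage (Sum.inr_injective.injOn) (Finset.finite_toSet s)) ?_
    intro k hk
    exact hk
  obtain ⟨hE', hH', hH0'⟩ := hN' J U hUreg
  have hc : ∀ s : J, ∃ x : Fin n → N, ∀ φ : p, Sum.inl φ ∈ s →
      (φ : L.Formula (A ⊕ Fin n)).Realize (Sum.elim (fun a : A => (a : N)) x) := by
    intro s
    obtain ⟨x, hx⟩ := hp ((s.preimage Sum.inl Sum.inl_injective.injOn).image (fun φ : p => (φ : L.Formula (A ⊕ Fin n)))) (by
      intro φ hφ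
      simp only [Finset.coe_image, Set.mem_image] at hφ
      obtain ⟨ψ, _, rfl⟩ := hφ
      exact ψ.2)
    refine ⟨x, fun φ hφ => hx _ ?_⟩
    simp only [Finset.mem_image, Finset.mem_preimage]
    exact ⟨φ, hφ, rfl⟩
  choose c hc using hc
  let c' : Fin n → Pow U N := fun i => ((fun s => c s i : J → N) : (U : Filter J).Product (fun _ => N))
  let δ : N ↪ₑ[L] Pow U N := diag U N
  have hreal : ∀ φ ∈ p, φ.Realize (Sum.elim (fun a : A => δ (a : N)) c') := by
    intro φ hφ
    have h1 := Language.Ultraproduct.realize_formula_cast (L := L) (M := fun _ : J => N) (u := U) φ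
      (fun v s => Sum.elim (fun a : A => (a : N)) (c s) v)
    have h2 : (fun v => ((fun s => Sum.elim (fun a : A => (a : N)) (c s) v : J → N) :
        (U : Filter J).Product (fun _ => N))) = Sum.elim (fun a : A => δ (a : N)) c' := by
      funext v
      rcases v with a | i <;> rfl
    rw [h2] at h1
    refine h1.2 ?_
    refine Filter.mem_of_superset (hU (Sum.inl ⟨φ, hφ⟩)) ?_
    intro s hs
    exact hc s ⟨φ, hφ⟩ hs
  -- the hulls
  obtain ⟨A₁, hAA₁, hFA₁, hA₁⟩ := hH A hA
  obtain ⟨B, hXB, hFB, hB⟩ := hH' (δ '' A₁ ∪ Set.range c') (by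
    refine (Cardinal.mk_union_le _ _).trans ?_
    have h1 : #(δ '' (A₁ : Set N)) ≤ κ := Cardinal.mk_image_le.trans hA₁
    have h2 : #(Set.range c') ≤ κ := by
      refine Cardinal.mk_range_le.trans ?_
      refine le_trans ?_ hκ
      simp
    exact (add_le_add h1 h2).trans (Cardinal.add_eq_self hκ).le)
  have hj : ∀ a : A₁, (δ.toEmbedding.comp A₁.subtype) a ∈ B := fun a =>
    hXB (Or.inl ⟨a, a.2, rfl⟩)
  obtain ⟨h, hh⟩ := hE A₁ B hFA₁ hFB hB
    (Language.Embedding.codRestrict B (δ.toEmbedding.comp A₁.subtype) hj) A₁.subtype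
  have hcB : ∀ i, c' i ∈ B := fun i => hXB (Or.inr ⟨i, rfl⟩)
  refine ⟨fun i => h ⟨c' i, hcB i⟩, fun φ hφ => ?_⟩
  let w : A ⊕ Fin n → B := Sum.elim (fun a => ⟨δ (a : N), hj ⟨a, hAA₁ a.2⟩⟩) (fun i => ⟨c' i, hcB i⟩)
  obtain ⟨B₀, hXB₀, hFB₀, hB₀⟩ := hFH B hFB (w '' (φ.freeVarFinset : Set (A ⊕ Fin n))) (by
    rw [Cardinal.mk_le_aleph0_iff]
    exact ((Finset.finite_toSet _).image _).to_subtype.to_countable)
  have hwB₀ : ∀ v : φ.freeVarFinset, w v ∈ B₀ := fun v => hXB₀ ⟨v, v.2, rfl⟩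
  let w₀ : φ.freeVarFinset → B₀ := fun v => ⟨w v, hwB₀ v⟩
  have key := bf hE' hE0 hH0' hH0 (φ.restrictFreeVar (id : φ.freeVarFinset → φ.freeVarFinset))
    B₀ hFB₀ hB₀ (B.subtype.comp B₀.subtype) (h.comp B₀.subtype) w₀ (default : Fin 0 → B₀)
  have k1 : (φ.restrictFreeVar (id : φ.freeVarFinset → φ.freeVarFinset)).Realize
      ((B.subtype.comp B₀.subtype) ∘ w₀) ((B.subtype.comp B₀.subtype) ∘ (default : Fin 0 → B₀)) := by
    rw [Language.BoundedFormula.realize_restrictFreeVar (v' := Sum.elim (fun a : A => δ (a : N)) c')]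
    · have := hreal φ hφ
      rw [Language.Formula.Realize] at this
      rw [Subsingleton.elim ((B.subtype.comp B₀.subtype) ∘ (default : Fin 0 → B₀)) default]
      exact this
    · rintro ⟨v, hv⟩
      rcases v with a | i <;> rfl
  have k2 := key.1 k1
  rw [Language.BoundedFormula.realize_restrictFreeVar
    (v' := Sum.elim (fun a : A => (a : N)) (fun i => h ⟨c' i, hcB i⟩))] at k2
  · rw [Language.Formula.Realize]
    rw [Subsingleton.elim ((h.comp B₀.subtype) ∘ (default : Fin 0 → B₀)) default] at k2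
    exact k2
  · rintro ⟨v, hv⟩
    rcases v with a | i
    · exact hh ⟨a, hAA₁ a.2⟩
    · rfl

end

end Pool.Agent.Lib.MP_9a7643_lc
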