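import Pool.Agent.Lib.MP_9a7643_lc.ExtRich

/-!
# Ultrafilters saturating a theory with TP₂ are good for equality
-/

open FirstOrder Filter Cardinal

namespace Pool.Agent.Lib.MP_9a7643_lc

section
variable {L : FirstOrder.Language.{0, 0}} {p q : ℕ} (φ : L.Formula (Fin p ⊕ Fin q))

/-- `z` is a finite `TP₂` array for `φ` -/
def IsArr {M : Type} [L.Structure M] (n : ℕ) (z : Fin n × Fin n × Fin q → M) : Prop :=
  (∀ f : Fin n → Fin n, ∃ x : Fin p → M, ∀ i, φ.Realize (Sum.elim x (fun y => z (i, f i, y)))) ∧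
  (∀ i j j' : Fin n, j ≠ j' → ¬ ∃ x : Fin p → M,
    φ.Realize (Sum.elim x (fun y => z (i, j, y))) ∧ φ.Realize (Sum.elim x (fun y => z (i, j', y))))

/-- instance of `φ` at the entry `(i, j)` -/
noncomputable def cell (n : ℕ) (i j : Fin n) :
    L.Formula ((Empty ⊕ (Fin n × Fin n × Fin q)) ⊕ Fin p) :=
  φ.relabel (Sum.elim Sum.inr (fun y => Sum.inl (Sum.inr (i, j, y))))

/-- the sentence expressing the existence of an `n × n` array -/
noncomputable def arrSentence (n : ℕ) : L.Sentence :=
  Language.Formula.iExs (Fin n × Fin n × Fin q)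
    (Language.Formula.iInf (fun f : Fin n → Fin n =>
        Language.Formula.iExs (Fin p) (Language.Formula.iInf (fun i : Fin n => cell φ n i (f i)))) ⊓
      Language.Formula.iInf (fun t : {t : Fin n × Fin n × Fin n // t.2.1 ≠ t.2.2} =>
        Language.Formula.not (Language.Formula.iExs (Fin p)
          (cell φ n t.1.1 t.1.2.1 ⊓ cell φ n t.1.1 t.1.2.2))))

theorem realize_cell {M : Type} [L.Structure M] (n : ℕ) (i j : Fin n)
    (e : Empty → M) (z : Fin n × Fin n × Fin q → M) (x : Fin p → M) :
    (cell φ n i j).Realize (Sum.elim (Sum.elim e z) x) ↔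
      φ.Realize (Sum.elim x (fun y => z (i, j, y))) := by
  rw [cell, Language.Formula.realize_relabel]
  refine Iff.of_eq (congrArg _ ?_)
  funext v
  rcases v with v | v <;> rfl

theorem realize_arrSentence {M : Type} [L.Structure M] (n : ℕ) :
    M ⊨ arrSentence φ n ↔ ∃ z : Fin n × Fin n × Fin q → M, IsArr φ n z := by
  rw [arrSentence, Language.Sentence.Realize, Language.Formula.realize_iExs]
  refine exists_congr fun z => ?_
  rw [Language.Formula.realize_inf, Language.Formula.realize_iInf, Language.Formula.realize_iInf]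
  refine and_congr (forall_congr' fun f => ?_) ?_
  · rw [Language.Formula.realize_iExs]
    refine exists_congr fun x => ?_
    rw [Language.Formula.realize_iInf]
    exact forall_congr' fun i => realize_cell φ n i (f i) _ z x
  · constructor
    · rintro h i j j' hjj' ⟨x, hx1, hx2⟩
      have := h ⟨(i, j, j'), hjj'⟩
      rw [Language.Formula.realize_not, Language.Formula.realize_iExs] at this
      apply this
      refine ⟨x, ?_⟩
      rw [Language.Formula.realize_inf]
      exact ⟨(realize_cell φ n i j _ z x).2 hx1, (realize_cell φ n i j' _ z x).2 hx2⟩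
    · rintro h ⟨⟨i, j, j'⟩, hjj'⟩
      rw [Language.Formula.realize_not, Language.Formula.realize_iExs]
      rintro ⟨x, hx⟩
      rw [Language.Formula.realize_inf] at hx
      exact h i j j' hjj' ⟨x, (realize_cell φ n i j _ z x).1 hx.1,
        (realize_cell φ n i j' _ z x).1 hx.2⟩

/-- finite arrays from an infinite array -/
theorem isArr_of_inf {M : Type} [L.Structure M] (a : ℕ → ℕ → Fin q → M)
    (h1 : ∀ (f : ℕ → ℕ) (n : ℕ), ∃ x : Fin p → M, ∀ i < n, φ.Realize (Sum.elim x (a i (f i))))
    (h2 : ∀ i j j' : ℕ, j ≠ j' → ¬ ∃ x : Fin p → M,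
        φ.Realize (Sum.elim x (a i j)) ∧ φ.Realize (Sum.elim x (a i j'))) (n : ℕ) :
    IsArr φ n (fun t : Fin n × Fin n × Fin q => a t.1 t.2.1 t.2.2) := by
  constructor
  · intro f
    obtain ⟨x, hx⟩ := h1 (fun i => if h : i < n then (f ⟨i, h⟩ : ℕ) else 0) n
    refine ⟨x, fun i => ?_⟩
    have := hx i i.2
    simp only [i.2, dif_pos, Fin.eta] at this
    exact this
  · intro i j j' hjj'
    exact h2 i j j' (fun h => hjj' (Fin.ext h))

/-- the arrays exist in every model of a complete theory with `TP₂` -/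
theorem exists_isArr {T : CTheory} (hT : HasTP2 T) : ∃ (p q : ℕ) (φ : T.L.Formula (Fin p ⊕ Fin q)),
    ∀ (M : Type) [T.L.Structure M] [Nonempty M], M ⊨ T.T → ∀ n,
      ∃ z : Fin n × Fin n × Fin q → M, IsArr φ n z := by
  obtain ⟨M₀, _, _, hM₀, p, q, φ, a, h1, h2⟩ := hT
  refine ⟨p, q, φ, fun M _ _ hM n => ?_⟩
  rw [← realize_arrSentence]
  have e1 := T.complete.realize_sentence_iff (arrSentence φ n) M
  have e2 := T.complete.realize_sentence_iff (arrSentence φ n) M₀
  rw [e1, ← e2, realize_arrSentence]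
  exact ⟨_, isArr_of_inf φ a h1 h2 n⟩

end

open Classical in
/-- An ultrafilter which saturates a theory with `TP₂` is good for equality. -/
theorem goodEq_of_tp2 {T : CTheory} (hT : HasTP2 T) {I : Type} [Infinite I] (D : Ultrafilter I)
    (hD : Regular D) (M : Type) [T.L.Structure M] [Nonempty M] (hM : M ⊨ T.T)
    (hS : Saturated T.L (Pow D M) #I) : GoodEq D I := by
  have hI : ℵ₀ ≤ #I := Cardinal.infinite_iff.1 inferInstance
  obtain ⟨p, q, φ, harr⟩ := exists_isArr hT
  choose z hz using harr M hM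
  obtain ⟨E, hE, hE'⟩ := hD
  intro X g hg
  -- the finite sets of active indices and their enumerations
  have hJ : ∀ t : I, ∃ (n : ℕ), Nonempty ({i | t ∈ E i} ≃ Fin n) := fun t =>
    have := (hE' t).to_subtype
    Finite.exists_equiv_fin _
  choose n hn using hJ
  let e : ∀ t, {i | t ∈ E i} ≃ Fin (n t) := fun t => (hn t).some
  -- representative of the class of `i` at `t`
  let rep : ∀ t, {i | t ∈ E i} → {i | t ∈ E i} := fun t i =>
    Classical.epsilon (h := ⟨i⟩) (fun i' : {i | t ∈ E i} => g i' t = g i t)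
  have hrep : ∀ t i, g (rep t i) t = g i t := fun t i =>
    Classical.epsilon_spec (p := fun i' : {i | t ∈ E i} => g i' t = g i t) ⟨i, rfl⟩
  have hrep' : ∀ t (i j : {i | t ∈ E i}), g i t = g j t → rep t i = rep t j := by
    intro t i j h
    simp only [rep, h]
  let b : I → Fin q → I → M := fun i y t =>
    if h : t ∈ E i then z (n t) (e t (rep t ⟨i, h⟩), e t ⟨i, h⟩, y) else Classical.arbitrary M
  have hb : ∀ i y t (h : t ∈ E i), b i y t = z (n t) (e t (rep t ⟨i, h⟩), e t ⟨i, h⟩, y) := by
    intro i y t h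
    simp only [b, dif_pos h]
  let B : I → Fin q → Pow D M := fun i y => ((b i y : I → M) : (D : Filter I).Product (fun _ => M))
  let A : Set (Pow D M) := Set.range (fun iy : I × Fin q => B iy.1 iy.2)
  have hA : #A ≤ #I := by
    refine Cardinal.mk_range_le.trans ?_
    rw [Cardinal.mk_prod, Cardinal.lift_id, Cardinal.lift_id]
    refine (mul_le_mul' le_rfl ((?_ : #(Fin q) ≤ ℵ₀).trans hI)).trans (Cardinal.mul_eq_self hI).le
    simp
  let ψ : I → T.L.Formula (A ⊕ Fin p) := fun i =>
    φ.relabel (Sum.elim Sum.inr (fun y => Sum.inl ⟨B i y, ⟨(i, y), rfl⟩⟩))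
  have hψ : ∀ i (x : Fin p → Pow D M), (ψ i).Realize (Sum.elim (fun a : A => (a : Pow D M)) x) ↔
      φ.Realize (Sum.elim x (B i)) := by
    intro i x
    rw [Language.Formula.realize_relabel]
    refine Iff.of_eq (congrArg _ ?_)
    funext v
    rcases v with v | v <;> rfl
  have hlos : ∀ i (x : Fin p → I → M),
      φ.Realize (Sum.elim (fun l => ((x l : I → M) : (D : Filter I).Product (fun _ => M))) (B i)) ↔
      ∀ᶠ t in (D : Filter I), φ.Realize (Sum.elim (fun l => x l t) (fun y => b i y t)) := by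
    intro i x
    have h1 := Language.Ultraproduct.realize_formula_cast (L := T.L) (M := fun _ : I => M) (u := D) φ
      (Sum.elim x (b i))
    have e1 : (fun v => ((Sum.elim x (b i) v : I → M) : (D : Filter I).Product (fun _ => M))) =
        Sum.elim (fun l => ((x l : I → M) : (D : Filter I).Product (fun _ => M))) (B i) := by
      funext v
      rcases v with v | v <;> rfl
    rw [e1] at h1
    rw [h1]
    refine Filter.eventually_congr (Filter.Eventually.of_forall fun t => ?_)
    refine Iff.of_eq (congrArg _ ?_)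
    funext v
    rcases v with v | v <;> rfl
  -- the type is finitely satisfiable
  obtain ⟨x, hx⟩ := hS A hA p (Set.range ψ) (by
    intro s hs
    obtain ⟨S, hS1⟩ : ∃ S : Finset I, ∀ χ ∈ s, ∃ i ∈ S, ψ i = χ := by
      have hs' : ∀ χ : s, ∃ i, ψ i = χ := fun χ => hs χ.2
      choose c hc using hs'
      refine ⟨Finset.univ.image c, fun χ hχ => ⟨c ⟨χ, hχ⟩, ?_, hc ⟨χ, hχ⟩⟩⟩
      exact Finset.mem_image_of_mem _ (Finset.mem_univ _)
    have h1 : ∀ᶠ t in (D : Filter I), (∀ i ∈ S, t ∈ E i) ∧
        ∀ i ∈ S, ∀ j ∈ S, i ≠ j → g i t ≠ g j t := by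
      refine Filter.Eventually.and ?_ ?_
      · rw [Filter.eventually_all_finset]
        exact fun i _ => hE i
      · rw [Filter.eventually_all_finset]
        intro i _
        rw [Filter.eventually_all_finset]
        intro j _
        by_cases hij : i = j
        · exact Filter.Eventually.of_forall (fun t h => absurd hij h)
        · filter_upwards [hg i j hij] with t ht _
          exact ht
    have h2 : ∀ t, ∃ x : Fin p → M, ((∀ i ∈ S, t ∈ E i) ∧
        ∀ i ∈ S, ∀ j ∈ S, i ≠ j → g i t ≠ g j t) →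
        ∀ i ∈ S, φ.Realize (Sum.elim x (fun y => b i y t)) := by
      intro t
      by_cases ht : (∀ i ∈ S, t ∈ E i) ∧ ∀ i ∈ S, ∀ j ∈ S, i ≠ j → g i t ≠ g j t
      · obtain ⟨ht1, ht2⟩ := ht
        let f : Fin (n t) → Fin (n t) := fun r =>
          if h : ∃ i : S, e t (rep t ⟨i, ht1 i i.2⟩) = r then e t ⟨h.choose, ht1 _ h.choose.2⟩
          else r
        have hf : ∀ i (hi : i ∈ S), f (e t (rep t ⟨i, ht1 i hi⟩)) = e t ⟨i, ht1 i hi⟩ := by
          intro i hi
          have h : ∃ i' : S, e t (rep t ⟨i', ht1 i' i'.2⟩) = e t (rep t ⟨i, ht1 i hi⟩) :=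
            ⟨⟨i, hi⟩, rfl⟩
          have h' : (h.choose : I) = i := by
            by_contra hne
            refine ht2 _ h.choose.2 _ hi hne ?_
            have h3 := (e t).injective h.choose_spec
            have h4 := hrep t ⟨h.choose, ht1 _ h.choose.2⟩
            have h5 := hrep t ⟨i, ht1 i hi⟩
            rw [h3] at h4
            exact h4.symm.trans h5
          simp only [f]
          rw [dif_pos h]
          congr 1
          exact Subtype.ext h'
        obtain ⟨x, hx⟩ := (hz (n t)).1 f
        refine ⟨x, fun _ i hi => ?_⟩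
        have := hx (e t (rep t ⟨i, ht1 i hi⟩))
        rw [hf i hi] at this
        convert this using 2
        funext y
        exact hb i y t (ht1 i hi)
      · exact ⟨fun _ => Classical.arbitrary M, fun h => absurd h ht⟩
    choose x hx using h2
    refine ⟨fun l => ((fun t => x t l : I → M) : (D : Filter I).Product (fun _ => M)), ?_⟩
    intro χ hχ
    obtain ⟨i, hi, rfl⟩ := hS1 χ hχ
    refine (hψ i _).2 ((hlos i (fun l t => x t l)).2 ?_)
    filter_upwards [h1] with t ht
    exact hx t ht i hi)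
  -- the realization gives the distribution
  have hxr : ∀ l, ∃ r : I → M, (r : (D : Filter I).Product (fun _ => M)) = x l :=
    fun l => Quotient.exists_rep (x l)
  choose r hr using hxr
  refine ⟨fun i => {t | t ∈ E i ∧ φ.Realize (Sum.elim (fun l => r l t) (fun y => b i y t))},
    fun i => ?_, ?_⟩
  · refine Filter.inter_mem (hE i) ?_
    refine (hlos i r).1 ?_
    have e1 : (fun l => ((r l : I → M) : (D : Filter I).Product (fun _ => M))) = x := funext hr
    rw [e1]
    exact (hψ i x).1 (hx _ ⟨i, rfl⟩)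
  · rintro i j hij t ⟨hi1, hi2⟩ ⟨hj1, hj2⟩ heq
    have h1 : rep t ⟨i, hi1⟩ = rep t ⟨j, hj1⟩ := hrep' t ⟨i, hi1⟩ ⟨j, hj1⟩ heq
    have e1 : (fun y => b i y t) = fun y => z (n t) (e t (rep t ⟨i, hi1⟩), e t ⟨i, hi1⟩, y) :=
      funext fun y => hb i y t hi1
    have e2 : (fun y => b j y t) = fun y => z (n t) (e t (rep t ⟨i, hi1⟩), e t ⟨j, hj1⟩, y) :=
      funext fun y => by rw [hb j y t hj1, h1]
    rw [e1] at hi2
    rw [e2] at hj2
    refine (hz (n t)).2 _ _ _ ?_ ⟨fun l => r l t, hi2, hj2⟩
    intro h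
    have := (e t).injective h
    exact hij (congrArg Subtype.val this)

end Pool.Agent.Lib.MP_9a7643_lc
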