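import Pool.Agent.Lib.MP_9a7643_lc.Bin2
import Pool.Agent.Lib.MP_9a7643_lc.Sat
import Pool.Agent.Lib.MP_9a7643_lc.TP2

/-!
# Binary theories with free amalgamation lie below every theory with TP₂
-/

open FirstOrder Filter Cardinal

namespace Pool.Agent.Lib.MP_9a7643_lc

section
variable {L : FirstOrder.Language.{0, 0}}

open Classical in
/-- A finitely satisfiable set of formulas is realized in an ultrapower. -/
theorem exists_realization {N : Type} [L.Structure N] [Nonempty N] (A : Set N) (n : ℕ)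
    (p : Set (L.Formula (A ⊕ Fin n)))
    (hp : ∀ s : Finset (L.Formula (A ⊕ Fin n)), (s : Set (L.Formula (A ⊕ Fin n))) ⊆ p →
      ∃ x : Fin n → N, ∀ φ ∈ s, φ.Realize (Sum.elim (fun a : A => (a : N)) x)) :
    ∃ (J : Type) (U : Ultrafilter J) (c : Fin n → Pow U N), RegFor U ℕ ∧
      ∀ φ ∈ p, φ.Realize (Sum.elim (fun a : A => diag (L := L) U N (a : N)) c) := by
  let J := Finset (p ⊕ ℕ)
  let U : Ultrafilter J := Ultrafilter.of atTop
  have hU : ∀ q : p ⊕ ℕ, {s : J | q ∈ s} ∈ U := by
    intro q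
    have h1 : (U : Filter J) ≤ atTop := Ultrafilter.of_le _
    refine h1 ?_
    refine Filter.mem_of_superset (Filter.mem_atTop ({q} : Finset (p ⊕ ℕ))) ?_
    intro s hs
    exact hs (Finset.mem_singleton_self q)
  have hUreg : RegFor U ℕ := by
    refine ⟨fun k => {s : J | Sum.inr k ∈ s}, fun k => hU _, ?_⟩
    intro s
    refine Set.Finite.subset (Set.Finite.preimage (Sum.inr_injective.injOn) (Finset.finite_toSet s)) ?_
    intro k hk
    exact hk
  have hc : ∀ s : J, ∃ x : Fin n → N, ∀ φ : p, Sum.inl φ ∈ s →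
      (φ : L.Formula (A ⊕ Fin n)).Realize (Sum.elim (fun a : A => (a : N)) x) := by
    intro s
    obtain ⟨x, hx⟩ := hp ((s.preimage Sum.inl Sum.inl_injective.injOn).image (fun φ : p => (φ : L.Formula (A ⊕ Fin n)))) (by
      intro φ hφ
      simp only [Finset.coe_image, Set.mem_image] at hφ
      obtain ⟨ψ, _, rfl⟩ := hφ
      exact ψ.2)
    refine ⟨x, fun φ hφ => hx _ ?_⟩
    simp only [Finset.mem_image, Finset.mem_preimage]
    exact ⟨φ, hφ, rfl⟩
  choose c hc using hc
  refine ⟨J, U, fun i => ((fun s => c s i : J → N) : (U : Filter J).Product (fun _ => N)), hUreg, ?_⟩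
  intro φ hφ
  have h1 := Language.Ultraproduct.realize_formula_cast (L := L) (M := fun _ : J => N) (u := U) φ
    (fun v s => Sum.elim (fun a : A => (a : N)) (c s) v)
  refine (iff_of_eq (congrArg _ ?_)).1 (h1.2 ?_)
  · funext v
    rcases v with a | i <;> rfl
  · refine Filter.mem_of_superset (hU (Sum.inl ⟨φ, hφ⟩)) ?_
    intro s hs
    exact hc s ⟨φ, hφ⟩ hs

/-- Types of infinite tuples are determined by finite subtuples. -/
theorem tpEq_of_fin {M N : Type} [L.Structure M] [L.Structure N] {α : Type} (u : α → M) (v : α → N)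
    (h : ∀ (m : ℕ) (f : Fin m → α), TpEq L (u ∘ f) (v ∘ f)) : TpEq L u v := by
  classical
  intro φ
  obtain ⟨m, ⟨e⟩⟩ := Finite.exists_equiv_fin φ.freeVarFinset
  have h1 := h m (fun i => (e.symm i : α)) (φ.restrictFreeVar e)
  rw [Language.Formula.Realize, Language.Formula.Realize,
    Language.BoundedFormula.realize_restrictFreeVar (v' := u),
    Language.BoundedFormula.realize_restrictFreeVar (v' := v)] at h1
  · exact h1
  · intro a
    simp
  · intro a
    simp

end

variable {T : CTheory}

/-- adding one point to a type equality in a binary theory -/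
theorem tpEq_option (hT : IsBinaryFree T) {M N : Type} [T.L.Structure M] [T.L.Structure N]
    [Nonempty M] [Nonempty N] (hM : M ⊨ T.T) (hN : N ⊨ T.T) {ι : Type} [Nonempty ι] {e₁ : ι → M}
    {e₂ : ι → N} (htp : TpEq T.L e₁ e₂) {c : M} {x : N}
    (hx : ∀ i, TpEq T.L ![c, e₁ i] ![x, e₂ i]) :
    TpEq T.L (fun o : Option ι => o.elim c e₁) (fun o : Option ι => o.elim x e₂) := by
  refine tpEq_of_fin _ _ fun m f => hT.1 M N hM hN m _ _ fun i j => ?_
  simp only [Function.comp]
  rcases f i with _ | a <;> rcases f j with _ | b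
  · obtain ⟨i₀⟩ := (inferInstance : Nonempty ι)
    have h := (hx i₀).relabel (fun _ : Fin 2 => (0 : Fin 2))
    have e1 : (![c, e₁ i₀] ∘ fun _ : Fin 2 => (0 : Fin 2)) = ![c, c] := by
      funext s; fin_cases s <;> rfl
    have e2 : (![x, e₂ i₀] ∘ fun _ : Fin 2 => (0 : Fin 2)) = ![x, x] := by
      funext s; fin_cases s <;> rfl
    rw [e1, e2] at h
    exact h
  · exact hx b
  · have h := (hx a).relabel (![1, 0] : Fin 2 → Fin 2)
    have e1 : (![c, e₁ a] ∘ (![1, 0] : Fin 2 → Fin 2)) = ![e₁ a, c] := by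
      funext s; fin_cases s <;> rfl
    have e2 : (![x, e₂ a] ∘ (![1, 0] : Fin 2 → Fin 2)) = ![e₂ a, x] := by
      funext s; fin_cases s <;> rfl
    rw [e1, e2] at h
    exact h
  · have h := htp.relabel (![a, b] : Fin 2 → ι)
    have e1 : (e₁ ∘ (![a, b] : Fin 2 → ι)) = ![e₁ a, e₁ b] := by
      funext s; fin_cases s <;> rfl
    have e2 : (e₂ ∘ (![a, b] : Fin 2 → ι)) = ![e₂ a, e₂ b] := by
      funext s; fin_cases s <;> rfl
    rw [e1, e2] at h
    exact h

/-- Ultrafilters which are good for equality saturate binary theories with free amalgamation. -/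
theorem binary_saturated (hT : IsBinaryFree T) {I : Type} [Infinite I] (D : Ultrafilter I)
    (hD : Regular D) (hg : GoodEq D I) (M : Type) [T.L.Structure M] [Nonempty M] (hM : M ⊨ T.T) :
    Saturated T.L (Pow D M) #I := by
  classical
  have hI : ℵ₀ ≤ #I := Cardinal.infinite_iff.1 inferInstance
  have hNne : Nonempty (Pow D M) := Language.Ultraproduct.Product.instNonempty
  have hN : Pow D M ⊨ T.T := pow_models D hM
  intro A hA n p hp
  obtain ⟨J, U, c, hUreg, hc⟩ := exists_realization A n p hp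
  have hN' : Pow U (Pow D M) ⊨ T.T := pow_models U hN
  have hN'ne : Nonempty (Pow U (Pow D M)) := Language.Ultraproduct.Product.instNonempty
  let δ : Pow D M ↪ₑ[T.L] Pow U (Pow D M) := diag U (Pow D M)
  let A₁ : Set (Pow D M) := insert (Classical.arbitrary (Pow D M)) A
  have hA₁ : #A₁ ≤ #I := by
    refine (Cardinal.mk_insert_le).trans ?_
    exact (add_le_add hA ((Cardinal.one_le_aleph0).trans hI)).trans (Cardinal.add_eq_self hI).le
  have main : ∀ (k : ℕ) (c : Fin k → Pow U (Pow D M)), ∃ (ι : Type) (_ : Nonempty ι)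
      (e₁ : ι → Pow U (Pow D M)) (e₂ : ι → Pow D M), #ι ≤ #I ∧ Function.Injective e₁ ∧
      TpEq T.L e₁ e₂ ∧ (∀ a ∈ A₁, ∃ i, e₁ i = δ a ∧ e₂ i = a) ∧ (∀ l, ∃ i, e₁ i = c l) := by
    intro k
    induction k with
    | zero =>
      intro c
      refine ⟨A₁, ⟨⟨_, Set.mem_insert _ _⟩⟩, fun a => δ a.1, fun a => a.1, hA₁, ?_, ?_, ?_, ?_⟩
      · intro a b hab
        exact Subtype.ext (δ.injective hab)
      · intro ψ
        exact δ.map_formula ψ (fun a : A₁ => (a : Pow D M))
      · intro a ha
        exact ⟨⟨a, ha⟩, rfl, rfl⟩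
      · intro l
        exact l.elim0
    | succ k ih =>
      intro c
      obtain ⟨ι, hne, e₁, e₂, hι, hinj, htp, hA', hc'⟩ := ih (fun l => c l.castSucc)
      by_cases hlast : ∃ i, e₁ i = c (Fin.last k)
      · refine ⟨ι, hne, e₁, e₂, hι, hinj, htp, hA', ?_⟩
        intro l
        induction l using Fin.lastCases with
        | last => exact hlast
        | cast l => exact hc' l
      · push Not at hlast
        obtain ⟨x, hx⟩ := step hT D hD hg M hM hι e₁ hinj e₂ htp (c (Fin.last k))
          (fun i h => hlast i h.symm)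
        refine ⟨Option ι, ⟨none⟩, fun o => o.elim (c (Fin.last k)) e₁, fun o => o.elim x e₂,
          ?_, ?_, tpEq_option hT hN' hN htp hx, ?_, ?_⟩
        · rw [Cardinal.mk_option]
          exact (add_le_add hι ((Cardinal.one_le_aleph0).trans hI)).trans
            (Cardinal.add_eq_self hI).le
        · rintro (_ | i) (_ | j) h
          · rfl
          · exact absurd h.symm (hlast j)
          · exact absurd h (hlast i)
          · exact congrArg some (hinj h)
        · intro a ha
          obtain ⟨i, hi⟩ := hA' a ha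
          exact ⟨some i, hi⟩
        · intro l
          induction l using Fin.lastCases with
          | last => exact ⟨none, rfl⟩
          | cast l =>
            obtain ⟨i, hi⟩ := hc' l
            exact ⟨some i, hi⟩
  obtain ⟨ι, _, e₁, e₂, _, _, htp, hA', hc'⟩ := main n c
  have hA'' : ∀ a : A, ∃ i, e₁ i = δ a.1 ∧ e₂ i = a.1 := fun a => hA' a.1 (Or.inr a.2)
  choose fa hfa1 hfa2 using hA''
  choose fc hfc using hc'
  refine ⟨fun l => e₂ (fc l), fun φ hφ => ?_⟩
  have h1 := htp.relabel (Sum.elim fa fc) φ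
  have e1' : e₁ ∘ Sum.elim fa fc = Sum.elim (fun a : A => δ (a : Pow D M)) c := by
    funext v
    rcases v with a | l
    · exact hfa1 a
    · exact hfc l
  have e2' : e₂ ∘ Sum.elim fa fc = Sum.elim (fun a : A => (a : Pow D M)) (fun l => e₂ (fc l)) := by
    funext v
    rcases v with a | l
    · exact hfa2 a
    · rfl
  rw [e1', e2'] at h1
  exact h1.1 (hc φ hφ)

/-- Binary theories with free amalgamation lie below every theory with `TP₂`. -/
theorem binary_le (S : CTheory) (hT : IsBinaryFree T) (hS : HasTP2 S) : KLe T S := by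
  intro I _ D hD M₁ M₂ _ _ _ _ hM₁ hM₂ hsat
  exact binary_saturated hT D hD (goodEq_of_tp2 hS D hD M₂ hM₂ hsat) M₁ hM₁

end Pool.Agent.Lib.MP_9a7643_lc
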