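import Mathlib

/-!
# Keisler's order, saturation of ultrapowers, good for equality: definitions
-/

open FirstOrder Filter Cardinal

namespace Pool.Agent.Lib.MP_9a7643_lc

/-- The ultrapower `M ^ I / D`. -/
abbrev Pow {I : Type} (D : Ultrafilter I) (M : Type) : Type := (D : Filter I).Product (fun _ => M)

/-- The ultrafilter `D` on `I` is regular: there are `|I|` many sets in `D` such that every point
of `I` lies in only finitely many of them. -/
def Regular {I : Type} (D : Ultrafilter I) : Prop :=
  ∃ E : I → Set I, (∀ i, E i ∈ D) ∧ ∀ t, {i | t ∈ E i}.Finite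

/-- `N` is `κ⁺`-saturated: every finitely satisfiable set of formulas in finitely many free
variables with at most `κ` parameters from `N` is realized in `N`. -/
def Saturated (L : FirstOrder.Language.{0, 0}) (N : Type) [L.Structure N] (κ : Cardinal.{0}) : Prop :=
  ∀ A : Set N, #A ≤ κ → ∀ (n : ℕ) (p : Set (L.Formula (A ⊕ Fin n))),
    (∀ s : Finset (L.Formula (A ⊕ Fin n)), (s : Set (L.Formula (A ⊕ Fin n))) ⊆ p →
      ∃ x : Fin n → N, ∀ φ ∈ s, φ.Realize (Sum.elim (fun a : A => (a : N)) x)) →
    ∃ x : Fin n → N, ∀ φ ∈ p, φ.Realize (Sum.elim (fun a : A => (a : N)) x)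

/-- A complete first-order theory in a countable language. -/
structure CTheory where
  /-- the language -/
  L : FirstOrder.Language.{0, 0}
  /-- the language is countable -/
  countable : Countable L.Symbols
  /-- the theory -/
  T : L.Theory
  /-- the theory is complete -/
  complete : T.IsComplete

/-- Keisler's order `T₁ ⊴ T₂`. -/
def KLe (T₁ T₂ : CTheory) : Prop :=
  ∀ (I : Type) [Infinite I] (D : Ultrafilter I), Regular D →
    ∀ (M₁ M₂ : Type) [T₁.L.Structure M₁] [T₂.L.Structure M₂] [Nonempty M₁] [Nonempty M₂],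
      M₁ ⊨ T₁.T → M₂ ⊨ T₂.T →
      Saturated T₂.L (Pow D M₂) #I → Saturated T₁.L (Pow D M₁) #I

/-- The formula `φ(x, y)` has the tree property in `M`: for some `k ≥ 2` there are parameters
`a η` for the nonempty finite sequences `η` of natural numbers (`a (m :: η)` is the parameter of the
`m`-th son of the node `η`) such that along every branch the formulas are finitely satisfiable and
for every node any `k` of the formulas of its sons are inconsistent. -/
def HasTP {L : FirstOrder.Language.{0, 0}} {M : Type} [L.Structure M] {p q : ℕ}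
    (φ : L.Formula (Fin p ⊕ Fin q)) : Prop :=
  ∃ k : ℕ, 2 ≤ k ∧ ∃ a : List ℕ → Fin q → M,
    (∀ σ : List ℕ, ∃ x : Fin p → M, ∀ η : List ℕ, η ≠ [] → η <:+ σ →
      φ.Realize (Sum.elim x (a η))) ∧
    (∀ (η : List ℕ) (s : Finset ℕ), s.card = k →
      ¬ ∃ x : Fin p → M, ∀ m ∈ s, φ.Realize (Sum.elim x (a (m :: η))))

/-- The theory is not simple: some formula has the tree property in some model. -/
def NonSimple (T : CTheory) : Prop :=
  ∃ (M : Type) (_ : T.L.Structure M) (_ : Nonempty M), M ⊨ T.T ∧
    ∃ (p q : ℕ) (φ : T.L.Formula (Fin p ⊕ Fin q)), HasTP (M := M) φ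

/-- The theory has `TP₂` (the tree property of the second kind): in some model there is an array
`a i j` of parameters for a formula `φ(x, y)` such that every finite choice of one formula from
each of finitely many rows is satisfiable, and any two formulas of the same row are
inconsistent. -/
def HasTP2 (T : CTheory) : Prop :=
  ∃ (M : Type) (_ : T.L.Structure M) (_ : Nonempty M), M ⊨ T.T ∧
    ∃ (p q : ℕ) (φ : T.L.Formula (Fin p ⊕ Fin q)) (a : ℕ → ℕ → Fin q → M),
      (∀ (f : ℕ → ℕ) (n : ℕ), ∃ x : Fin p → M, ∀ i < n, φ.Realize (Sum.elim x (a i (f i)))) ∧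
      (∀ i j j' : ℕ, j ≠ j' → ¬ ∃ x : Fin p → M,
        φ.Realize (Sum.elim x (a i j)) ∧ φ.Realize (Sum.elim x (a i j')))

/-- `M` is existentially closed in the class of all `L`-structures: every quantifier-free formula
with parameters in `M` which is satisfiable in an extension of `M` is satisfiable in `M`. -/
def IsEC (L : FirstOrder.Language.{0, 0}) (M : Type) [L.Structure M] : Prop :=
  ∀ (m : ℕ) (φ : L.Formula (M ⊕ Fin m)), φ.IsQF →
    ∀ (M' : Type) [L.Structure M'] (e : M ↪[L] M'),
      (∃ y : Fin m → M', φ.Realize (Sum.elim e y)) → ∃ y : Fin m → M, φ.Realize (Sum.elim id y)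

/-- `T` is a generic theory: the theory of a (nonempty) existentially closed `T.L`-structure, that
is, a completion of the model companion of the empty theory in the language `T.L`. -/
def IsGeneric (T : CTheory) : Prop :=
  ∃ (M : Type) (_ : T.L.Structure M) (_ : Nonempty M), M ⊨ T.T ∧ IsEC T.L M

/-- The ultrafilter `D` on `I` is good for equality for families of functions indexed by `ι`: for
every family `g i : I → X` (`i ∈ ι`) of functions, pairwise different modulo `D`, there are sets
`d i ∈ D` such that `g i t ≠ g j t` for all `i ≠ j` and `t ∈ d i ∩ d j`. -/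
def GoodEq {I : Type} (D : Ultrafilter I) (ι : Type) : Prop :=
  ∀ (X : Type) (g : ι → I → X), (∀ i j, i ≠ j → ∀ᶠ t in (D : Filter I), g i t ≠ g j t) →
    ∃ d : ι → Set I, (∀ i, d i ∈ D) ∧ ∀ i j, i ≠ j → ∀ t, t ∈ d i → t ∈ d j → g i t ≠ g j t

/-- `D` has a point-finite family of sets indexed by `ι`. -/
def RegFor {I : Type} (D : Ultrafilter I) (ι : Type) : Prop :=
  ∃ E : ι → Set I, (∀ i, E i ∈ D) ∧ ∀ t, {i | t ∈ E i}.Finite

end Pool.Agent.Lib.MP_9a7643_lc
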