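import Pool.Agent.Lib.MP_9a7643_lc.Defs

/-!
# Regularity and good for equality: elementary facts
-/

open FirstOrder Filter Cardinal

namespace Pool.Agent.Lib.MP_9a7643_lc

theorem RegFor.mono {I : Type} {D : Ultrafilter I} {ι ι' : Type} (h : RegFor D ι) (e : ι' ↪ ι) :
    RegFor D ι' := by
  obtain ⟨E, hE, hf⟩ := h
  exact ⟨fun i => E (e i), fun i => hE _, fun t =>
    Set.Finite.preimage (e.injective.injOn) (hf t)⟩

theorem RegFor.mono_card {I : Type} {D : Ultrafilter I} {ι ι' : Type} (h : RegFor D ι)
    (e : #ι' ≤ #ι) : RegFor D ι' := by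
  rw [Cardinal.le_def] at e
  obtain ⟨e⟩ := e
  exact h.mono e

theorem GoodEq.mono {I : Type} {D : Ultrafilter I} {ι ι' : Type} (h : GoodEq D ι) (e : ι' ↪ ι) :
    GoodEq D ι' := by
  classical
  intro X g hg
  let g' : ι → I → X ⊕ ι := fun i =>
    if hi : ∃ j, e j = i then fun t => Sum.inl (g hi.choose t) else fun _ => Sum.inr i
  have hg' : ∀ j, g' (e j) = fun t => Sum.inl (g j t) := by
    intro j
    have hj : ∃ k, e k = e j := ⟨j, rfl⟩
    have : hj.choose = j := e.injective hj.choose_spec
    simp only [g', dif_pos hj, this]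
  have hne : ∀ i, (¬ ∃ j, e j = i) → g' i = fun _ => Sum.inr i := by
    intro i hi
    simp only [g', dif_neg hi]
  obtain ⟨d, hd, hd'⟩ := h (X ⊕ ι) g' (by
    intro i j hij
    by_cases hi : ∃ k, e k = i
    · obtain ⟨k, rfl⟩ := hi
      rw [hg' k]
      by_cases hj : ∃ k, e k = j
      · obtain ⟨l, rfl⟩ := hj
        rw [hg' l]
        have hkl : k ≠ l := fun h => hij (by rw [h])
        filter_upwards [hg k l hkl] with t ht h
        exact ht (Sum.inl_injective h)
      · rw [hne j hj]
        exact Filter.Eventually.of_forall (fun t => by simp)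
    · rw [hne i hi]
      by_cases hj : ∃ k, e k = j
      · obtain ⟨l, rfl⟩ := hj
        rw [hg' l]
        exact Filter.Eventually.of_forall (fun t => by simp)
      · rw [hne j hj]
        exact Filter.Eventually.of_forall (fun t h => hij (Sum.inr_injective h)))
  refine ⟨fun j => d (e j), fun j => hd _, fun i j hij t hi hj h => ?_⟩
  refine hd' (e i) (e j) (fun h => hij (e.injective h)) t hi hj ?_
  rw [hg', hg']
  simp only [h]

theorem GoodEq.mono_card {I : Type} {D : Ultrafilter I} {ι ι' : Type} (h : GoodEq D ι)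
    (e : #ι' ≤ #ι) : GoodEq D ι' := by
  rw [Cardinal.le_def] at e
  obtain ⟨e⟩ := e
  exact h.mono e

theorem goodEq_nat {I : Type} (D : Ultrafilter I) : GoodEq D ℕ := by
  intro X g hg
  refine ⟨fun j => {t | ∀ i < j, g i t ≠ g j t}, fun j => ?_, ?_⟩
  · have : ∀ᶠ t in (D : Filter I), ∀ i ∈ Finset.range j, g i t ≠ g j t := by
      rw [Filter.eventually_all_finset]
      intro i hi
      exact hg i j (by have := Finset.mem_range.1 hi; omega)
    filter_upwards [this] with t ht
    intro i hi
    exact ht i (Finset.mem_range.2 hi)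
  · intro i j hij t hi hj
    rcases lt_or_gt_of_ne hij with h | h
    · exact hj i h
    · exact (hi j h).symm

theorem goodEq_countable {I : Type} (D : Ultrafilter I) (ι : Type) (h : #ι ≤ ℵ₀) :
    GoodEq D ι :=
  (goodEq_nat D).mono_card (by simpa using h)

theorem Regular.nat {I : Type} [Infinite I] {D : Ultrafilter I} (h : Regular D) : RegFor D ℕ :=
  RegFor.mono_card (ι := I) h (by simp)

end Pool.Agent.Lib.MP_9a7643_lc
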