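import Pool.Agent.Lib.MP_9a7643_lc.Rich
import Pool.Agent.Lib.MP_9a7643_lc.Reg
import Pool.Agent.Lib.MP_9a7643_lc.BF

/-!
# The extension property of ultrapowers of rich structures
-/

open FirstOrder Filter Cardinal

namespace Pool.Agent.Lib.MP_9a7643_lc

section
variable {L : FirstOrder.Language.{0, 0}}

/-- The facts about a structure on `B`. -/
abbrev Fct (L : FirstOrder.Language.{0, 0}) (B : Type) : Type :=
  (B × B) ⊕ ((Σ s : Σ k, L.Functions k, (Fin s.1 → B)) ⊕ (Σ s : Σ k, L.Relations k, (Fin s.1 → B)))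

/-- The elements occurring in a fact. -/
def supp {B : Type} [L.Structure B] : Fct L B → Set B
  | Sum.inl (b, b') => {b, b'}
  | Sum.inr (Sum.inl ⟨s, v⟩) => insert (Language.Structure.funMap s.2 v) (Set.range v)
  | Sum.inr (Sum.inr ⟨_, v⟩) => Set.range v

theorem supp_finite {B : Type} [L.Structure B] (e : Fct L B) : (supp e).Finite := by
  rcases e with ⟨b, b'⟩ | ⟨s, v⟩ | ⟨s, v⟩
  · exact (Set.finite_singleton b').insert b
  · exact (Set.finite_range v).insert _
  · exact Set.finite_range v

/-- The map `H` respects the fact `e` (facts inside the range of `j` are not considered). -/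
def Holds {A B M : Type} [L.Structure B] [L.Structure M] (j : A → B) (H : B → M) : Fct L B → Prop
  | Sum.inl (b, b') => b ≠ b' → H b ≠ H b'
  | Sum.inr (Sum.inl ⟨s, v⟩) => (∃ i, v i ∉ Set.range j) →
      Language.Structure.funMap s.2 (H ∘ v) = H (Language.Structure.funMap s.2 v)
  | Sum.inr (Sum.inr ⟨s, v⟩) => (∃ i, v i ∉ Set.range j) →
      (Language.Structure.RelMap s.2 (H ∘ v) ↔ Language.Structure.RelMap s.2 v)

open Classical in
/-- One index: finitely many facts are realized in a rich structure. -/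
theorem solve_at {M : Type} [L.Structure M] [Nonempty M] (hM : Rich L M)
    {A B : Type} [L.Structure B] (j : A → B) (hj : Function.Injective j) (r : A → M)
    (F : Set (Fct L B)) (hF : F.Finite)
    (hr : ∀ a a', a ≠ a' → (∃ e ∈ F, j a ∈ supp e) → (∃ e ∈ F, j a' ∈ supp e) → r a ≠ r a') :
    ∃ H : B → M, (∀ a, H (j a) = r a) ∧ ∀ e ∈ F, Holds j H e := by
  have hJ : (⋃ e ∈ F, supp e).Finite := hF.biUnion (fun e _ => supp_finite e)
  let α : Type := {a : A // ∃ e ∈ F, j a ∈ supp e}
  let β : Type := {b : B // (∃ e ∈ F, b ∈ supp e) ∧ b ∉ Set.range j}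
  have hα : Finite α := by
    have : (j ⁻¹' (⋃ e ∈ F, supp e)).Finite := hJ.preimage hj.injOn
    refine (this.subset (t := {a : A | ∃ e ∈ F, j a ∈ supp e}) ?_).to_subtype
    rintro a ⟨e, he, ha⟩
    exact Set.mem_biUnion he ha
  have hβ : Finite β := by
    refine (hJ.subset (t := {b : B | (∃ e ∈ F, b ∈ supp e) ∧ b ∉ Set.range j}) ?_).to_subtype
    rintro b ⟨⟨e, he, hb⟩, _⟩
    exact Set.mem_biUnion he hb
  let σ : α ⊕ β → B := Sum.elim (fun a => j a.1) (fun b => b.1)
  have hσ : Function.Injective σ := by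
    rintro (a | b) (a' | b') h
    · exact congrArg Sum.inl (Subtype.ext (hj h))
    · exact absurd ⟨a.1, h⟩ b'.2.2
    · exact absurd ⟨a'.1, h.symm⟩ b.2.2
    · exact congrArg Sum.inr (Subtype.ext h)
  have hσr : ∀ b, (∃ e ∈ F, b ∈ supp e) → ∃ c, σ c = b := by
    intro b hb
    by_cases hbj : b ∈ Set.range j
    · obtain ⟨a, rfl⟩ := hbj
      exact ⟨Sum.inl ⟨a, hb⟩, rfl⟩
    · exact ⟨Sum.inr ⟨b, hb, hbj⟩, rfl⟩
  have hSF : {s : Σ k, L.Functions k | ∃ v, (Sum.inr (Sum.inl ⟨s, v⟩) : Fct L B) ∈ F}.Finite := by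
    have h1 : ((fun x : (Σ s : Σ k, L.Functions k, (Fin s.1 → B)) =>
        (Sum.inr (Sum.inl x) : Fct L B)) ⁻¹' F).Finite :=
      hF.preimage (fun x _ y _ h => Sum.inl_injective (Sum.inr_injective h))
    refine (h1.image Sigma.fst).subset ?_
    rintro s ⟨v, hv⟩
    exact ⟨⟨s, v⟩, hv, rfl⟩
  have hSR : {s : Σ k, L.Relations k | ∃ v, (Sum.inr (Sum.inr ⟨s, v⟩) : Fct L B) ∈ F}.Finite := by
    have h1 : ((fun x : (Σ s : Σ k, L.Relations k, (Fin s.1 → B)) =>
        (Sum.inr (Sum.inr x) : Fct L B)) ⁻¹' F).Finite :=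
      hF.preimage (fun x _ y _ h => Sum.inr_injective (Sum.inr_injective h))
    refine (h1.image Sigma.fst).subset ?_
    rintro s ⟨v, hv⟩
    exact ⟨⟨s, v⟩, hv, rfl⟩
  let T : Tab L α β :=
    { fv := fun s v => if h : ∃ c, σ c = Language.Structure.funMap s.2 (σ ∘ v) then some h.choose
        else none
      rv := fun s v => Language.Structure.RelMap s.2 (σ ∘ v)
      SF := hSF.toFinset
      SR := hSR.toFinset }
  have hr' : Function.Injective (fun a : α => r a.1) := by
    intro a a' h
    by_contra hne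
    exact hr a.1 a'.1 (fun h => hne (Subtype.ext h)) a.2 a'.2 h
  obtain ⟨y, hy1, hy2, hy3⟩ := hM α β T (fun a => r a.1) hr'
  let z : α ⊕ β → M := Sum.elim (fun a => r a.1) y
  let H : B → M := fun b =>
    if h : ∃ a, j a = b then r h.choose
    else if h' : ∃ c, σ c = b then z h'.choose else Classical.arbitrary M
  have hHj : ∀ a, H (j a) = r a := by
    intro a
    have h : ∃ a', j a' = j a := ⟨a, rfl⟩
    have h' : h.choose = a := hj h.choose_spec
    simp only [H]
    rw [dif_pos h, h']
  have hHσ : ∀ c, H (σ c) = z c := by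
    intro c
    by_cases h : ∃ a, j a = σ c
    · rcases c with a | b
      · exact hHj a.1
      · exact absurd h b.2.2
    · have h' : ∃ c', σ c' = σ c := ⟨c, rfl⟩
      have h'' : h'.choose = c := hσ h'.choose_spec
      simp only [H]
      rw [dif_neg h, dif_pos h', h'']
  refine ⟨H, hHj, ?_⟩
  rintro (⟨b, b'⟩ | ⟨s, v⟩ | ⟨s, v⟩) he
  · intro hne
    obtain ⟨c, hc⟩ := hσr b ⟨_, he, Or.inl rfl⟩
    obtain ⟨c', hc'⟩ := hσr b' ⟨_, he, Or.inr rfl⟩
    rw [← hc, ← hc', hHσ, hHσ]
    intro h
    have := hy1 h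
    exact hne (by rw [← hc, ← hc', this])
  · rintro ⟨i₀, hi₀⟩
    have hw : ∀ i, ∃ c, σ c = v i := fun i => hσr (v i) ⟨_, he, Or.inr ⟨i, rfl⟩⟩
    choose w hw using hw
    have hwv : σ ∘ w = v := funext hw
    obtain ⟨c, hc⟩ := hσr (Language.Structure.funMap s.2 v) ⟨_, he, Or.inl rfl⟩
    have hnew : NewT w := by
      refine ⟨i₀, ?_⟩
      rcases hcase : w i₀ with a | b
      · exfalso
        apply hi₀
        rw [← hw i₀, hcase]
        exact ⟨a.1, rfl⟩
      · exact ⟨b, rfl⟩
    have hfv : T.fv s w = some c := by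
      have h : ∃ c, σ c = Language.Structure.funMap s.2 (σ ∘ w) := ⟨c, by rw [hwv, hc]⟩
      have h' : h.choose = c := hσ (by rw [h.choose_spec, hwv, hc])
      simp only [T]
      rw [dif_pos h, h']
    have key := hy2 s (by simp only [T, Set.Finite.mem_toFinset]; exact ⟨v, he⟩) w hnew c hfv
    have e1 : H ∘ v = z ∘ w := by
      rw [← hwv]
      funext i
      exact hHσ _
    rw [e1, ← hc, hHσ]
    exact key
  · rintro ⟨i₀, hi₀⟩
    have hw : ∀ i, ∃ c, σ c = v i := fun i => hσr (v i) ⟨_, he, ⟨i, rfl⟩⟩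
    choose w hw using hw
    have hwv : σ ∘ w = v := funext hw
    have hnew : NewT w := by
      refine ⟨i₀, ?_⟩
      rcases hcase : w i₀ with a | b
      · exfalso
        apply hi₀
        rw [← hw i₀, hcase]
        exact ⟨a.1, rfl⟩
      · exact ⟨b, rfl⟩
    have key := hy3 s (by simp only [T, Set.Finite.mem_toFinset]; exact ⟨v, he⟩) w hnew
    have e1 : H ∘ v = z ∘ w := by
      rw [← hwv]
      funext i
      exact hHσ _
    rw [e1]
    refine key.trans ?_
    simp only [T]
    rw [hwv]

theorem card_fct {B : Type} (hL : Countable L.Symbols) {κ : Cardinal.{0}} (hκ : ℵ₀ ≤ κ)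
    (hB : #B ≤ κ) : #(Fct L B) ≤ κ := by
  have hlist : #(List B) ≤ κ := (Cardinal.mk_list_le_max B).trans (max_le hκ hB)
  have hF : Countable (Σ k, L.Functions k) :=
    (Sum.inl_injective (α := Σ k, L.Functions k) (β := Σ k, L.Relations k)).countable
  have hR : Countable (Σ k, L.Relations k) :=
    (Sum.inr_injective (α := Σ k, L.Functions k) (β := Σ k, L.Relations k)).countable
  have key : ∀ (S : Type) (ar : S → ℕ), Countable S → #(Σ s : S, (Fin (ar s) → B)) ≤ κ := by
    intro S ar hS
    have h1 : #(Σ s : S, (Fin (ar s) → B)) ≤ #(S × List B) := by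
      refine Cardinal.mk_le_of_injective (f := fun x => (x.1, List.ofFn x.2)) ?_
      rintro ⟨s, v⟩ ⟨s', v'⟩ h
      simp only [Prod.mk.injEq] at h
      obtain ⟨rfl, h2⟩ := h
      rw [List.ofFn_injective h2]
    refine h1.trans ?_
    rw [Cardinal.mk_prod, Cardinal.lift_id, Cardinal.lift_id]
    refine (mul_le_mul' ((Cardinal.mk_le_aleph0_iff.2 hS).trans hκ) hlist).trans ?_
    exact (Cardinal.mul_eq_self hκ).le
  rw [Cardinal.mk_sum, Cardinal.mk_sum]
  simp only [Cardinal.lift_id]
  have h0 : #(B × B) ≤ κ := by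
    rw [Cardinal.mk_prod, Cardinal.lift_id]
    exact (mul_le_mul' hB hB).trans (Cardinal.mul_eq_self hκ).le
  refine (add_le_add h0 (add_le_add (key _ _ hF) (key _ _ hR))).trans ?_
  rw [Cardinal.add_eq_self hκ, Cardinal.add_eq_self hκ]

theorem pow_eq {I : Type} {D : Ultrafilter I} {M : Type} (r r' : I → M) :
    ((r : (D : Filter I).Product (fun _ => M)) = (r' : (D : Filter I).Product (fun _ => M))) ↔
      ∀ᶠ t in (D : Filter I), r t = r' t := Quotient.eq''

theorem pow_rel {I : Type} {D : Ultrafilter I} {M : Type} [L.Structure M] {k : ℕ}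
    (R : L.Relations k) (x : Fin k → I → M) :
    (Language.Structure.RelMap R (fun i => (x i : (D : Filter I).Product (fun _ => M)))) ↔
      ∀ᶠ t in (D : Filter I), Language.Structure.RelMap R (fun i => x i t) := by
  apply Language.relMap_quotient_mk'

theorem ext_of_rich {M : Type} [L.Structure M] [Nonempty M] (hM : Rich L M)
    (hL : Countable L.Symbols) {I : Type} (D : Ultrafilter I) {κ : Cardinal.{0}} (hκ : ℵ₀ ≤ κ)
    (hreg : ∀ ι : Type, #ι ≤ κ → RegFor D ι) (hgood : ∀ ι : Type, #ι ≤ κ → GoodEq D ι) :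
    Ext (L := L) (fun _ _ => True) κ (Pow D M) := by
  intro A B _ _ _ _ hB j g
  have hjinj : Function.Injective j := j.injective
  have hrep : ∀ a, ∃ r : I → M, (r : (D : Filter I).Product (fun _ => M)) = g a :=
    fun a => Quotient.exists_rep (g a)
  choose rep hrep using hrep
  obtain ⟨d, hd, hd'⟩ := hgood A ((Cardinal.mk_le_of_injective hjinj).trans hB) M rep (by
    intro a a' hne
    have h1 : ¬ ∀ᶠ t in (D : Filter I), rep a t = rep a' t := by
      rw [← pow_eq, hrep, hrep]
      exact fun h => hne (g.injective h)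
    exact Ultrafilter.eventually_not.2 h1)
  obtain ⟨E, hE, hE'⟩ := hreg (Fct L B) (card_fct hL hκ hB)
  let act : Fct L B → Set I := fun e => E e ∩ ⋂ a ∈ j ⁻¹' (supp e), d a
  have hact : ∀ e, act e ∈ D := by
    intro e
    refine Filter.inter_mem (hE e) ?_
    refine (Filter.biInter_mem ((supp_finite e).preimage hjinj.injOn)).2 ?_
    intro a _
    exact hd a
  have hsol : ∀ t, ∃ H : B → M, (∀ a, H (j a) = rep a t) ∧ ∀ e, t ∈ act e → Holds j H e := by
    intro t
    refine solve_at hM j hjinj (fun a => rep a t) {e | t ∈ act e}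
      ((hE' t).subset (fun e he => he.1)) ?_
    rintro a a' hne ⟨e, he, ha⟩ ⟨e', he', ha'⟩
    refine hd' a a' hne t ?_ ?_
    · exact Set.mem_iInter₂.1 he.2 a ha
    · exact Set.mem_iInter₂.1 he'.2 a' ha'
  choose H hH1 hH2 using hsol
  have hcoe : ∀ a, ((fun t => H t (j a) : I → M) : (D : Filter I).Product (fun _ => M)) = g a := by
    intro a
    rw [← hrep a]
    congr 1
    funext t
    exact hH1 t a
  refine ⟨{ toFun := fun b => ((fun t => H t b : I → M) : (D : Filter I).Product (fun _ => M))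
            inj' := ?_
            map_fun' := ?_
            map_rel' := ?_ }, hcoe⟩
  · intro b b' h
    by_contra hne
    have h1 := (pow_eq _ _).1 h
    have h2 : ∀ᶠ t in (D : Filter I), H t b ≠ H t b' := by
      filter_upwards [hact (Sum.inl (b, b'))] with t ht
      exact hH2 t _ ht hne
    have h3 := h1.and h2
    obtain ⟨t, ht1, ht2⟩ := h3.exists
    exact ht2 ht1
  · intro k f v
    by_cases hv : ∃ i, v i ∉ Set.range j
    · refine Eq.trans ?_ (Language.Ultraproduct.funMap_cast f (fun i t => H t (v i))).symm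
      refine (pow_eq _ _).2 ?_
      filter_upwards [hact (Sum.inr (Sum.inl ⟨⟨k, f⟩, v⟩))] with t ht
      exact (hH2 t _ ht hv).symm
    · push Not at hv
      choose u hu using hv
      have hu' : j ∘ u = v := funext hu
      rw [← hu']
      have h1 : Language.Structure.funMap f (j ∘ u) = j (Language.Structure.funMap f u) :=
        (j.map_fun f u).symm
      rw [h1]
      refine (hcoe _).trans ?_
      rw [g.map_fun f u]
      congr 1
      funext i
      exact (hcoe (u i)).symm
  · intro k R v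
    by_cases hv : ∃ i, v i ∉ Set.range j
    · refine (pow_rel R (fun i t => H t (v i))).trans ?_
      have h1 : ∀ᶠ t in (D : Filter I), (Language.Structure.RelMap R (fun i => H t (v i)) ↔
          Language.Structure.RelMap R v) := by
        filter_upwards [hact (Sum.inr (Sum.inr ⟨⟨k, R⟩, v⟩))] with t ht
        exact hH2 t _ ht hv
      rw [Filter.eventually_congr h1]
      simp
    · push Not at hv
      choose u hu using hv
      have hu' : j ∘ u = v := funext hu
      rw [← hu']
      have h1 := j.map_rel R u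
      have h2 := g.map_rel R u
      refine Iff.trans ?_ h1.symm
      refine Iff.trans ?_ h2
      refine Iff.of_eq (congrArg _ ?_)
      funext i
      exact hcoe (u i)

end

end Pool.Agent.Lib.MP_9a7643_lc
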