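import Pool.Agent.Lib.MP_9a7643_lc.SatRich
import Pool.Agent.Lib.MP_9a7643_lc.TP2

/-!
# Generic theories
-/

open FirstOrder Filter Cardinal

namespace Pool.Agent.Lib.MP_9a7643_lc

section
variable {L : FirstOrder.Language.{0, 0}}

/-- Rich structures are infinite. -/
theorem infinite_of_rich {M : Type} [L.Structure M] (hM : Rich L M) : Infinite M := by
  by_contra hinf
  rw [not_infinite_iff_finite] at hinf
  have := Fintype.ofFinite M
  let T : Tab L Empty (Fin (Fintype.card M + 1)) :=
    { fv := fun _ _ => none, rv := fun _ _ => True, SF := ∅, SR := ∅ }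
  obtain ⟨y, hy, _⟩ := hM Empty (Fin (Fintype.card M + 1)) T Empty.elim
    (fun x => x.elim)
  have h1 : Function.Injective y := fun i j h =>
    Sum.inr_injective (hy (a₁ := Sum.inr i) (a₂ := Sum.inr j) h)
  have := Fintype.card_le_of_injective y h1
  simp at this

/-- the formula `f (x, y, …, y) = z` -/
def binForm {k : ℕ} (f : L.Functions k) : L.Formula (Fin 1 ⊕ Fin 2) :=
  (Language.Term.func f (fun l : Fin k => if (l : ℕ) = 0 then Language.Term.var (Sum.inl 0)
    else Language.Term.var (Sum.inr 0)) : L.Term (Fin 1 ⊕ Fin 2)).equal (Language.Term.var (Sum.inr 1))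

theorem realize_binForm {k : ℕ} (f : L.Functions k) {M : Type} [L.Structure M]
    (x : Fin 1 → M) (y : Fin 2 → M) : (binForm f).Realize (Sum.elim x y) ↔
      Language.Structure.funMap f (fun l : Fin k => if (l : ℕ) = 0 then x 0 else y 0) = y 1 := by
  rw [binForm, Language.Formula.realize_equal]
  refine Iff.of_eq (congrArg₂ _ ?_ rfl)
  rw [Language.Term.realize_func]
  congr 1
  funext l
  by_cases h : (l : ℕ) = 0 <;> simp [h]

open Classical in
/-- In a rich structure a function symbol of arity at least two gives a `TP₂` array. -/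
theorem tp2_array {M : Type} [L.Structure M] (hM : Rich L M) {k : ℕ} (hk : 2 ≤ k)
    (f : L.Functions k) : ∃ a : ℕ → ℕ → Fin 2 → M,
      (∀ (g : ℕ → ℕ) (n : ℕ), ∃ x : Fin 1 → M, ∀ i < n,
        (binForm f).Realize (Sum.elim x (a i (g i)))) ∧
      (∀ i j j' : ℕ, j ≠ j' → ¬ ∃ x : Fin 1 → M,
        (binForm f).Realize (Sum.elim x (a i j)) ∧ (binForm f).Realize (Sum.elim x (a i j'))) := by
  have := infinite_of_rich hM
  let u : ℕ ↪ M := Infinite.natEmbedding M
  refine ⟨fun i j => ![u (2 * i), u (2 * j + 1)], ?_, ?_⟩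
  · intro g n
    let S : Finset ℕ := (Finset.range n).image (fun i => 2 * i) ∪
      (Finset.range n).image (fun i => 2 * g i + 1)
    have hS1 : ∀ i : Fin n, 2 * (i : ℕ) ∈ S := fun i =>
      Finset.mem_union_left _ (Finset.mem_image_of_mem _ (Finset.mem_range.2 i.2))
    have hS2 : ∀ i : Fin n, 2 * g i + 1 ∈ S := fun i =>
      Finset.mem_union_right _ (Finset.mem_image_of_mem (fun i => 2 * g i + 1)
        (Finset.mem_range.2 i.2))
    let pat : ∀ m : ℕ, Fin n → Fin m → S ⊕ Unit := fun m i l =>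
      if (l : ℕ) = 0 then Sum.inr () else Sum.inl ⟨2 * (i : ℕ), hS1 i⟩
    let T : Tab L S Unit :=
      { fv := fun s v => if h : ∃ i : Fin n, v = pat s.1 i then
          some (Sum.inl ⟨2 * g h.choose + 1, hS2 h.choose⟩) else none
        rv := fun _ _ => True
        SF := {⟨k, f⟩}
        SR := ∅ }
    obtain ⟨y, hy1, hy2, _⟩ := hM S Unit T (fun m => u m)
      (fun m m' h => Subtype.ext (u.injective h))
    refine ⟨fun _ => y (), fun i hi => ?_⟩
    rw [realize_binForm]
    have hpat : ∀ i' : Fin n, pat k ⟨i, hi⟩ = pat k i' → (⟨i, hi⟩ : Fin n) = i' := by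
      intro i' h
      have h1 := congrFun h ⟨1, by omega⟩
      simp only [pat] at h1
      rw [if_neg (by norm_num), if_neg (by norm_num)] at h1
      have h2 : 2 * i = 2 * (i' : ℕ) := congrArg Subtype.val (Sum.inl_injective h1)
      exact Fin.ext (by simp only; omega)
    have hfv : T.fv ⟨k, f⟩ (pat k ⟨i, hi⟩) = some (Sum.inl ⟨2 * g i + 1, hS2 ⟨i, hi⟩⟩) := by
      have h : ∃ i' : Fin n, pat k ⟨i, hi⟩ = pat k i' := ⟨⟨i, hi⟩, rfl⟩
      have h' : h.choose = ⟨i, hi⟩ := (hpat _ h.choose_spec).symm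
      simp only [T]
      rw [dif_pos h]
      congr 3
      rw [h']
    have hnew : NewT (pat k ⟨i, hi⟩) := by
      refine ⟨⟨0, by omega⟩, (), ?_⟩
      simp [pat]
    have key := hy2 ⟨k, f⟩ (by simp only [T, Finset.mem_singleton]) (pat k ⟨i, hi⟩) hnew _ hfv
    simp only [Sum.elim_inl] at key
    refine Eq.trans ?_ key
    congr 1
    funext l
    by_cases hl : (l : ℕ) = 0
    · simp [pat, hl]
    · simp [pat, hl]
  · rintro i j j' hjj' ⟨x, hx1, hx2⟩
    rw [realize_binForm] at hx1 hx2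
    simp only [Matrix.cons_val_zero, Matrix.cons_val_one] at hx1 hx2
    have h1 := hx1.symm.trans hx2
    have h2 := u.injective h1
    omega

theorem generic_tp2 (T : CTheory) (hT : IsGeneric T) (h : ∃ k, 2 ≤ k ∧ Nonempty (T.L.Functions k)) :
    HasTP2 T := by
  obtain ⟨M, _, _, hM, hec⟩ := hT
  obtain ⟨k, hk, ⟨f⟩⟩ := h
  obtain ⟨a, h1, h2⟩ := tp2_array (rich_of_isEC hec) hk f
  exact ⟨M, _, ‹_›, hM, 1, 2, binForm f, a, h1, h2⟩

theorem nonSimple_of_tp2 (T : CTheory) (hT : HasTP2 T) : NonSimple T := by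
  obtain ⟨M, _, _, hM, p, q, φ, a, h1, h2⟩ := hT
  refine ⟨M, _, ‹_›, hM, p, q, φ, 2, le_rfl,
    fun η => a (η.length - 1) (η.headD 0), ?_, ?_⟩
  · intro σ
    obtain ⟨x, hx⟩ := h1 (fun i => σ.reverse.getD i 0) σ.length
    refine ⟨x, fun η hη hησ => ?_⟩
    obtain ⟨l, hl⟩ := hησ
    obtain ⟨m, η', rfl⟩ := List.exists_cons_of_ne_nil hη
    have hlen : η'.length < σ.length := by
      rw [← hl]; simp only [List.length_append, List.length_cons]; omega
    have h3 := hx η'.length hlen
    have h4 : σ.reverse.getD η'.length 0 = m := by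
      rw [← hl]
      simp [List.getD_eq_getElem?_getD]
    simp only [h4] at h3
    simpa using h3
  · intro η s hs ⟨x, hx⟩
    obtain ⟨m, m', hmm', rfl⟩ := Finset.card_eq_two.1 hs
    refine h2 η.length m m' hmm' ⟨x, ?_, ?_⟩
    · simpa using hx m (by simp)
    · simpa using hx m' (by simp)

/-- Every model of a generic theory is rich. -/
theorem rich_of_generic (T : CTheory) (hT : IsGeneric T) (M : Type) [T.L.Structure M] [Nonempty M]
    (hM : M ⊨ T.T) : Rich T.L M := by
  obtain ⟨M₀, _, _, hM₀, hec⟩ := hT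
  refine (rich_of_isEC hec).of_models ?_
  intro φ hφ
  have e1 := T.complete.realize_sentence_iff φ M
  have e2 := T.complete.realize_sentence_iff φ M₀
  exact e1.2 (e2.1 hφ)

/-- Generic theories lie below all theories with `TP₂`. -/
theorem generic_le (T S : CTheory) (hT : IsGeneric T) (hS : HasTP2 S) : KLe T S := by
  intro I _ D hD M₁ M₂ _ _ _ _ hM₁ hM₂ hsat
  exact saturated_of_goodEq (rich_of_generic T hT M₁ hM₁) T.countable D hD
    (goodEq_of_tp2 hS D hD M₂ hM₂ hsat)

end

end Pool.Agent.Lib.MP_9a7643_lc
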