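import Pool.Agent.Lib.MP_9a7643_lc.IncBase

/-! rows AT0, AT1: one index -/

open FirstOrder Filter Cardinal

namespace Pool.Agent.Lib.MP_9a7643_lc

section
variable {m n : ℕ} {A B : Type} [Linc.Structure A] [Linc.Structure B]

/-- row AT0. A new point is on less than `n` old lines. -/
theorem not_lines (hm : 1 ≤ m) (hA : Full m n A) (hB : IsInc m n B) (j : A ↪[Linc] B) (y : B)
    (hy : y ∉ Set.range j) (l : Fin n → A) (hl : Function.Injective l) :
    ¬ ∀ i, Inc y (j (l i)) := by
  intro h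
  obtain ⟨m, rfl⟩ : ∃ m', m = m' + 1 := ⟨m - 1, by omega⟩
  have hnp : ∀ i, ¬ Pt (l i) := fun i hi => (hB.1 _ _ (h i)).2 ((emb_pt j (l i)).2 hi)
  obtain ⟨p, hp, hpl⟩ := hA.2.2 l hl hnp
  have hp' : Function.Injective (fun i : Fin m => j (p i)) := j.injective.comp hp
  refine hB.2 (Fin.cons y (fun i : Fin m => j (p i))) (fun i => j (l i)) ?_
    (j.injective.comp hl) ?_
  · rw [Fin.cons_injective_iff]
    refine ⟨?_, hp'⟩
    rintro ⟨i, hi⟩
    exact hy ⟨p i, hi⟩
  · intro i k
    refine Fin.cases ?_ (fun i => ?_) i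
    · exact h k
    · exact (emb_inc j _ _).2 (hpl i k)

/-- row AT0. A new line contains less than `m` old points. -/
theorem not_points (hn : 1 ≤ n) (hA : Full m n A) (hB : IsInc m n B) (j : A ↪[Linc] B) (y : B)
    (hy : y ∉ Set.range j) (p : Fin m → A) (hp : Function.Injective p) :
    ¬ ∀ i, Inc (j (p i)) y := by
  intro h
  obtain ⟨n, rfl⟩ : ∃ n', n = n' + 1 := ⟨n - 1, by omega⟩
  have hnp : ∀ i, Pt (p i) := fun i => (emb_pt j (p i)).1 (hB.1 _ _ (h i)).1
  obtain ⟨l, hl, hpl⟩ := hA.2.1 p hp hnp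
  have hl' : Function.Injective (fun i : Fin n => j (l i)) := j.injective.comp hl
  refine hB.2 (fun i => j (p i)) (Fin.cons y (fun i : Fin n => j (l i)))
    (j.injective.comp hp) ?_ ?_
  · rw [Fin.cons_injective_iff]
    refine ⟨?_, hl'⟩
    rintro ⟨i, hi⟩
    exact hy ⟨l i, hi⟩
  · intro k i
    refine Fin.cases ?_ (fun i => ?_) i
    · exact h k
    · exact (emb_inc j _ _).2 (hpl k i)

/-- row AT0 -/
theorem finite_lines (hm : 1 ≤ m) (hA : Full m n A) (hB : IsInc m n B) (j : A ↪[Linc] B) (y : B)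
    (hy : y ∉ Set.range j) : {k : A | Inc y (j k)}.Finite := by
  by_contra hinf
  have hinf' : {k : A | Inc y (j k)}.Infinite := hinf
  have e := hinf'.natEmbedding
  refine not_lines hm hA hB j y hy (fun i : Fin n => (e i.1).1) ?_ ?_
  · intro a b hab
    exact Fin.ext (e.injective (Subtype.ext hab))
  · intro i
    exact (e i.1).2

/-- row AT0 -/
theorem finite_points (hn : 1 ≤ n) (hA : Full m n A) (hB : IsInc m n B) (j : A ↪[Linc] B) (y : B)
    (hy : y ∉ Set.range j) : {x : A | Inc (j x) y}.Finite := by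
  by_contra hinf
  have hinf' : {x : A | Inc (j x) y}.Infinite := hinf
  have e := hinf'.natEmbedding
  refine not_points hn hA hB j y hy (fun i : Fin m => (e i.1).1) ?_ ?_
  · intro a b hab
    exact Fin.ext (e.injective (Subtype.ext hab))
  · intro i
    exact (e i.1).2

end

end Pool.Agent.Lib.MP_9a7643_lc
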