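import Pool.Agent.Lib.MP_9a7643_lc.IncAt

/-! row AT1: one index -/

open FirstOrder Filter Cardinal

namespace Pool.Agent.Lib.MP_9a7643_lc

section
variable {m n : ℕ} {A B : Type} [Linc.Structure A] [Linc.Structure B]

/-- the pattern of row AT1 -/
def incat1Pat {M : Type} [Linc.Structure M] (j : A ↪[Linc] B) (r : A → M) (F : Set (B × B))
    (p : A → Prop) (q : B → Prop) : Pat {a : A // p a} {b : B // q b} where
  pt := fun u => match u with
    | Sum.inl x => Pt (r x.1)
    | Sum.inr x => Pt x.1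
  inc := fun u v => match u, v with
    | Sum.inl x, Sum.inl y => Inc (r x.1) (r y.1)
    | Sum.inl x, Sum.inr y => Inc (j x.1) y.1 ∧ (j x.1, y.1) ∈ F
    | Sum.inr x, Sum.inl y => Inc x.1 (j y.1) ∧ (x.1, j y.1) ∈ F
    | Sum.inr x, Sum.inr y => Inc x.1 y.1 ∧ (x.1, y.1) ∈ F

/-- row AT1. One index: finitely many pairs are respected. -/
theorem inc_solve_at (hm : 1 ≤ m) (hn : 1 ≤ n) {M : Type} [Linc.Structure M] [Nonempty M]
    (hM : IncRich m n M) (hI : IsInc m n M) (hA : Full m n A) (hB : IsInc m n B)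
    (j : A ↪[Linc] B) (r : A → M) (F : Set (B × B)) (hF : F.Finite)
    (hr : ∀ a a' : A, a ≠ a' → (∃ e ∈ F, j a = e.1 ∨ j a = e.2) →
      (∃ e ∈ F, j a' = e.1 ∨ j a' = e.2) → r a ≠ r a')
    (hpt : ∀ a : A, (∃ e ∈ F, j a = e.1 ∨ j a = e.2) → (Pt (r a) ↔ Pt a))
    (hacc : ∀ y l : B, (y, l) ∈ F → y ∉ Set.range j → l ∉ Set.range j → Inc y l →
      ∀ x k : A, Inc (j x) l → Inc y (j k) → (Inc (r x) (r k) ↔ Inc x k)) :
    ∃ H : B → M, (∀ a, H (j a) = r a) ∧
      ∀ e ∈ F, (e.1 ∉ Set.range j ∨ e.2 ∉ Set.range j) →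
        (e.1 ≠ e.2 → H e.1 ≠ H e.2) ∧ (Pt (H e.1) ↔ Pt e.1) ∧ (Pt (H e.2) ↔ Pt e.2) ∧
          (Inc (H e.1) (H e.2) ↔ Inc e.1 e.2) := by
  classical
  have hj : Function.Injective j := j.injective
  let p : A → Prop := fun a => ∃ e ∈ F, j a = e.1 ∨ j a = e.2
  let q : B → Prop := fun b => b ∉ Set.range j ∧ ∃ e ∈ F, b = e.1 ∨ b = e.2
  have hJ : (Prod.fst '' F ∪ Prod.snd '' F).Finite := (hF.image _).union (hF.image _)
  have hα : Finite {a : A // p a} := by
    have h1 : (j ⁻¹' (Prod.fst '' F ∪ Prod.snd '' F)).Finite := hJ.preimage hj.injOn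
    refine (h1.subset (t := {a : A | p a}) ?_).to_subtype
    rintro a ⟨e, he, ha | ha⟩
    · exact Or.inl ⟨e, he, ha.symm⟩
    · exact Or.inr ⟨e, he, ha.symm⟩
  have hβ : Finite {b : B // q b} := by
    refine (hJ.subset (t := {b : B | q b}) ?_).to_subtype
    rintro a ⟨_, e, he, ha | ha⟩
    · exact Or.inl ⟨e, he, ha.symm⟩
    · exact Or.inr ⟨e, he, ha.symm⟩
  let σ : {a : A // p a} ⊕ {b : B // q b} → B := Sum.elim (fun a => j a.1) (fun b => b.1)
  have hσ : Function.Injective σ := by
    rintro (a | b) (a' | b') h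
    · exact congrArg Sum.inl (Subtype.ext (hj h))
    · exact absurd ⟨a.1, h⟩ b'.2.1
    · exact absurd ⟨a'.1, h.symm⟩ b.2.1
    · exact congrArg Sum.inr (Subtype.ext h)
  have hσr : ∀ b, (∃ e ∈ F, b = e.1 ∨ b = e.2) → ∃ c, σ c = b := by
    intro b hb
    by_cases hbj : b ∈ Set.range j
    · obtain ⟨a, rfl⟩ := hbj
      exact ⟨Sum.inl ⟨a, hb⟩, rfl⟩
    · exact ⟨Sum.inr ⟨b, hbj, hb⟩, rfl⟩
  let P : Pat {a : A // p a} {b : B // q b} := incat1Pat j r F p q
  have hPpt : ∀ c, P.pt c ↔ Pt (σ c) := by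
    rintro (a | b)
    · exact (hpt a.1 a.2).trans (emb_pt j a.1).symm
    · exact Iff.rfl
  have hrinj : Function.Injective (fun a : {a : A // p a} => r a.1) := by
    intro a a' h
    by_contra hne
    exact hr a.1 a'.1 (fun h => hne (Subtype.ext h)) a.2 a'.2 h
  have hPinc : ∀ c c', (¬ ∃ x y, c = Sum.inl x ∧ c' = Sum.inl y) → P.inc c c' →
      Inc (σ c) (σ c') ∧ (σ c, σ c') ∈ F := by
    rintro (a | b) (a' | b') h h'
    · exact absurd ⟨a, a', rfl, rfl⟩ h
    · exact h'
    · exact h'
    · exact h'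
  have hPinc' : ∀ c c', (¬ ∃ x y, c = Sum.inl x ∧ c' = Sum.inl y) → Inc (σ c) (σ c') →
      (σ c, σ c') ∈ F → P.inc c c' := by
    rintro (a | b) (a' | b') h h1 h2
    · exact absurd ⟨a, a', rfl, rfl⟩ h
    · exact ⟨h1, h2⟩
    · exact ⟨h1, h2⟩
    · exact ⟨h1, h2⟩
  have hnewPt : ∀ (y : {b : B // q b}) (l : Fin n → {a : A // p a}), Function.Injective l →
      ¬ ∀ j', P.inc (Sum.inr y) (Sum.inl (l j')) := by
    intro y l hl h
    refine not_lines hm hA hB j y.1 y.2.1 (fun i => (l i).1)
      (fun i i' hii => hl (Subtype.ext hii)) ?_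
    intro i
    exact (h i).1
  have hnewLn : ∀ (y : {b : B // q b}) (l : Fin m → {a : A // p a}), Function.Injective l →
      ¬ ∀ j', P.inc (Sum.inl (l j')) (Sum.inr y) := by
    intro y l hl h
    refine not_points hn hA hB j y.1 y.2.1 (fun i => (l i).1)
      (fun i i' hii => hl (Subtype.ext hii)) ?_
    intro i
    exact (h i).1
  have hGood : P.Good m n := by
    refine ⟨?_, ?_, hnewPt, hnewLn⟩
    · rintro (a | b) (a' | b') h
      · exact hI.1 _ _ h
      · have h1 := hB.1 _ _ h.1
        exact ⟨(hPpt (Sum.inl a)).2 h1.1, fun h2 => h1.2 ((hPpt (Sum.inr b')).1 h2)⟩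
      · have h1 := hB.1 _ _ h.1
        exact ⟨(hPpt (Sum.inr b)).2 h1.1, fun h2 => h1.2 ((hPpt (Sum.inl a')).1 h2)⟩
      · have h1 := hB.1 _ _ h.1
        exact ⟨(hPpt (Sum.inr b)).2 h1.1, fun h2 => h1.2 ((hPpt (Sum.inr b')).1 h2)⟩
    · intro u v hu hv h
      by_cases hu0 : ∀ i, ∃ x, u i = Sum.inl x
      · choose u' hu' using hu0
        have hu'i : Function.Injective u' := by
          intro i i' hii
          apply hu
          rw [hu', hu', hii]
        by_cases hv0 : ∀ i, ∃ x, v i = Sum.inl x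
        · choose v' hv' using hv0
          have hv'i : Function.Injective v' := by
            intro i i' hii
            apply hv
            rw [hv', hv', hii]
          refine hI.2 (fun i => r (u' i).1) (fun i => r (v' i).1) (hrinj.comp hu'i)
            (hrinj.comp hv'i) ?_
          intro i i'
          have h1 := h i i'
          rw [hu', hv'] at h1
          exact h1
        · push Not at hv0
          obtain ⟨i0, hi0⟩ := hv0
          rcases hc : v i0 with x | y
          · exact absurd hc (hi0 x)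
          · refine hnewLn y u' hu'i ?_
            intro i
            have h1 := h i i0
            rw [hu', hc] at h1
            exact h1
      · push Not at hu0
        obtain ⟨i0, hi0⟩ := hu0
        rcases hc : u i0 with x | y
        · exact absurd hc (hi0 x)
        · by_cases hv0 : ∀ i, ∃ x, v i = Sum.inl x
          · choose v' hv' using hv0
            have hv'i : Function.Injective v' := by
              intro i i' hii
              apply hv
              rw [hv', hv', hii]
            refine hnewPt y v' hv'i ?_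
            intro i
            have h1 := h i0 i
            rw [hv', hc] at h1
            exact h1
          · push Not at hv0
            obtain ⟨i1, hi1⟩ := hv0
            rcases hc1 : v i1 with x1 | y1
            · exact absurd hc1 (hi1 x1)
            · have h0 := h i0 i1
              rw [hc, hc1] at h0
              refine hB.2 (fun i => σ (u i)) (fun i => σ (v i)) (hσ.comp hu) (hσ.comp hv) ?_
              intro i i'
              by_cases hold : ∃ x z, u i = Sum.inl x ∧ v i' = Sum.inl z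
              · obtain ⟨x, z, hx, hz⟩ := hold
                have h1 := h i i1
                rw [hx, hc1] at h1
                have h2 := h i0 i'
                rw [hc, hz] at h2
                have h3 := h i i'
                rw [hx, hz] at h3
                have h4 := (hacc y.1 y1.1 h0.2 y.2.1 y1.2.1 h0.1 x.1 z.1 h1.1 h2.1).1 h3
                rw [hx, hz]
                exact (emb_inc j x.1 z.1).2 h4
              · exact (hPinc _ _ hold (h i i')).1
  obtain ⟨y, hy1, hy2, hy3⟩ := hM _ _ P hGood (fun a => r a.1)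
    ⟨hrinj, fun _ => Iff.rfl, fun _ _ => Iff.rfl⟩
  let z : {a : A // p a} ⊕ {b : B // q b} → M := Sum.elim (fun a => r a.1) y
  let H : B → M := fun b =>
    if h : ∃ a, j a = b then r h.choose
    else if h' : ∃ c, σ c = b then z h'.choose else Classical.arbitrary M
  have hHj : ∀ a, H (j a) = r a := by
    intro a
    have h : ∃ a', j a' = j a := ⟨a, rfl⟩
    have h' : h.choose = a := hj h.choose_spec
    simp only [H]
    rw [dif_pos h, h']
  have hHσ : ∀ c, H (σ c) = z c := by
    intro c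
    by_cases h : ∃ a, j a = σ c
    · rcases c with a | b
      · exact hHj a.1
      · exact absurd h b.2.1
    · have h' : ∃ c', σ c' = σ c := ⟨c, rfl⟩
      have h'' : h'.choose = c := hσ h'.choose_spec
      simp only [H]
      rw [dif_neg h, dif_pos h', h'']
  refine ⟨H, hHj, ?_⟩
  rintro ⟨e1, e2⟩ he hnew
  obtain ⟨c1, rfl⟩ := hσr e1 ⟨_, he, Or.inl rfl⟩
  obtain ⟨c2, rfl⟩ := hσr e2 ⟨_, he, Or.inr rfl⟩
  simp only [hHσ] at hnew ⊢
  refine ⟨?_, (hy2 c1).trans (hPpt c1), (hy2 c2).trans (hPpt c2), ?_⟩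
  · intro hne h
    exact hne (by rw [hy1 h])
  · have hnot : ¬ ∃ x y, c1 = Sum.inl x ∧ c2 = Sum.inl y := by
      rintro ⟨x, y, rfl, rfl⟩
      rcases hnew with h | h
      · exact h ⟨x.1, rfl⟩
      · exact h ⟨y.1, rfl⟩
    refine (hy3 c1 c2).trans ⟨fun h => (hPinc _ _ hnot h).1, fun h => hPinc' _ _ hnot h he⟩

end

end Pool.Agent.Lib.MP_9a7643_lc
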