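import Pool.Agent.Lib.MP_9a7643_lc.Defs

/-!
# Finite tables of facts; existentially closed structures realize them
-/

open FirstOrder Filter Cardinal

namespace Pool.Agent.Lib.MP_9a7643_lc

section
variable {L : FirstOrder.Language.{0, 0}}

/-- `v` has an entry in the new part `β`. -/
def NewT {α β : Type} {k : ℕ} (v : Fin k → α ⊕ β) : Prop := ∃ i b, v i = Sum.inr b

/-- A finite table of facts. -/
structure Tab (L : FirstOrder.Language.{0, 0}) (α β : Type) where
  /-- values of the functions -/
  fv : (s : Σ k, L.Functions k) → (Fin s.1 → α ⊕ β) → Option (α ⊕ β)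
  /-- truth values of the relations -/
  rv : (s : Σ k, L.Relations k) → (Fin s.1 → α ⊕ β) → Prop
  /-- the active function symbols -/
  SF : Finset (Σ k, L.Functions k)
  /-- the active relation symbols -/
  SR : Finset (Σ k, L.Relations k)

/-- The tuple `z` satisfies the table. -/
def Tab.Sat {α β : Type} (T : Tab L α β) {M : Type} [L.Structure M] (z : α ⊕ β → M) : Prop :=
  Function.Injective z ∧
  (∀ s ∈ T.SF, ∀ v, NewT v → ∀ c, T.fv s v = some c → Language.Structure.funMap s.2 (z ∘ v) = z c) ∧
  (∀ s ∈ T.SR, ∀ v, NewT v → (Language.Structure.RelMap s.2 (z ∘ v) ↔ T.rv s v))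

/-- All finite tables of facts over injective tuples are realized. -/
def Rich (L : FirstOrder.Language.{0, 0}) (M : Type) [L.Structure M] : Prop :=
  ∀ (α β : Type) [Finite α] [Finite β] (T : Tab L α β) (a : α → M), Function.Injective a →
    ∃ y : β → M, T.Sat (Sum.elim a y)

section form
variable {α β : Type} [Finite α] [Finite β] (T : Tab L α β)

/-- the formula of inequalities -/
noncomputable def neqForm (γ : Type) [Finite γ] : L.Formula γ :=
  Language.Formula.iInf (fun p : {p : γ × γ // p.1 ≠ p.2} =>
    Language.Formula.not ((Language.Term.var p.1.1 : L.Term γ).equal (Language.Term.var p.1.2)))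

theorem realize_neqForm {γ : Type} [Finite γ] {M : Type} [L.Structure M] (z : γ → M) :
    (neqForm (L := L) γ).Realize z ↔ Function.Injective z := by
  rw [neqForm, Language.Formula.realize_iInf]
  constructor
  · intro h x y hxy
    by_contra hne
    have := h ⟨(x, y), hne⟩
    rw [Language.Formula.realize_not, Language.Formula.realize_equal] at this
    exact this hxy
  · rintro h ⟨⟨x, y⟩, hne⟩
    rw [Language.Formula.realize_not, Language.Formula.realize_equal]
    exact fun h' => hne (h h')

/-- the function facts -/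
noncomputable def Tab.funForm : L.Formula (α ⊕ β) :=
  Language.Formula.iInf (fun p : {p : (Σ s : T.SF, (Fin s.1.1 → α ⊕ β)) × (α ⊕ β) //
      NewT p.1.2 ∧ T.fv p.1.1.1 p.1.2 = some p.2} =>
    (Language.Term.func (p.1.1.1 : Σ k, L.Functions k).2 (fun i => Language.Term.var (p.1.1.2 i))
      : L.Term (α ⊕ β)).equal (Language.Term.var p.1.2))

open Classical in
/-- the relation facts -/
noncomputable def Tab.relForm : L.Formula (α ⊕ β) :=
  Language.Formula.iInf (fun p : {p : (Σ s : T.SR, (Fin s.1.1 → α ⊕ β)) // NewT p.2} =>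
    if T.rv p.1.1 p.1.2 then
      Language.Relations.formula (p.1.1 : Σ k, L.Relations k).2
        (fun i => (Language.Term.var (p.1.2 i) : L.Term (α ⊕ β)))
    else Language.Formula.not (Language.Relations.formula (p.1.1 : Σ k, L.Relations k).2
        (fun i => (Language.Term.var (p.1.2 i) : L.Term (α ⊕ β)))))

/-- the table as a formula -/
noncomputable def Tab.form : L.Formula (α ⊕ β) :=
  neqForm (α ⊕ β) ⊓ (T.funForm ⊓ T.relForm)

theorem Tab.realize_form {M : Type} [L.Structure M] (z : α ⊕ β → M) :
    T.form.Realize z ↔ T.Sat z := by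
  rw [Tab.form, Language.Formula.realize_inf, Language.Formula.realize_inf, realize_neqForm,
    Tab.Sat, Tab.funForm, Tab.relForm, Language.Formula.realize_iInf,
    Language.Formula.realize_iInf]
  refine and_congr Iff.rfl (and_congr ?_ ?_)
  · constructor
    · intro h s hs v hv c hc
      have := h ⟨(⟨⟨s, hs⟩, v⟩, c), hv, hc⟩
      rw [Language.Formula.realize_equal] at this
      exact this
    · rintro h ⟨⟨⟨⟨s, hs⟩, v⟩, c⟩, hv, hc⟩
      rw [Language.Formula.realize_equal]
      exact h s hs v hv c hc
  · constructor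
    · intro h s hs v hv
      have := h ⟨⟨⟨s, hs⟩, v⟩, hv⟩
      by_cases hr : T.rv s v
      · simp only [hr, if_true] at this
        rw [Language.Formula.realize_rel] at this
        exact iff_of_true this hr
      · simp only [hr, if_false] at this
        rw [Language.Formula.realize_not, Language.Formula.realize_rel] at this
        exact iff_of_false this hr
    · rintro h ⟨⟨⟨s, hs⟩, v⟩, hv⟩
      have := h s hs v hv
      by_cases hr : T.rv s v
      · simp only [hr, if_true]
        rw [Language.Formula.realize_rel]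
        exact this.2 hr
      · simp only [hr, if_false]
        rw [Language.Formula.realize_not, Language.Formula.realize_rel]
        exact fun h' => hr (this.1 h')

theorem isQF_foldr {γ : Type} (l : List (L.Formula γ)) (h : ∀ φ ∈ l, φ.IsQF) :
    (l.foldr (· ⊓ ·) ⊤ : L.Formula γ).IsQF := by
  induction l with
  | nil => exact Language.BoundedFormula.IsQF.top
  | cons d l ih =>
    rw [List.foldr_cons]
    exact Language.BoundedFormula.IsQF.inf (h d (by simp)) (ih fun φ hφ => h φ (by simp [hφ]))

theorem isQF_iInf {γ δ : Type} [Finite δ] (f : δ → L.Formula γ) (h : ∀ d, (f d).IsQF) :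
    (Language.Formula.iInf f).IsQF := by
  unfold Language.Formula.iInf Language.BoundedFormula.iInf
  refine isQF_foldr _ ?_
  intro φ hφ
  rw [List.mem_map] at hφ
  obtain ⟨d, _, rfl⟩ := hφ
  exact h d

theorem isQF_equal {γ : Type} (s t : L.Term γ) : (s.equal t).IsQF :=
  (Language.BoundedFormula.IsAtomic.equal _ _).isQF

theorem isQF_rel {γ : Type} {k : ℕ} (R : L.Relations k) (t : Fin k → L.Term γ) :
    (R.formula t).IsQF :=
  (Language.BoundedFormula.IsAtomic.rel _ _).isQF

theorem Tab.isQF_form : T.form.IsQF := by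
  refine Language.BoundedFormula.IsQF.inf ?_ (Language.BoundedFormula.IsQF.inf ?_ ?_)
  · exact isQF_iInf _ (fun p => (isQF_equal _ _).not)
  · exact isQF_iInf _ (fun p => isQF_equal _ _)
  · refine isQF_iInf _ (fun p => ?_)
    split_ifs
    · exact isQF_rel _ _
    · exact (isQF_rel _ _).not

/-- the sentence saying that the table is realized over all injective tuples -/
noncomputable def Tab.sentence : L.Sentence :=
  Language.Formula.iAlls α
    (Language.Formula.imp ((neqForm (L := L) α).relabel (Sum.inr : α → Empty ⊕ α))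
      (Language.Formula.iExs β
        (T.form.relabel (Sum.map (Sum.inr : α → Empty ⊕ α) (id : β → β)))))

theorem Tab.realize_sentence {M : Type} [L.Structure M] :
    M ⊨ T.sentence ↔ ∀ a : α → M, Function.Injective a → ∃ y : β → M, T.Sat (Sum.elim a y) := by
  rw [Tab.sentence, Language.Sentence.Realize, Language.Formula.realize_iAlls]
  refine forall_congr' fun a => ?_
  rw [Language.Formula.realize_imp, Language.Formula.realize_relabel, realize_neqForm,
    Language.Formula.realize_iExs]
  refine imp_congr ?_ (exists_congr fun y => ?_)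
  · exact Iff.of_eq (congrArg _ (by funext i; rfl))
  · rw [Language.Formula.realize_relabel, Tab.realize_form]
    exact Iff.of_eq (congrArg _ (by funext i; rcases i with i | i <;> rfl))

end form

/-- `Rich` only depends on the theory. -/
theorem Rich.of_models {M N : Type} [L.Structure M] [L.Structure N]
    (h : Rich L M) (hMN : ∀ φ : L.Sentence, M ⊨ φ → N ⊨ φ) : Rich L N := by
  intro α β _ _ T
  exact T.realize_sentence.1 (hMN _ (T.realize_sentence.2 (h α β T)))

section ec
variable {M : Type} [L.Structure M] {α β : Type} (T : Tab L α β) (a : α → M)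

open Classical in
/-- the functions of the extension of `M` by `β` following the table -/
noncomputable def extFun [Nonempty M] {k : ℕ} (f : L.Functions k) (w : Fin k → M ⊕ β) : M ⊕ β :=
  if h : ∃ u : Fin k → M, w = Sum.inl ∘ u then Sum.inl (Language.Structure.funMap f h.choose)
  else if h' : ∃ v : Fin k → α ⊕ β, w = Sum.map a id ∘ v then
    match T.fv ⟨k, f⟩ h'.choose with
    | some c => Sum.map a id c
    | none => Sum.inl (Classical.arbitrary M)
  else Sum.inl (Classical.arbitrary M)

/-- the relations of the extension of `M` by `β` following the table -/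
def extRel {k : ℕ} (R : L.Relations k) (w : Fin k → M ⊕ β) : Prop :=
  (∃ u : Fin k → M, w = Sum.inl ∘ u ∧ Language.Structure.RelMap R u) ∨
    ((¬ ∃ u : Fin k → M, w = Sum.inl ∘ u) ∧
      ∃ v : Fin k → α ⊕ β, w = Sum.map a id ∘ v ∧ T.rv ⟨k, R⟩ v)

/-- The extension of `M` by `β` following the table. -/
@[reducible]
noncomputable def extStr [Nonempty M] : L.Structure (M ⊕ β) where
  funMap := extFun T a
  RelMap := extRel T a

theorem extFun_inl [Nonempty M] {k : ℕ} (f : L.Functions k) (u : Fin k → M) :
    extFun T a f (Sum.inl ∘ u) = Sum.inl (Language.Structure.funMap f u) := by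
  have h : ∃ u' : Fin k → M, (Sum.inl ∘ u : Fin k → M ⊕ β) = Sum.inl ∘ u' := ⟨u, rfl⟩
  have h' : h.choose = u := (Sum.inl_injective.comp_left h.choose_spec).symm
  rw [extFun, dif_pos h, h']

theorem extRel_inl {k : ℕ} (R : L.Relations k) (u : Fin k → M) :
    extRel T a R (Sum.inl ∘ u) ↔ Language.Structure.RelMap R u := by
  constructor
  · rintro (⟨u', h1, h2⟩ | ⟨h1, _⟩)
    · rw [Sum.inl_injective.comp_left h1]
      exact h2
    · exact absurd ⟨u, rfl⟩ h1
  · intro h
    exact Or.inl ⟨u, rfl, h⟩

variable {a}

theorem not_old {k : ℕ} {v : Fin k → α ⊕ β} (hv : NewT v) :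
    ¬ ∃ u : Fin k → M, (Sum.map a id ∘ v : Fin k → M ⊕ β) = Sum.inl ∘ u := by
  rintro ⟨u, hu⟩
  obtain ⟨i, b, hi⟩ := hv
  have := congrFun hu i
  simp [hi] at this

theorem extFun_new [Nonempty M] (ha : Function.Injective a) {k : ℕ} (f : L.Functions k)
    {v : Fin k → α ⊕ β} (hv : NewT v) {c : α ⊕ β} (hc : T.fv ⟨k, f⟩ v = some c) :
    extFun T a f (Sum.map a id ∘ v) = Sum.map a id c := by
  have h : ¬ ∃ u : Fin k → M, (Sum.map a id ∘ v : Fin k → M ⊕ β) = Sum.inl ∘ u := not_old hv
  have h' : ∃ v' : Fin k → α ⊕ β, (Sum.map a id ∘ v : Fin k → M ⊕ β) = Sum.map a id ∘ v' := ⟨v, rfl⟩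
  have hinj : Function.Injective (Sum.map a id : α ⊕ β → M ⊕ β) :=
    Sum.map_injective.2 ⟨ha, Function.injective_id⟩
  have h'' : h'.choose = v := (hinj.comp_left h'.choose_spec).symm
  rw [extFun, dif_neg h, dif_pos h', h'', hc]

theorem extRel_new (ha : Function.Injective a) {k : ℕ} (R : L.Relations k)
    {v : Fin k → α ⊕ β} (hv : NewT v) :
    extRel T a R (Sum.map a id ∘ v) ↔ T.rv ⟨k, R⟩ v := by
  have h : ¬ ∃ u : Fin k → M, (Sum.map a id ∘ v : Fin k → M ⊕ β) = Sum.inl ∘ u := not_old hv
  have hinj : Function.Injective (Sum.map a id : α ⊕ β → M ⊕ β) :=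
    Sum.map_injective.2 ⟨ha, Function.injective_id⟩
  constructor
  · rintro (⟨u, h1, h2⟩ | ⟨_, v', h1, h2⟩)
    · exact absurd ⟨u, h1⟩ h
    · rw [hinj.comp_left h1]
      exact h2
  · intro h2
    exact Or.inr ⟨h, v, rfl, h2⟩

end ec

/-- Existentially closed structures are rich. -/
theorem rich_of_isEC {M : Type} [L.Structure M] [Nonempty M] (h : IsEC L M) : Rich L M := by
  intro α β _ _ T a ha
  obtain ⟨m, ⟨e⟩⟩ := Finite.exists_equiv_fin β
  let _ : L.Structure (M ⊕ β) := extStr T a
  let emb : M ↪[L] (M ⊕ β) :=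
    { toFun := Sum.inl
      inj' := Sum.inl_injective
      map_fun' := fun f x => (extFun_inl T a f x).symm
      map_rel' := fun R x => extRel_inl T a R x }
  have hinj : Function.Injective (Sum.map a id : α ⊕ β → M ⊕ β) :=
    Sum.map_injective.2 ⟨ha, Function.injective_id⟩
  have hsat : T.Sat (Sum.map a id : α ⊕ β → M ⊕ β) :=
    ⟨hinj, fun s _ v hv c hc => extFun_new T ha s.2 hv hc,
      fun s _ v hv => extRel_new T ha s.2 hv⟩
  obtain ⟨y, hy⟩ := h m (T.form.relabel (Sum.map a e)) (T.isQF_form.relabel _) (M ⊕ β) emb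
    ⟨fun i => Sum.inr (e.symm i), by
      rw [Language.Formula.realize_relabel, Tab.realize_form]
      convert hsat using 1
      funext i
      rcases i with i | i
      · rfl
      · simp⟩
  refine ⟨fun i => y (e i), ?_⟩
  rw [Language.Formula.realize_relabel, Tab.realize_form] at hy
  convert hy using 1
  funext i
  rcases i with i | i <;> rfl

end

end Pool.Agent.Lib.MP_9a7643_lc
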