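import Pool.Agent.Lib.MP_9a7643_lc.IncDefs
import Pool.Agent.Lib.MP_9a7643_lc.Bin2
import Pool.Agent.Lib.MP_9a7643_lc.Rich
import Pool.Agent.Lib.MP_9a7643_lc.Generic

/-!
# Generic incidence structures: patterns, formulas, sentences
-/

open FirstOrder Filter Cardinal

namespace Pool.Agent.Lib.MP_9a7643_lc

/-- `m` different points have `n - 1` common lines, `n` different lines have `m - 1` common
points. -/
def Full (m n : ℕ) (A : Type) [Linc.Structure A] : Prop :=
  IsInc m n A ∧
  (∀ p : Fin m → A, Function.Injective p → (∀ i, Pt (p i)) →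
    ∃ l : Fin (n - 1) → A, Function.Injective l ∧ ∀ i j, Inc (p i) (l j)) ∧
  (∀ l : Fin n → A, Function.Injective l → (∀ j, ¬ Pt (l j)) →
    ∃ p : Fin (m - 1) → A, Function.Injective p ∧ ∀ i j, Inc (p i) (l j))

/-- A pattern: a structure on `α ⊕ β` (`α` old, `β` new elements). -/
structure Pat (α β : Type) where
  /-- the points -/
  pt : α ⊕ β → Prop
  /-- the incidences -/
  inc : α ⊕ β → α ⊕ β → Prop

/-- the old part of the pattern is realized by `a` -/
def Pat.Old {α β : Type} (P : Pat α β) {M : Type} [Linc.Structure M] (a : α → M) : Prop :=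
  Function.Injective a ∧ (∀ x, Pt (a x) ↔ P.pt (Sum.inl x)) ∧
    ∀ x y, Inc (a x) (a y) ↔ P.inc (Sum.inl x) (Sum.inl y)

/-- the pattern is realized by `z` -/
def Pat.Real {α β : Type} (P : Pat α β) {M : Type} [Linc.Structure M] (z : α ⊕ β → M) : Prop :=
  Function.Injective z ∧ (∀ x, Pt (z x) ↔ P.pt x) ∧ ∀ x y, Inc (z x) (z y) ↔ P.inc x y

/-- a pattern without `K_{m,n}` in which a new point is on less than `n` old lines and a new line
contains less than `m` old points -/
structure Pat.Good {α β : Type} (m n : ℕ) (P : Pat α β) : Prop where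
  typed : ∀ x y, P.inc x y → P.pt x ∧ ¬ P.pt y
  free : ∀ (p : Fin m → α ⊕ β) (l : Fin n → α ⊕ β), Function.Injective p → Function.Injective l →
    ¬ ∀ i j, P.inc (p i) (l j)
  newPt : ∀ (y : β) (l : Fin n → α), Function.Injective l →
    ¬ ∀ j, P.inc (Sum.inr y) (Sum.inl (l j))
  newLn : ∀ (y : β) (p : Fin m → α), Function.Injective p →
    ¬ ∀ i, P.inc (Sum.inl (p i)) (Sum.inr y)

/-- good patterns are realized over every realization of the old part -/
def IncRich (m n : ℕ) (M : Type) [Linc.Structure M] : Prop :=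
  ∀ (α β : Type) [Finite α] [Finite β] (P : Pat α β), P.Good m n → ∀ a : α → M, P.Old a →
    ∃ y : β → M, P.Real (Sum.elim a y)

/-- structures on a type -/
@[reducible]
def mkStr {A : Type} (pt : A → Prop) (inc : A → A → Prop) : Linc.Structure A where
  funMap := fun f _ => (f : Empty).elim
  RelMap := fun {_} R => match R with
    | IncRel.pt => fun v => pt (v 0)
    | IncRel.inc => fun v => inc (v 0) (v 1)

theorem mkStr_pt {A : Type} (pt : A → Prop) (inc : A → A → Prop) (x : A) :
    (let _ := mkStr pt inc; Pt x) ↔ pt x := Iff.rfl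

theorem mkStr_inc {A : Type} (pt : A → Prop) (inc : A → A → Prop) (x y : A) :
    (let _ := mkStr pt inc; Inc x y) ↔ inc x y := Iff.rfl

/-- relation symbols: `Pt` and `Inc` determine everything -/
theorem relMap_iff {A B : Type} [Linc.Structure A] [Linc.Structure B] (h : A → B)
    (h1 : ∀ x, Pt (h x) ↔ Pt x) (h2 : ∀ x y, Inc (h x) (h y) ↔ Inc x y) {k : ℕ}
    (R : Linc.Relations k) (v : Fin k → A) :
    Language.Structure.RelMap R (h ∘ v) ↔ Language.Structure.RelMap R v := by
  cases R with
  | pt =>
    have e : v = ![v 0] := by funext i; fin_cases i; rfl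
    have e' : h ∘ v = ![h (v 0)] := by funext i; fin_cases i; rfl
    rw [e', e]
    exact h1 (v 0)
  | inc =>
    have e : v = ![v 0, v 1] := by funext i; fin_cases i <;> rfl
    have e' : h ∘ v = ![h (v 0), h (v 1)] := by funext i; fin_cases i <;> rfl
    rw [e', e]
    exact h2 (v 0) (v 1)

/-- embeddings -/
def mkEmb {A B : Type} [Linc.Structure A] [Linc.Structure B] (h : A → B)
    (h0 : Function.Injective h)
    (h1 : ∀ x, Pt (h x) ↔ Pt x) (h2 : ∀ x y, Inc (h x) (h y) ↔ Inc x y) : A ↪[Linc] B where
  toFun := h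
  inj' := h0
  map_fun' := fun f _ => (f : Empty).elim
  map_rel' := fun R v => relMap_iff h h1 h2 R v

theorem emb_pt {A B : Type} [Linc.Structure A] [Linc.Structure B] (j : A ↪[Linc] B) (x : A) :
    Pt (j x) ↔ Pt x := by
  have := j.map_rel ptR ![x]
  unfold Pt
  rw [← this]
  exact Iff.of_eq (congrArg _ (by funext i; fin_cases i; rfl))

theorem emb_inc {A B : Type} [Linc.Structure A] [Linc.Structure B] (j : A ↪[Linc] B) (x y : A) :
    Inc (j x) (j y) ↔ Inc x y := by
  have := j.map_rel incR ![x, y]
  unfold Inc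
  rw [← this]
  exact Iff.of_eq (congrArg _ (by funext i; fin_cases i <;> rfl))

/-- the formula `Pt x` -/
def ptF {γ : Type} (x : γ) : Linc.Formula γ := Language.Relations.formula ptR ![Language.Term.var x]

/-- the formula `Inc x y` -/
def incF {γ : Type} (x y : γ) : Linc.Formula γ :=
  Language.Relations.formula incR ![Language.Term.var x, Language.Term.var y]

theorem realize_ptF {γ : Type} (x : γ) {M : Type} [Linc.Structure M] (v : γ → M) :
    (ptF x).Realize v ↔ Pt (v x) := by
  rw [ptF, Language.Formula.realize_rel]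
  exact Iff.of_eq (congrArg _ (by funext i; fin_cases i; rfl))

theorem realize_incF {γ : Type} (x y : γ) {M : Type} [Linc.Structure M] (v : γ → M) :
    (incF x y).Realize v ↔ Inc (v x) (v y) := by
  rw [incF, Language.Formula.realize_rel]
  exact Iff.of_eq (congrArg _ (by funext i; fin_cases i <;> rfl))

theorem isQF_lit {L : FirstOrder.Language.{0, 0}} {γ : Type} (b : Prop) (φ : L.Formula γ)
    (h : φ.IsQF) : (lit b φ).IsQF := by
  unfold lit
  split_ifs
  · exact h
  · exact h.not

/-- the diagram of a finite structure -/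
noncomputable def diagF {γ : Type} [Finite γ] (pt : γ → Prop) (inc : γ → γ → Prop) :
    Linc.Formula γ :=
  neqForm γ ⊓ (Language.Formula.iInf (fun x : γ => lit (pt x) (ptF x)) ⊓
    Language.Formula.iInf (fun x : γ × γ => lit (inc x.1 x.2) (incF x.1 x.2)))

theorem realize_diagF {γ : Type} [Finite γ] (pt : γ → Prop) (inc : γ → γ → Prop) {M : Type}
    [Linc.Structure M] (z : γ → M) : (diagF pt inc).Realize z ↔
      Function.Injective z ∧ (∀ x, Pt (z x) ↔ pt x) ∧ ∀ x y, Inc (z x) (z y) ↔ inc x y := by
  rw [diagF, Language.Formula.realize_inf, Language.Formula.realize_inf, realize_neqForm,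
    Language.Formula.realize_iInf, Language.Formula.realize_iInf]
  refine and_congr Iff.rfl (and_congr ?_ ?_)
  · refine forall_congr' fun x => ?_
    rw [realize_lit, realize_ptF]
  · constructor
    · intro h x y
      have := h (x, y)
      rwa [realize_lit, realize_incF] at this
    · rintro h ⟨x, y⟩
      rw [realize_lit, realize_incF]
      exact h x y

theorem isQF_diagF {γ : Type} [Finite γ] (pt : γ → Prop) (inc : γ → γ → Prop) :
    (diagF pt inc).IsQF := by
  refine Language.BoundedFormula.IsQF.inf ?_ (Language.BoundedFormula.IsQF.inf ?_ ?_)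
  · exact isQF_iInf _ (fun p => (isQF_equal _ _).not)
  · exact isQF_iInf _ (fun p => isQF_lit _ _ (isQF_rel _ _))
  · exact isQF_iInf _ (fun p => isQF_lit _ _ (isQF_rel _ _))

section ae
variable {L : FirstOrder.Language.{0, 0}} {α β : Type} [Finite α] [Finite β]

/-- the sentence `∀ x (χ(x) → ∃ y ψ(x, y))` -/
noncomputable def AE (χ : L.Formula α) (ψ : L.Formula (α ⊕ β)) : L.Sentence :=
  Language.Formula.iAlls α
    (Language.Formula.imp (χ.relabel (Sum.inr : α → Empty ⊕ α))
      (Language.Formula.iExs β
        (ψ.relabel (Sum.map (Sum.inr : α → Empty ⊕ α) (id : β → β)))))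

theorem realize_AE (χ : L.Formula α) (ψ : L.Formula (α ⊕ β)) {M : Type} [L.Structure M] :
    M ⊨ AE χ ψ ↔ ∀ a : α → M, χ.Realize a → ∃ y : β → M, ψ.Realize (Sum.elim a y) := by
  rw [AE, Language.Sentence.Realize, Language.Formula.realize_iAlls]
  refine forall_congr' fun a => ?_
  rw [Language.Formula.realize_imp, Language.Formula.realize_relabel,
    Language.Formula.realize_iExs]
  refine imp_congr ?_ (exists_congr fun y => ?_)
  · exact Iff.of_eq (congrArg _ (by funext i; rfl))
  · rw [Language.Formula.realize_relabel]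
    exact Iff.of_eq (congrArg _ (by funext i; rcases i with i | i <;> rfl))

end ae

/-- the incidences of the amalgam of `M` and the pattern -/
def amInc {α β : Type} (P : Pat α β) {M : Type} [Linc.Structure M] (a : α → M)
    (u v : M ⊕ β) : Prop :=
  (∃ x y : M, u = Sum.inl x ∧ v = Sum.inl y ∧ Inc x y) ∨
    ((∃ b, u = Sum.inr b ∨ v = Sum.inr b) ∧
      ∃ x y : α ⊕ β, u = Sum.map a id x ∧ v = Sum.map a id y ∧ P.inc x y)

/-- the points of the amalgam -/
def amPt {α β : Type} (P : Pat α β) {M : Type} [Linc.Structure M] (u : M ⊕ β) : Prop :=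
  Sum.elim (fun x => Pt x) (fun b => P.pt (Sum.inr b)) u

/-- the amalgam of `M` and the pattern -/
@[reducible]
def amStr {α β : Type} (P : Pat α β) {M : Type} [Linc.Structure M] (a : α → M) :
    Linc.Structure (M ⊕ β) := mkStr (amPt P) (amInc P a)

/-- the theory of a structure -/
noncomputable def incTheory (M : Type) [Linc.Structure M] [Nonempty M] : CTheory where
  L := Linc
  countable := countable_Linc
  T := Linc.completeTheory M
  complete := Language.completeTheory.isComplete Linc M

end Pool.Agent.Lib.MP_9a7643_lc
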