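import Pool.Agent.Lib.MP_9a7643_lc.Defs

/-!
# Generic incidence structures without `K_{m,n}`: definitions
-/

open FirstOrder Filter Cardinal

namespace Pool.Agent.Lib.MP_9a7643_lc

/-- the relation symbols: `pt x` says that `x` is a point (otherwise it is a line), `inc x y` says
that the point `x` lies on the line `y` -/
inductive IncRel : ℕ → Type
  | pt : IncRel 1
  | inc : IncRel 2

/-- the language of incidence structures -/
def Linc : FirstOrder.Language.{0, 0} := ⟨fun _ => Empty, IncRel⟩

/-- the symbol for points -/
def ptR : Linc.Relations 1 := IncRel.pt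

/-- the symbol for incidence -/
def incR : Linc.Relations 2 := IncRel.inc

/-- `x` is a point -/
def Pt {A : Type} [Linc.Structure A] (x : A) : Prop := Language.Structure.RelMap ptR ![x]

/-- `x` lies on `y` -/
def Inc {A : Type} [Linc.Structure A] (x y : A) : Prop := Language.Structure.RelMap incR ![x, y]

/-- `A` is an incidence structure without `K_{m,n}`: only points lie on only lines, and there are no
`m` different points all lying on `n` different lines. -/
def IsInc (m n : ℕ) (A : Type) [Linc.Structure A] : Prop :=
  (∀ x y : A, Inc x y → Pt x ∧ ¬ Pt y) ∧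
  ∀ (p : Fin m → A) (l : Fin n → A), Function.Injective p → Function.Injective l →
    ¬ ∀ i j, Inc (p i) (l j)

/-- `M` is existentially closed in the class of incidence structures without `K_{m,n}`. -/
def IsECInc (m n : ℕ) (M : Type) [Linc.Structure M] : Prop :=
  IsInc m n M ∧ ∀ (k : ℕ) (φ : Linc.Formula (M ⊕ Fin k)), φ.IsQF →
    ∀ (M' : Type) [Linc.Structure M'], IsInc m n M' → ∀ (e : M ↪[Linc] M'),
      (∃ y : Fin k → M', φ.Realize (Sum.elim e y)) → ∃ y : Fin k → M, φ.Realize (Sum.elim id y)

theorem countable_Linc : Countable Linc.Symbols := by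
  have h1 : Countable (Σ k, Linc.Functions k) := by
    refine (?_ : Function.Injective (fun x : (Σ k, Linc.Functions k) => x.1)).countable
    rintro ⟨k, f⟩
    exact (f : Empty).elim
  have h2 : Countable (Σ k, Linc.Relations k) := by
    refine (?_ : Function.Injective (fun x : (Σ k, Linc.Relations k) => x.1)).countable
    rintro ⟨k, R⟩ ⟨k', R'⟩ h
    simp only at h
    subst h
    cases R <;> cases R' <;> rfl
  change Countable ((Σ k, Linc.Functions k) ⊕ (Σ k, Linc.Relations k))
  infer_instance

end Pool.Agent.Lib.MP_9a7643_lc
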