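import Pool.Agent.Lib.MP_9a7643_lc.IncBase

/-! rows EC1, EC2, EC3: existentially closed incidence structures -/

open FirstOrder Filter Cardinal

namespace Pool.Agent.Lib.MP_9a7643_lc

private theorem ec1_old {α β : Type} (P : Pat α β) {M : Type} [Linc.Structure M] (a : α → M)
    (x y : M) : amInc P a (Sum.inl x) (Sum.inl y) ↔ Inc x y := by
  constructor
  · rintro (⟨x', y', hx, hy, h⟩ | ⟨⟨b, hb | hb⟩, _⟩)
    · rw [Sum.inl_injective hx, Sum.inl_injective hy]
      exact h
    · exact absurd hb Sum.inl_ne_inr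
    · exact absurd hb Sum.inl_ne_inr
  · intro h
    exact Or.inl ⟨x, y, rfl, rfl, h⟩

private theorem ec1_inc {α β : Type} (P : Pat α β) {M : Type} [Linc.Structure M] (a : α → M)
    (ha : P.Old a) (x y : α ⊕ β) :
    amInc P a (Sum.map a id x) (Sum.map a id y) ↔ P.inc x y := by
  have hinj : Function.Injective (Sum.map a id : α ⊕ β → M ⊕ β) :=
    Sum.map_injective.2 ⟨ha.1, Function.injective_id⟩
  constructor
  · rintro (⟨x', y', hx, hy, h⟩ | ⟨_, x', y', hx, hy, h⟩)
    · rcases x with x | x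
      · rcases y with y | y
        · rw [Sum.map_inl] at hx hy
          rw [← Sum.inl_injective hx, ← Sum.inl_injective hy] at h
          exact (ha.2.2 x y).1 h
        · rw [Sum.map_inr] at hy
          exact absurd hy Sum.inr_ne_inl
      · rw [Sum.map_inr] at hx
        exact absurd hx Sum.inr_ne_inl
    · rw [hinj hx, hinj hy]
      exact h
  · intro h
    rcases x with x | x
    · rcases y with y | y
      · exact Or.inl ⟨a x, a y, rfl, rfl, (ha.2.2 x y).2 h⟩
      · exact Or.inr ⟨⟨y, Or.inr rfl⟩, _, _, rfl, rfl, h⟩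
    · exact Or.inr ⟨⟨x, Or.inl rfl⟩, _, _, rfl, rfl, h⟩

/-- row EC1. A pattern whose amalgam with `M` is again in the class is realized in `M`. -/
theorem ec_solve {m n : ℕ} {M : Type} [Linc.Structure M] (h : IsECInc m n M) {α β : Type}
    [Finite α] [Finite β] (P : Pat α β) (a : α → M) (ha : P.Old a)
    (hA : let _ := amStr P a; IsInc m n (M ⊕ β)) : ∃ y : β → M, P.Real (Sum.elim a y) := by
  obtain ⟨k, ⟨e⟩⟩ := Finite.exists_equiv_fin β
  let _ : Linc.Structure (M ⊕ β) := amStr P a
  have hinj : Function.Injective (Sum.map a id : α ⊕ β → M ⊕ β) :=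
    Sum.map_injective.2 ⟨ha.1, Function.injective_id⟩
  let emb : M ↪[Linc] (M ⊕ β) := mkEmb (A := M) (B := M ⊕ β) Sum.inl Sum.inl_injective
    (fun x => Iff.rfl) (fun x y => ec1_old P a x y)
  have hreal : Function.Injective (Sum.map a id : α ⊕ β → M ⊕ β) ∧
      (∀ x, Pt ((Sum.map a id : α ⊕ β → M ⊕ β) x) ↔ P.pt x) ∧
      ∀ x y, Inc ((Sum.map a id : α ⊕ β → M ⊕ β) x) (Sum.map a id y) ↔ P.inc x y := by
    refine ⟨hinj, fun x => ?_, fun x y => ec1_inc P a ha x y⟩
    rcases x with x | x
    · exact ha.2.1 x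
    · exact Iff.rfl
  obtain ⟨y, hy⟩ := h.2 k ((diagF P.pt P.inc).relabel (Sum.map a e))
    ((isQF_diagF P.pt P.inc).relabel _) (M ⊕ β) hA emb
    ⟨fun i => Sum.inr (e.symm i), by
      rw [Language.Formula.realize_relabel, realize_diagF]
      have h1 : (Sum.elim (⇑emb) (fun i => Sum.inr (e.symm i)) ∘ Sum.map a e : α ⊕ β → M ⊕ β) =
          Sum.map a id := by
        funext i
        rcases i with i | i
        · rfl
        · simp
      rw [h1]
      exact hreal⟩
  refine ⟨fun i => y (e i), ?_⟩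
  rw [Language.Formula.realize_relabel, realize_diagF] at hy
  have h2 : (Sum.elim id y ∘ Sum.map a e : α ⊕ β → M) = Sum.elim a (fun i => y (e i)) := by
    funext i
    rcases i with i | i <;> rfl
  rw [h2] at hy
  exact hy

end Pool.Agent.Lib.MP_9a7643_lc
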