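import Pool.Agent.Lib.MP_9a7643_lc.IncEC

/-! row EC2 -/

open FirstOrder Filter Cardinal

namespace Pool.Agent.Lib.MP_9a7643_lc

private theorem ec2_inj {α β M : Type} {a : α → M} (ha : Function.Injective a) :
    Function.Injective (Sum.map a id : α ⊕ β → M ⊕ β) :=
  Sum.map_injective.2 ⟨ha, Function.injective_id⟩

private theorem ec2_new {α β : Type} {P : Pat α β} {M : Type} [Linc.Structure M] {a : α → M}
    {u v : M ⊕ β} (h : amInc P a u v) (hn : ∃ b, u = Sum.inr b ∨ v = Sum.inr b) :
    ∃ x y : α ⊕ β, u = Sum.map a id x ∧ v = Sum.map a id y ∧ P.inc x y := by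
  rcases h with ⟨x, y, rfl, rfl, _⟩ | ⟨_, h⟩
  · obtain ⟨b, hb | hb⟩ := hn <;> cases hb
  · exact h

private theorem ec2_old {α β : Type} {P : Pat α β} {M : Type} [Linc.Structure M] {a : α → M}
    {x y : M} (h : amInc P a (Sum.inl x) (Sum.inl y)) : Inc x y := by
  rcases h with ⟨x', y', h1, h2, h3⟩ | ⟨⟨b, hb | hb⟩, _⟩
  · rw [Sum.inl.inj h1, Sum.inl.inj h2]
    exact h3
  · cases hb
  · cases hb

private theorem ec2_map {α β : Type} {P : Pat α β} {M : Type} [Linc.Structure M] {a : α → M}
    (ha : P.Old a) {x y : α ⊕ β} (h : amInc P a (Sum.map a id x) (Sum.map a id y)) :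
    P.inc x y := by
  have hn : ∀ {x' y' : α ⊕ β}, Sum.map a id x = Sum.map a id x' →
      Sum.map a id y = Sum.map a id y' → P.inc x' y' → P.inc x y := by
    intro x' y' h1 h2 h3
    rw [ec2_inj ha.1 h1, ec2_inj ha.1 h2]
    exact h3
  rcases x with x | x
  · rcases y with y | y
    · exact (ha.2.2 x y).1 (ec2_old h)
    · obtain ⟨x', y', h1, h2, h3⟩ := ec2_new h ⟨y, Or.inr rfl⟩
      exact hn h1 h2 h3
  · obtain ⟨x', y', h1, h2, h3⟩ := ec2_new h ⟨x, Or.inl rfl⟩
    exact hn h1 h2 h3

private theorem ec2_inl {α β M : Type} {a : α → M} {x : M} {y : α ⊕ β}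
    (h : (Sum.inl x : M ⊕ β) = Sum.map a id y) : ∃ c, y = Sum.inl c ∧ a c = x := by
  rcases y with y | y
  · exact ⟨y, rfl, (Sum.inl.inj h).symm⟩
  · cases h

private theorem ec2_inr {α β M : Type} {a : α → M} {b : β} {y : α ⊕ β}
    (h : (Sum.inr b : M ⊕ β) = Sum.map a id y) : y = Sum.inr b := by
  rcases y with y | y
  · cases h
  · exact congrArg Sum.inr (Sum.inr.inj h).symm

private theorem ec2_pt {α β : Type} {P : Pat α β} {M : Type} [Linc.Structure M] {a : α → M}
    (ha : P.Old a) (x : α ⊕ β) : amPt P (Sum.map a id x) ↔ P.pt x := by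
  rcases x with x | x
  · exact ha.2.1 x
  · exact Iff.rfl

private theorem ec2_main {m n : ℕ} {M : Type} [Linc.Structure M] (h : IsInc m n M) {α β : Type}
    (P : Pat α β) (hP : P.Good m n) (a : α → M) (ha : P.Old a) :
    (∀ x y : M ⊕ β, amInc P a x y → amPt P x ∧ ¬ amPt P y) ∧
      ∀ (p : Fin m → M ⊕ β) (l : Fin n → M ⊕ β), Function.Injective p → Function.Injective l →
        ¬ ∀ i j, amInc P a (p i) (l j) := by
  refine ⟨?_, ?_⟩
  · rintro x y (⟨x', y', rfl, rfl, h1⟩ | ⟨_, x', y', rfl, rfl, h1⟩)
    · exact h.1 x' y' h1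
    · rw [ec2_pt ha, ec2_pt ha]
      exact hP.typed x' y' h1
  · intro p l hp hl hall
    by_cases hpn : ∃ i0 b0, p i0 = Sum.inr b0
    · obtain ⟨i0, b0, hb0⟩ := hpn
      by_cases hln : ∃ j0 d0, l j0 = Sum.inr d0
      · obtain ⟨j0, d0, hd0⟩ := hln
        have h1 : ∀ i, ∃ x, p i = Sum.map a id x := fun i => by
          have := hall i j0
          obtain ⟨x, y, h1, _, _⟩ := ec2_new this ⟨d0, Or.inr hd0⟩
          exact ⟨x, h1⟩
        have h2 : ∀ j, ∃ x, l j = Sum.map a id x := fun j => by
          have := hall i0 j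
          obtain ⟨x, y, _, h1, _⟩ := ec2_new this ⟨b0, Or.inl hb0⟩
          exact ⟨y, h1⟩
        choose p' hp' using h1
        choose l' hl' using h2
        refine hP.free p' l' ?_ ?_ ?_
        · intro i i' hii
          apply hp
          rw [hp', hp', hii]
        · intro i i' hii
          apply hl
          rw [hl', hl', hii]
        · intro i j
          have := hall i j
          rw [hp', hl'] at this
          exact ec2_map ha this
      · have h1 : ∀ j, ∃ c, l j = Sum.inl (a c) ∧ P.inc (Sum.inr b0) (Sum.inl c) := by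
          intro j
          have h2 := hall i0 j
          obtain ⟨x, y, h3, h4, h5⟩ := ec2_new h2 ⟨b0, Or.inl hb0⟩
          rw [hb0] at h3
          have h6 := ec2_inr h3
          rcases hlj : l j with c | d
          · rw [hlj] at h4
            obtain ⟨c', h7, h8⟩ := ec2_inl h4
            refine ⟨c', by rw [h8], ?_⟩
            rw [← h6, ← h7]
            exact h5
          · exact absurd ⟨j, d, hlj⟩ hln
        choose c hc1 hc2 using h1
        refine hP.newPt b0 c ?_ hc2
        intro i i' hii
        apply hl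
        rw [hc1, hc1, hii]
    · by_cases hln : ∃ j0 d0, l j0 = Sum.inr d0
      · obtain ⟨j0, d0, hd0⟩ := hln
        have h1 : ∀ i, ∃ c, p i = Sum.inl (a c) ∧ P.inc (Sum.inl c) (Sum.inr d0) := by
          intro i
          have h2 := hall i j0
          obtain ⟨x, y, h3, h4, h5⟩ := ec2_new h2 ⟨d0, Or.inr hd0⟩
          rw [hd0] at h4
          have h6 := ec2_inr h4
          rcases hpi : p i with c | d
          · rw [hpi] at h3
            obtain ⟨c', h7, h8⟩ := ec2_inl h3
            refine ⟨c', by rw [h8], ?_⟩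
            rw [← h6, ← h7]
            exact h5
          · exact absurd ⟨i, d, hpi⟩ hpn
        choose c hc1 hc2 using h1
        refine hP.newLn d0 c ?_ hc2
        intro i i' hii
        apply hp
        rw [hc1, hc1, hii]
      · have h1 : ∀ i, ∃ c, p i = Sum.inl c := by
          intro i
          rcases hpi : p i with c | d
          · exact ⟨c, rfl⟩
          · exact absurd ⟨i, d, hpi⟩ hpn
        have h2 : ∀ j, ∃ c, l j = Sum.inl c := by
          intro j
          rcases hlj : l j with c | d
          · exact ⟨c, rfl⟩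
          · exact absurd ⟨j, d, hlj⟩ hln
        choose p' hp' using h1
        choose l' hl' using h2
        refine h.2 p' l' ?_ ?_ ?_
        · intro i i' hii
          apply hp
          rw [hp', hp', hii]
        · intro i i' hii
          apply hl
          rw [hl', hl', hii]
        · intro i j
          have := hall i j
          rw [hp', hl'] at this
          exact ec2_old this

/-- row EC2 -/
theorem rich_of_ec {m n : ℕ} {M : Type} [Linc.Structure M] (h : IsECInc m n M) :
    IncRich m n M := by
  intro α β _ _ P hP a ha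
  exact ec_solve h P a ha (ec2_main h.1 P hP a ha)

end Pool.Agent.Lib.MP_9a7643_lc
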