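import Pool.Agent.Lib.MP_9a7643_lc.IncEC

/-! row EC3 -/

open FirstOrder Filter Cardinal

namespace Pool.Agent.Lib.MP_9a7643_lc

/-- the pattern with one new line on `m` points -/
def ec3PatL {M : Type} [Linc.Structure M] {m c : ℕ} (a : Fin m ⊕ Fin c → M) :
    Pat (Fin m ⊕ Fin c) Unit where
  pt := fun x => match x with
    | Sum.inl (Sum.inl _) => True
    | _ => False
  inc := fun x y => match x, y with
    | Sum.inl x, Sum.inl y => Inc (a x) (a y)
    | Sum.inl (Sum.inl _), Sum.inr _ => True
    | _, _ => False

/-- the pattern with one new point on `n` lines -/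
def ec3PatP {M : Type} [Linc.Structure M] {n c : ℕ} (a : Fin n ⊕ Fin c → M) :
    Pat (Fin n ⊕ Fin c) Unit where
  pt := fun x => match x with
    | Sum.inl (Sum.inl _) => False
    | _ => True
  inc := fun x y => match x, y with
    | Sum.inl x, Sum.inl y => Inc (a x) (a y)
    | Sum.inr _, Sum.inl (Sum.inl _) => True
    | _, _ => False

theorem ec3_amL {M : Type} [Linc.Structure M] {m c : ℕ} (p : Fin m → M) (q : Fin c → M)
    (u v : M ⊕ Unit) (h : amInc (ec3PatL (Sum.elim p q)) (Sum.elim p q) u v) :
    (∃ x y, u = Sum.inl x ∧ v = Sum.inl y ∧ Inc x y) ∨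
      ∃ i, u = Sum.inl (p i) ∧ v = Sum.inr () := by
  rcases h with h | ⟨⟨b, hb⟩, x, y, hu, hv, hi⟩
  · exact Or.inl h
  · rcases x with (x | x) | x <;> rcases y with (y | y) | y <;> simp_all [ec3PatL]

theorem ec3_amP {M : Type} [Linc.Structure M] {n c : ℕ} (l : Fin n → M) (q : Fin c → M)
    (u v : M ⊕ Unit) (h : amInc (ec3PatP (Sum.elim l q)) (Sum.elim l q) u v) :
    (∃ x y, u = Sum.inl x ∧ v = Sum.inl y ∧ Inc x y) ∨
      ∃ j, u = Sum.inr () ∧ v = Sum.inl (l j) := by
  rcases h with h | ⟨⟨b, hb⟩, x, y, hu, hv, hi⟩
  · exact Or.inl h
  · rcases x with (x | x) | x <;> rcases y with (y | y) | y <;> simp_all [ec3PatP]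

/-- a counting step -/
theorem ec3_count {M : Type} {n c : ℕ} (q : Fin c → M) (L : Fin n → M ⊕ Unit)
    (hL : Function.Injective L) (j0 : Fin n) (hj0 : L j0 = Sum.inr ())
    (H : ∀ j x, L j = Sum.inl x → x ∈ Set.range q) : n ≤ c + 1 := by
  classical
  have hne : ∀ j : Fin n, ∃ i : Option (Fin c), L j = (i.elim (Sum.inr ()) (fun i => Sum.inl (q i))) := by
    intro j
    rcases hj : L j with x | x
    · obtain ⟨i, hi⟩ := H j x hj
      exact ⟨some i, by simp [hi]⟩
    · exact ⟨none, by simp⟩
  choose f hf using hne
  have hinj : Function.Injective f := by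
    intro j j' hjj
    apply hL
    rw [hf j, hf j', hjj]
  have := Fintype.card_le_of_injective f hinj
  simpa using this

theorem ec3_F1 {m n : ℕ} (hm : 1 ≤ m) (hn : 1 ≤ n) {M : Type} [Linc.Structure M]
    (h : IsECInc m n M) (p : Fin m → M) (hp : Function.Injective p) (hpt : ∀ i, Pt (p i))
    (c : ℕ) : c ≤ n - 1 → ∃ l : Fin c → M, Function.Injective l ∧ ∀ i j, Inc (p i) (l j) := by
  induction c with
  | zero => exact fun _ => ⟨Fin.elim0, fun x => x.elim0, fun _ j => j.elim0⟩
  | succ c ih =>
    intro hc
    obtain ⟨q, hq, hpq⟩ := ih (by omega)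
    have key : ∃ y, (∀ i, Inc (p i) y) ∧ y ∉ Set.range q := by
      by_contra hcon
      push Not at hcon
      have hqn : ∀ j, ¬ Pt (q j) := fun j => (h.1.1 _ _ (hpq ⟨0, hm⟩ j)).2
      have hold : (ec3PatL (Sum.elim p q)).Old (Sum.elim p q) := by
        refine ⟨?_, ?_, ?_⟩
        · refine Function.Injective.sumElim hp hq ?_
          intro i j hij
          exact hqn j (hij ▸ hpt i)
        · rintro (x | x)
          · simpa [ec3PatL] using hpt x
          · simpa [ec3PatL] using hqn x
        · intro x y
          rfl
      have hA : let _ := amStr (ec3PatL (Sum.elim p q)) (Sum.elim p q); IsInc m n (M ⊕ Unit) := by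
        intro _inst
        refine ⟨?_, ?_⟩
        · intro u v huv
          rcases ec3_amL p q u v huv with ⟨x, y, rfl, rfl, hxy⟩ | ⟨i, rfl, rfl⟩
          · exact h.1.1 x y hxy
          · refine ⟨hpt i, ?_⟩
            intro hh
            exact hh
        · intro P L hP hL hPL
          have hPL' : ∀ i j, (∃ x y, P i = Sum.inl x ∧ L j = Sum.inl y ∧ Inc x y) ∨
              ∃ i', P i = Sum.inl (p i') ∧ L j = Sum.inr () :=
            fun i j => ec3_amL p q _ _ (hPL i j)
          have hPi : ∀ i, ∃ x, P i = Sum.inl x := by
            intro i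
            rcases hPL' i ⟨0, hn⟩ with ⟨x, y, h1, _⟩ | ⟨i', h1, _⟩
            · exact ⟨x, h1⟩
            · exact ⟨_, h1⟩
          choose P' hP' using hPi
          have hP'i : Function.Injective P' := by
            intro i j hij
            exact hP (by rw [hP', hP', hij])
          by_cases hall : ∃ j, L j = Sum.inr ()
          · obtain ⟨j0, hj0⟩ := hall
            have hs : ∀ i, ∃ i', P' i = p i' := by
              intro i
              rcases hPL' i j0 with ⟨x, y, _, h2, _⟩ | ⟨i', h1, _⟩
              · rw [hj0] at h2
                exact absurd h2 (by simp)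
              · rw [hP'] at h1
                exact ⟨i', Sum.inl_injective h1⟩
            choose s hs using hs
            have hsinj : Function.Injective s := by
              intro i j hij
              exact hP'i (by rw [hs, hs, hij])
            have hssurj : Function.Surjective s := Finite.surjective_of_injective hsinj
            have := ec3_count q L hL j0 hj0 (by
              intro j x hj
              apply hcon x
              intro i
              obtain ⟨i', rfl⟩ := hssurj i
              rcases hPL' i' j with ⟨x', y, h1, h2, h3⟩ | ⟨_, _, h2⟩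
              · rw [hj] at h2
                rw [hP', hs] at h1
                rw [Sum.inl_injective h2, Sum.inl_injective h1]
                exact h3
              · rw [hj] at h2
                exact absurd h2 (by simp))
            omega
          · have hLj : ∀ j, ∃ x, L j = Sum.inl x := by
              intro j
              rcases hj : L j with x | x
              · exact ⟨x, rfl⟩
              · exact absurd ⟨j, hj⟩ hall
            choose L' hL' using hLj
            refine h.1.2 P' L' hP'i ?_ ?_
            · intro i j hij
              exact hL (by rw [hL', hL', hij])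
            · intro i j
              rcases hPL' i j with ⟨x, y, h1, h2, h3⟩ | ⟨_, _, h2⟩
              · rw [hP'] at h1
                rw [hL'] at h2
                rw [Sum.inl_injective h2, Sum.inl_injective h1]
                exact h3
              · rw [hL'] at h2
                exact absurd h2 (by simp)
      obtain ⟨y, hy1, hy2, hy3⟩ := ec_solve h (ec3PatL (Sum.elim p q)) (Sum.elim p q) hold hA
      obtain ⟨j, hj⟩ := hcon (y ()) (fun i => (hy3 (Sum.inl (Sum.inl i)) (Sum.inr ())).2 trivial)
      have := hy1 (a₁ := Sum.inl (Sum.inr j)) (a₂ := Sum.inr ()) (by simpa using hj)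
      exact absurd this (by simp)
    obtain ⟨y, hy1, hy2⟩ := key
    refine ⟨Fin.snoc q y, ?_, ?_⟩
    · rw [Fin.snoc_injective_iff]
      exact ⟨hq, hy2⟩
    · intro i j
      refine Fin.lastCases ?_ (fun j => ?_) j
      · rw [Fin.snoc_last]
        exact hy1 i
      · rw [Fin.snoc_castSucc]
        exact hpq i j

theorem ec3_F2 {m n : ℕ} (hm : 1 ≤ m) (hn : 1 ≤ n) {M : Type} [Linc.Structure M]
    (h : IsECInc m n M) (l : Fin n → M) (hl : Function.Injective l) (hln : ∀ j, ¬ Pt (l j))
    (c : ℕ) : c ≤ m - 1 → ∃ p : Fin c → M, Function.Injective p ∧ ∀ i j, Inc (p i) (l j) := by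
  induction c with
  | zero => exact fun _ => ⟨Fin.elim0, fun x => x.elim0, fun i => i.elim0⟩
  | succ c ih =>
    intro hc
    obtain ⟨q, hq, hpq⟩ := ih (by omega)
    have key : ∃ y, (∀ j, Inc y (l j)) ∧ y ∉ Set.range q := by
      by_contra hcon
      push Not at hcon
      have hqn : ∀ i, Pt (q i) := fun i => (h.1.1 _ _ (hpq i ⟨0, hn⟩)).1
      have hold : (ec3PatP (Sum.elim l q)).Old (Sum.elim l q) := by
        refine ⟨?_, ?_, ?_⟩
        · refine Function.Injective.sumElim hl hq ?_
          intro i j hij
          exact hln i (hij ▸ hqn j)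
        · rintro (x | x)
          · simpa [ec3PatP] using hln x
          · simpa [ec3PatP] using hqn x
        · intro x y
          rfl
      have hA : let _ := amStr (ec3PatP (Sum.elim l q)) (Sum.elim l q); IsInc m n (M ⊕ Unit) := by
        intro _inst
        refine ⟨?_, ?_⟩
        · intro u v huv
          rcases ec3_amP l q u v huv with ⟨x, y, rfl, rfl, hxy⟩ | ⟨i, rfl, rfl⟩
          · exact h.1.1 x y hxy
          · exact ⟨trivial, hln i⟩
        · intro P L hP hL hPL
          have hPL' : ∀ i j, (∃ x y, P i = Sum.inl x ∧ L j = Sum.inl y ∧ Inc x y) ∨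
              ∃ j', P i = Sum.inr () ∧ L j = Sum.inl (l j') :=
            fun i j => ec3_amP l q _ _ (hPL i j)
          have hLi : ∀ j, ∃ x, L j = Sum.inl x := by
            intro j
            rcases hPL' ⟨0, hm⟩ j with ⟨x, y, _, h1, _⟩ | ⟨i', _, h1⟩
            · exact ⟨y, h1⟩
            · exact ⟨_, h1⟩
          choose L' hL' using hLi
          have hL'i : Function.Injective L' := by
            intro i j hij
            exact hL (by rw [hL', hL', hij])
          by_cases hall : ∃ i, P i = Sum.inr ()
          · obtain ⟨i0, hi0⟩ := hall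
            have hs : ∀ j, ∃ j', L' j = l j' := by
              intro j
              rcases hPL' i0 j with ⟨x, y, h2, _, _⟩ | ⟨j', _, h1⟩
              · rw [hi0] at h2
                exact absurd h2 (by simp)
              · rw [hL'] at h1
                exact ⟨j', Sum.inl_injective h1⟩
            choose s hs using hs
            have hsinj : Function.Injective s := by
              intro i j hij
              exact hL'i (by rw [hs, hs, hij])
            have hssurj : Function.Surjective s := Finite.surjective_of_injective hsinj
            have := ec3_count q P hP i0 hi0 (by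
              intro i x hi
              apply hcon x
              intro j
              obtain ⟨j', rfl⟩ := hssurj j
              rcases hPL' i j' with ⟨x', y, h1, h2, h3⟩ | ⟨_, h2, _⟩
              · rw [hi] at h1
                rw [hL', hs] at h2
                rw [Sum.inl_injective h2, Sum.inl_injective h1]
                exact h3
              · rw [hi] at h2
                exact absurd h2 (by simp))
            omega
          · have hPj : ∀ i, ∃ x, P i = Sum.inl x := by
              intro i
              rcases hi : P i with x | x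
              · exact ⟨x, rfl⟩
              · exact absurd ⟨i, hi⟩ hall
            choose P' hP' using hPj
            refine h.1.2 P' L' ?_ hL'i ?_
            · intro i j hij
              exact hP (by rw [hP', hP', hij])
            · intro i j
              rcases hPL' i j with ⟨x, y, h1, h2, h3⟩ | ⟨_, h2, _⟩
              · rw [hP'] at h1
                rw [hL'] at h2
                rw [Sum.inl_injective h2, Sum.inl_injective h1]
                exact h3
              · rw [hP'] at h2
                exact absurd h2 (by simp)
      obtain ⟨y, hy1, hy2, hy3⟩ := ec_solve h (ec3PatP (Sum.elim l q)) (Sum.elim l q) hold hA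
      obtain ⟨j, hj⟩ := hcon (y ()) (fun i => (hy3 (Sum.inr ()) (Sum.inl (Sum.inl i))).2 trivial)
      have := hy1 (a₁ := Sum.inl (Sum.inr j)) (a₂ := Sum.inr ()) (by simpa using hj)
      exact absurd this (by simp)
    obtain ⟨y, hy1, hy2⟩ := key
    refine ⟨Fin.snoc q y, ?_, ?_⟩
    · rw [Fin.snoc_injective_iff]
      exact ⟨hq, hy2⟩
    · intro i j
      refine Fin.lastCases ?_ (fun i => ?_) i
      · rw [Fin.snoc_last]
        exact hy1 j
      · rw [Fin.snoc_castSucc]
        exact hpq i j

/-- row EC3 -/
theorem full_of_ec {m n : ℕ} (hm : 1 ≤ m) (hn : 1 ≤ n) {M : Type} [Linc.Structure M]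
    (h : IsECInc m n M) : Full m n M :=
  ⟨h.1, fun p hp hpt => ec3_F1 hm hn h p hp hpt (n - 1) le_rfl,
    fun l hl hln => ec3_F2 hm hn h l hl hln (m - 1) le_rfl⟩

end Pool.Agent.Lib.MP_9a7643_lc
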