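import Pool.Agent.Lib.MP_9a7643_lc.IncAt1
import Pool.Agent.Lib.MP_9a7643_lc.ExtRich

/-! row EXT -/

open FirstOrder Filter Cardinal

namespace Pool.Agent.Lib.MP_9a7643_lc

private theorem ext_pow_pt {M : Type} [Linc.Structure M] {I : Type} (D : Ultrafilter I)
    (x : I → M) : Pt ((x : (D : Filter I).Product (fun _ => M))) ↔
      ∀ᶠ t in (D : Filter I), Pt (x t) := by
  have h := pow_rel (D := D) ptR (fun _ : Fin 1 => x)
  unfold Pt
  refine Iff.trans (Iff.of_eq (congrArg _ ?_)) (h.trans ?_)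
  · funext i; fin_cases i; rfl
  · refine Filter.eventually_congr (Filter.Eventually.of_forall fun t => ?_)
    exact Iff.of_eq (congrArg _ (by funext i; fin_cases i; rfl))

private theorem ext_pow_inc {M : Type} [Linc.Structure M] {I : Type} (D : Ultrafilter I)
    (x y : I → M) : Inc ((x : (D : Filter I).Product (fun _ => M)))
      ((y : (D : Filter I).Product (fun _ => M))) ↔
      ∀ᶠ t in (D : Filter I), Inc (x t) (y t) := by
  have h := pow_rel (D := D) incR (fun i : Fin 2 => (![x, y] : Fin 2 → I → M) i)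
  unfold Inc
  refine Iff.trans (Iff.of_eq (congrArg _ ?_)) (h.trans ?_)
  · funext i; fin_cases i <;> rfl
  · refine Filter.eventually_congr (Filter.Eventually.of_forall fun t => ?_)
    exact Iff.of_eq (congrArg _ (by funext i; fin_cases i <;> rfl))

private theorem ext_ev_iff {I : Type} (D : Ultrafilter I) (p : I → Prop) (q : Prop)
    (h : (∀ᶠ t in (D : Filter I), p t) ↔ q) : ∀ᶠ t in (D : Filter I), (p t ↔ q) := by
  by_cases hq : q
  · filter_upwards [h.2 hq] with t ht
    exact ⟨fun _ => hq, fun _ => ht⟩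
  · have h1 : ∀ᶠ t in (D : Filter I), ¬ p t := Ultrafilter.eventually_not.2 (fun h' => hq (h.1 h'))
    filter_upwards [h1] with t ht
    exact ⟨fun h' => absurd h' ht, fun h' => absurd h' hq⟩

theorem ext_inc {m n : ℕ} (hm : 1 ≤ m) (hn : 1 ≤ n) {M : Type} [Linc.Structure M] [Nonempty M]
    (hM : IncRich m n M) (hI : IsInc m n M) {I : Type} (D : Ultrafilter I) {κ : Cardinal.{0}}
    (hκ : ℵ₀ ≤ κ) (hreg : ∀ ι : Type, #ι ≤ κ → RegFor D ι)
    (hgood : ∀ ι : Type, #ι ≤ κ → GoodEq D ι) :
    Ext (L := Linc) (fun A _ => Full m n A) κ (Pow D M) := by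
  intro A B _ _ hFA hFB hB j g
  have hjinj : Function.Injective j := j.injective
  have hrep : ∀ a, ∃ r : I → M, (r : (D : Filter I).Product (fun _ => M)) = g a :=
    fun a => Quotient.exists_rep (g a)
  choose rep hrep using hrep
  obtain ⟨d, hd, hd'⟩ := hgood A ((Cardinal.mk_le_of_injective hjinj).trans hB) M rep (by
    intro a a' hne
    have h1 : ¬ ∀ᶠ t in (D : Filter I), rep a t = rep a' t := by
      rw [← pow_eq, hrep, hrep]
      exact fun h => hne (g.injective h)
    exact Ultrafilter.eventually_not.2 h1)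
  have hBB : #(B × B) ≤ κ := by
    rw [Cardinal.mk_prod, Cardinal.lift_id]
    exact (mul_le_mul' hB hB).trans (Cardinal.mul_eq_self hκ).le
  obtain ⟨E, hE, hE'⟩ := hreg (B × B) hBB
  have hptD : ∀ a, ∀ᶠ t in (D : Filter I), (Pt (rep a t) ↔ Pt a) := by
    intro a
    refine ext_ev_iff D _ _ ?_
    rw [← ext_pow_pt, hrep]
    exact emb_pt g a
  have hincD : ∀ a a', ∀ᶠ t in (D : Filter I), (Inc (rep a t) (rep a' t) ↔ Inc a a') := by
    intro a a'
    refine ext_ev_iff D _ _ ?_
    rw [← ext_pow_inc, hrep, hrep]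
    exact emb_inc g a a'
  let S : B × B → Set (A × A) := fun e => {p | e.1 ∉ Set.range j ∧ e.2 ∉ Set.range j ∧
    Inc (j p.1) e.2 ∧ Inc e.1 (j p.2)}
  have hS : ∀ e, (S e).Finite := by
    intro e
    by_cases h1 : e.1 ∉ Set.range j
    · by_cases h2 : e.2 ∉ Set.range j
      · refine ((finite_points hn hFA hFB.1 j e.2 h2).prod
          (finite_lines hm hFA hFB.1 j e.1 h1)).subset ?_
        rintro p ⟨_, _, h3, h4⟩
        exact ⟨h3, h4⟩
      · refine (Set.finite_empty).subset ?_
        rintro p ⟨_, h3, _⟩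
        exact absurd h3 h2
    · refine (Set.finite_empty).subset ?_
      rintro p ⟨h3, _⟩
      exact absurd h3 h1
  let act : B × B → Set I := fun e => (E e ∩ ⋂ a ∈ j ⁻¹' ({e.1, e.2} : Set B),
    (d a ∩ {t | Pt (rep a t) ↔ Pt a})) ∩ ⋂ p ∈ S e, {t | Inc (rep p.1 t) (rep p.2 t) ↔ Inc p.1 p.2}
  have hact : ∀ e, act e ∈ D := by
    intro e
    refine Filter.inter_mem (Filter.inter_mem (hE e) ?_) ?_
    · refine (Filter.biInter_mem (((Set.finite_singleton e.2).insert e.1).preimage
        hjinj.injOn)).2 ?_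
      intro a _
      exact Filter.inter_mem (hd a) (hptD a)
    · refine (Filter.biInter_mem (hS e)).2 ?_
      intro p _
      exact hincD p.1 p.2
  have hmem : ∀ (t : I) (e : B × B), t ∈ act e → ∀ a, (j a = e.1 ∨ j a = e.2) →
      t ∈ d a ∧ (Pt (rep a t) ↔ Pt a) := by
    intro t e he a ha
    exact Set.mem_iInter₂.1 he.1.2 a ha
  have hsol : ∀ t, ∃ H : B → M, (∀ a, H (j a) = rep a t) ∧ ∀ e : B × B, t ∈ act e →
      (e.1 ∉ Set.range j ∨ e.2 ∉ Set.range j) →
        (e.1 ≠ e.2 → H e.1 ≠ H e.2) ∧ (Pt (H e.1) ↔ Pt e.1) ∧ (Pt (H e.2) ↔ Pt e.2) ∧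
          (Inc (H e.1) (H e.2) ↔ Inc e.1 e.2) := by
    intro t
    refine inc_solve_at hm hn hM hI hFA hFB.1 j (fun a => rep a t) {e | t ∈ act e}
      ((hE' t).subset (fun e he => he.1.1)) ?_ ?_ ?_
    · rintro a a' hne ⟨e, he, ha⟩ ⟨e', he', ha'⟩
      exact hd' a a' hne t (hmem t e he a ha).1 (hmem t e' he' a' ha').1
    · rintro a ⟨e, he, ha⟩
      exact (hmem t e he a ha).2
    · intro y l hyl hy hl _ x k hx hk
      exact Set.mem_iInter₂.1 hyl.2 (x, k) ⟨hy, hl, hx, hk⟩
  choose H hH1 hH2 using hsol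
  have hcoe : ∀ a, ((fun t => H t (j a) : I → M) : (D : Filter I).Product (fun _ => M)) = g a := by
    intro a
    rw [← hrep a]
    congr 1
    funext t
    exact hH1 t a
  refine ⟨mkEmb (fun b => ((fun t => H t b : I → M) : (D : Filter I).Product (fun _ => M)))
    ?_ ?_ ?_, hcoe⟩
  · intro b b' h
    by_cases hb : b ∈ Set.range j ∧ b' ∈ Set.range j
    · obtain ⟨⟨a, rfl⟩, ⟨a', rfl⟩⟩ := hb
      have h' : g a = g a' := by
        rw [← hcoe a, ← hcoe a']
        exact h
      rw [g.injective h']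
    · by_contra hne
      have hb' : b ∉ Set.range j ∨ b' ∉ Set.range j := by
        by_contra hc
        push Not at hc
        exact hb hc
      have h1 := (pow_eq _ _).1 h
      have h2 : ∀ᶠ t in (D : Filter I), H t b ≠ H t b' := by
        filter_upwards [hact (b, b')] with t ht
        exact (hH2 t (b, b') ht hb').1 hne
      obtain ⟨t, ht1, ht2⟩ := (h1.and h2).exists
      exact ht2 ht1
  · intro b
    by_cases hb : b ∈ Set.range j
    · obtain ⟨a, rfl⟩ := hb
      rw [hcoe a, emb_pt g a, emb_pt j a]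
    · refine (ext_pow_pt D (fun t => H t b)).trans ?_
      have h1 : ∀ᶠ t in (D : Filter I), (Pt (H t b) ↔ Pt b) := by
        filter_upwards [hact (b, b)] with t ht
        exact (hH2 t (b, b) ht (Or.inl hb)).2.1
      rw [Filter.eventually_congr h1]
      simp
  · intro b b'
    by_cases hb : b ∈ Set.range j ∧ b' ∈ Set.range j
    · obtain ⟨⟨a, rfl⟩, ⟨a', rfl⟩⟩ := hb
      rw [hcoe a, hcoe a', emb_inc g a a', emb_inc j a a']
    · have hb' : b ∉ Set.range j ∨ b' ∉ Set.range j := by
        by_contra hc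
        push Not at hc
        exact hb hc
      refine (ext_pow_inc D (fun t => H t b) (fun t => H t b')).trans ?_
      have h1 : ∀ᶠ t in (D : Filter I), (Inc (H t b) (H t b') ↔ Inc b b') := by
        filter_upwards [hact (b, b')] with t ht
        exact (hH2 t (b, b') ht hb').2.2.2
      rw [Filter.eventually_congr h1]
      simp

end Pool.Agent.Lib.MP_9a7643_lc
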