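import Pool.Agent.Lib.MP_9a7643_lc.IncBase
import Pool.Agent.Lib.MP_9a7643_lc.BF

/-! row HULL -/

open FirstOrder Filter Cardinal

namespace Pool.Agent.Lib.MP_9a7643_lc

private theorem inchull_card {t k : ℕ} {κ : Cardinal.{0}} (hκ : ℵ₀ ≤ κ) {N : Type}
    (w : (Fin t → N) → Fin k → N) {S : Set N} (hS : #S ≤ κ) :
    #(Set.range (fun q : (Fin t → S) × Fin k => w (Subtype.val ∘ q.1) q.2)) ≤ κ := by
  refine mk_range_le.trans ?_
  rw [mk_prod, Cardinal.lift_id, Cardinal.lift_id, ← Cardinal.power_def, mk_fin, mk_fin]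
  refine (mul_le_mul' ((power_le_power_right hS).trans (power_nat_le hκ))
    ((Cardinal.natCast_lt_aleph0 (n := k)).le.trans hκ)).trans (mul_eq_self hκ).le

private def inchull_step {m n : ℕ} {N : Type} (w : (Fin m → N) → Fin (n - 1) → N)
    (w' : (Fin n → N) → Fin (m - 1) → N) (S : Set N) : Set N :=
  S ∪ (Set.range (fun q : (Fin m → S) × Fin (n - 1) => w (Subtype.val ∘ q.1) q.2) ∪
    Set.range (fun q : (Fin n → S) × Fin (m - 1) => w' (Subtype.val ∘ q.1) q.2))

private theorem inchull_step_card {m n : ℕ} {κ : Cardinal.{0}} (hκ : ℵ₀ ≤ κ) {N : Type}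
    (w : (Fin m → N) → Fin (n - 1) → N) (w' : (Fin n → N) → Fin (m - 1) → N) {S : Set N}
    (hS : #S ≤ κ) : #(inchull_step w w' S) ≤ κ := by
  refine (mk_union_le _ _).trans ((add_le_add hS ?_).trans (add_eq_self hκ).le)
  refine (mk_union_le _ _).trans ((add_le_add ?_ ?_).trans (add_eq_self hκ).le)
  · exact inchull_card hκ w hS
  · exact inchull_card hκ w' hS

theorem hull_full {m n : ℕ} {κ : Cardinal.{0}} (hκ : ℵ₀ ≤ κ) (N : Type) [Linc.Structure N]
    (hN : Full m n N) : Hull (L := Linc) (fun A _ => Full m n A) κ N := by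
  intro X hX
  have hw : ∀ p : Fin m → N, ∃ l : Fin (n - 1) → N, Function.Injective p → (∀ i, Pt (p i)) →
      Function.Injective l ∧ ∀ i j, Inc (p i) (l j) := by
    intro p
    by_cases hp : Function.Injective p ∧ ∀ i, Pt (p i)
    · obtain ⟨l, h1, h2⟩ := hN.2.1 p hp.1 hp.2
      exact ⟨l, fun _ _ => ⟨h1, h2⟩⟩
    · by_cases hk : Nonempty (Fin (n - 1) → N)
      · exact ⟨hk.some, fun h h' => absurd ⟨h, h'⟩ hp⟩
      · exfalso
        rcases isEmpty_or_nonempty N with he | hne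
        · apply hp
          exact ⟨fun i => (he.false (p i)).elim, fun i => (he.false (p i)).elim⟩
        · exact hk ⟨fun _ => hne.some⟩
  have hw' : ∀ l : Fin n → N, ∃ p : Fin (m - 1) → N, Function.Injective l → (∀ j, ¬ Pt (l j)) →
      Function.Injective p ∧ ∀ i j, Inc (p i) (l j) := by
    intro l
    by_cases hl : Function.Injective l ∧ ∀ j, ¬ Pt (l j)
    · obtain ⟨p, h1, h2⟩ := hN.2.2 l hl.1 hl.2
      exact ⟨p, fun _ _ => ⟨h1, h2⟩⟩
    · by_cases hk : Nonempty (Fin (m - 1) → N)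
      · exact ⟨hk.some, fun h h' => absurd ⟨h, h'⟩ hl⟩
      · exfalso
        rcases isEmpty_or_nonempty N with he | hne
        · apply hl
          exact ⟨fun i => (he.false (l i)).elim, fun i => (he.false (l i)).elim⟩
        · exact hk ⟨fun _ => hne.some⟩
  choose w hw using hw
  choose w' hw' using hw'
  let S : ℕ → Set N := fun r => (inchull_step w w')^[r] X
  have hS1 : ∀ r, S (r + 1) = inchull_step w w' (S r) := fun r => by
    simp only [S, Function.iterate_succ_apply']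
  have hcard : ∀ r, #(S r) ≤ κ := by
    intro r
    induction r with
    | zero => exact hX
    | succ r ih =>
      rw [hS1]
      exact inchull_step_card hκ w w' ih
  have hmono : Monotone S := monotone_nat_of_le_succ fun r => by
    rw [hS1]
    exact Set.subset_union_left
  let A : Linc.Substructure N :=
    { carrier := ⋃ r, S r
      fun_mem := fun f => (f : Empty).elim }
  have hAp : ∀ x : A, Pt x ↔ Pt (x : N) := fun x => (emb_pt A.subtype x).symm
  have hAi : ∀ x y : A, Inc x y ↔ Inc (x : N) (y : N) := fun x y => (emb_inc A.subtype x y).symm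
  have hbound : ∀ (r : ℕ) (v : Fin r → A), ∃ s, ∀ i, (v i : N) ∈ S s := by
    intro r v
    have h1 : ∀ i, ∃ s, (v i : N) ∈ S s := fun i => Set.mem_iUnion.1 (v i).2
    choose s hs using h1
    exact ⟨Finset.univ.sup s, fun i => hmono (Finset.le_sup (Finset.mem_univ i)) (hs i)⟩
  refine ⟨A, ?_, ⟨⟨?_, ?_⟩, ?_, ?_⟩, ?_⟩
  · intro x hx
    exact Set.mem_iUnion.2 ⟨0, hx⟩
  · intro x y hxy
    rw [hAp, hAp]
    exact hN.1.1 _ _ ((hAi x y).1 hxy)
  · intro p l hp hl hpl
    refine hN.1.2 (Subtype.val ∘ p) (Subtype.val ∘ l) (Subtype.val_injective.comp hp)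
      (Subtype.val_injective.comp hl) (fun i j => ?_)
    exact (hAi _ _).1 (hpl i j)
  · intro p hp hpt
    obtain ⟨s, hs⟩ := hbound m p
    obtain ⟨h2, h3⟩ := hw (Subtype.val ∘ p) (Subtype.val_injective.comp hp)
      (fun i => (hAp _).1 (hpt i))
    have h4 : ∀ j, w (Subtype.val ∘ p) j ∈ S (s + 1) := by
      intro j
      rw [hS1]
      exact Or.inr (Or.inl ⟨(fun i => ⟨(p i : N), hs i⟩, j), rfl⟩)
    refine ⟨fun j => ⟨w (Subtype.val ∘ p) j, Set.mem_iUnion.2 ⟨s + 1, h4 j⟩⟩, ?_, ?_⟩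
    · intro j j' h
      exact h2 (congrArg Subtype.val h)
    · intro i j
      rw [hAi]
      exact h3 i j
  · intro l hl hlt
    obtain ⟨s, hs⟩ := hbound n l
    obtain ⟨h2, h3⟩ := hw' (Subtype.val ∘ l) (Subtype.val_injective.comp hl)
      (fun i h => hlt i ((hAp _).2 h))
    have h4 : ∀ j, w' (Subtype.val ∘ l) j ∈ S (s + 1) := by
      intro j
      rw [hS1]
      exact Or.inr (Or.inr ⟨(fun i => ⟨(l i : N), hs i⟩, j), rfl⟩)
    refine ⟨fun j => ⟨w' (Subtype.val ∘ l) j, Set.mem_iUnion.2 ⟨s + 1, h4 j⟩⟩, ?_, ?_⟩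
    · intro j j' h
      exact h2 (congrArg Subtype.val h)
    · intro i j
      rw [hAi]
      exact h3 i j
  · refine (mk_iUnion_le (fun r => S r)).trans ?_
    rw [mk_nat]
    exact (mul_le_mul' hκ (ciSup_le' hcard)).trans (mul_eq_self hκ).le

end Pool.Agent.Lib.MP_9a7643_lc
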