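import Pool.Agent.Lib.MP_9a7643_lc.Aleph1
import Pool.Agent.Lib.MP_9a7643_lc.Generic

/-! row TP0: TP₂ from finite arrays -/

open FirstOrder Filter Cardinal

namespace Pool.Agent.Lib.MP_9a7643_lc

private theorem tp0_large (n : ℕ) : ∀ᶠ l in (Filter.hyperfilter ℕ : Filter ℕ), n < l := by
  refine Filter.mem_hyperfilter_of_finite_compl ?_
  refine (Set.finite_le_nat n).subset ?_
  intro m hm
  simp only [Set.mem_compl_iff, Set.mem_ofPred_eq, not_lt] at hm
  exact hm

/-- row TP0 -/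
theorem hasTP2_of_arrays (T : CTheory) (M : Type) [T.L.Structure M] [Nonempty M] (hM : M ⊨ T.T)
    {P Q : Type} [Finite P] [Finite Q] (φ : T.L.Formula (P ⊕ Q))
    (h : ∀ N : ℕ, ∃ z : Fin N → Fin N → Q → M,
      (∀ f : Fin N → Fin N, ∃ x : P → M, ∀ i, φ.Realize (Sum.elim x (z i (f i)))) ∧
      ∀ i j j' : Fin N, j ≠ j' → ¬ ∃ x : P → M,
        φ.Realize (Sum.elim x (z i j)) ∧ φ.Realize (Sum.elim x (z i j'))) : HasTP2 T := by
  classical
  choose z hz1 hz2 using h
  obtain ⟨p, ⟨ep⟩⟩ := Finite.exists_equiv_fin P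
  obtain ⟨q, ⟨eq⟩⟩ := Finite.exists_equiv_fin Q
  let U := Filter.hyperfilter ℕ
  have hN : Pow U M ⊨ T.T := by
    rw [Language.Theory.model_iff]
    intro φ hφ
    have := Language.Ultraproduct.sentence_realize (L := T.L) (M := fun _ : ℕ => M) (u := U) φ
    exact this.2 (Filter.Eventually.of_forall (fun _ => hM.realize_of_mem φ hφ))
  have hne : Nonempty (Pow U M) := Language.Ultraproduct.Product.instNonempty
  let ψ : T.L.Formula (Fin p ⊕ Fin q) := φ.relabel (Sum.map ep eq)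
  let a₀ : ℕ → ℕ → Q → ℕ → M := fun i j y N =>
    if h : i < N ∧ j < N then z N ⟨i, h.1⟩ ⟨j, h.2⟩ y else Classical.arbitrary M
  have ha₀ : ∀ i j y N (h1 : i < N) (h2 : j < N), a₀ i j y N = z N ⟨i, h1⟩ ⟨j, h2⟩ y := by
    intro i j y N h1 h2
    simp only [a₀, dif_pos (And.intro h1 h2)]
  let a : ℕ → ℕ → Fin q → Pow U M := fun i j y =>
    ((a₀ i j (eq.symm y) : ℕ → M) : (U : Filter ℕ).Product (fun _ => M))
  have key : ∀ (x₀ : P → ℕ → M) (i j : ℕ),
      (ψ.Realize (M := Pow U M) (Sum.elim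
        (fun l => ((x₀ (ep.symm l) : ℕ → M) : (U : Filter ℕ).Product (fun _ => M))) (a i j)) ↔
      ∀ᶠ N in (U : Filter ℕ), φ.Realize (Sum.elim (fun l => x₀ l N) (fun y => a₀ i j y N))) := by
    intro x₀ i j
    have h1 := los (D := U) φ (Sum.elim x₀ (a₀ i j))
    have h2 : ψ.Realize (M := Pow U M) (Sum.elim
        (fun l => ((x₀ (ep.symm l) : ℕ → M) : (U : Filter ℕ).Product (fun _ => M))) (a i j)) ↔
        φ.Realize (M := Pow U M) (fun v => (((Sum.elim x₀ (a₀ i j)) v : ℕ → M) :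
          (U : Filter ℕ).Product (fun _ => M))) := by
      simp only [ψ]
      rw [Language.Formula.realize_relabel]
      refine iff_of_eq (congrArg _ ?_)
      funext v
      rcases v with v | v
      · change ((x₀ (ep.symm (ep v)) : ℕ → M) : (U : Filter ℕ).Product (fun _ => M)) =
          ((x₀ v : ℕ → M) : (U : Filter ℕ).Product (fun _ => M))
        rw [Equiv.symm_apply_apply]
      · change ((a₀ i j (eq.symm (eq v)) : ℕ → M) : (U : Filter ℕ).Product (fun _ => M)) =
          ((a₀ i j v : ℕ → M) : (U : Filter ℕ).Product (fun _ => M))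
        rw [Equiv.symm_apply_apply]
    rw [h2, h1]
    refine Filter.eventually_congr (Filter.Eventually.of_forall fun N => ?_)
    refine iff_of_eq (congrArg _ ?_)
    funext v
    rcases v with v | v <;> rfl
  refine ⟨Pow U M, inferInstance, hne, hN, p, q, ψ, a, ?_, ?_⟩
  · intro f n
    have hx : ∀ N : ℕ, ∃ x : P → M, ∀ i (hi : i < N) (hfi : f i < N),
        φ.Realize (Sum.elim x (z N ⟨i, hi⟩ ⟨f i, hfi⟩)) := by
      intro N
      by_cases h0 : 0 < N
      · obtain ⟨x, hx⟩ := hz1 N (fun i => if h : f i < N then ⟨f i, h⟩ else ⟨0, h0⟩)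
        refine ⟨x, fun i hi hfi => ?_⟩
        have := hx ⟨i, hi⟩
        simp only [dif_pos hfi] at this
        exact this
      · exact ⟨fun _ => Classical.arbitrary M, fun i hi => absurd (lt_of_le_of_lt (Nat.zero_le i) hi) h0⟩
    choose x hx using hx
    refine ⟨fun l => (((fun N => x N (ep.symm l) : ℕ → M)) : (U : Filter ℕ).Product (fun _ => M)),
      fun i _ => ?_⟩
    refine (key (fun l N => x N l) i (f i)).2 ?_
    filter_upwards [tp0_large i, tp0_large (f i)] with N h1 h2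
    have h3 := hx N i h1 h2
    have h4 : (fun y => a₀ i (f i) y N) = z N ⟨i, h1⟩ ⟨f i, h2⟩ := by
      funext y
      exact ha₀ i (f i) y N h1 h2
    rw [h4]
    exact h3
  · rintro i j j' hjj' ⟨x, hx1, hx2⟩
    have hxr : ∀ l, ∃ r : ℕ → M, (r : (U : Filter ℕ).Product (fun _ => M)) = x l :=
      fun l => Quotient.exists_rep (x l)
    choose r hr using hxr
    have hxe : x = (fun l => (((fun l' => r (ep l')) (ep.symm l) : ℕ → M) :
        (U : Filter ℕ).Product (fun _ => M))) := by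
      funext l
      simp only [Equiv.apply_symm_apply]
      exact (hr l).symm
    rw [hxe] at hx1 hx2
    have h1 := (key (fun l' => r (ep l')) i j).1 hx1
    have h2 := (key (fun l' => r (ep l')) i j').1 hx2
    obtain ⟨N, ⟨h3, h4⟩, h5, h6, h7⟩ := ((h1.and h2).and ((tp0_large i).and
      ((tp0_large j).and (tp0_large j')))).exists
    have e1 : (fun y => a₀ i j y N) = z N ⟨i, h5⟩ ⟨j, h6⟩ := by
      funext y
      exact ha₀ i j y N h5 h6
    have e2 : (fun y => a₀ i j' y N) = z N ⟨i, h5⟩ ⟨j', h7⟩ := by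
      funext y
      exact ha₀ i j' y N h5 h7
    rw [e1] at h3
    rw [e2] at h4
    exact hz2 N ⟨i, h5⟩ ⟨j, h6⟩ ⟨j', h7⟩ (fun he => hjj' (by simpa using he)) ⟨_, h3, h4⟩

end Pool.Agent.Lib.MP_9a7643_lc
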