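import Pool.Agent.Lib.MP_9a7643_lc.IncW2
import Pool.Agent.Lib.MP_9a7643_lc.IncEC

/-! row W3 -/

open FirstOrder Filter Cardinal

namespace Pool.Agent.Lib.MP_9a7643_lc

/-- the pattern of the array structure -/
def w3Pat (m n N : ℕ) : Pat Empty (WE m n N) where
  pt := Sum.elim (fun e => e.elim) wPt
  inc := fun x y => ∃ b c, x = Sum.inr b ∧ y = Sum.inr c ∧ wInc b c

theorem w3_amInc {m n N : ℕ} {M : Type} [Linc.Structure M] (a : Empty → M)
    (u v : M ⊕ WE m n N) : amInc (w3Pat m n N) a u v ↔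
      (∃ x y : M, u = Sum.inl x ∧ v = Sum.inl y ∧ Inc x y) ∨
        ∃ b c, u = Sum.inr b ∧ v = Sum.inr c ∧ wInc b c := by
  unfold amInc
  constructor
  · rintro (h | ⟨-, x, y, rfl, rfl, b, c, rfl, rfl, hbc⟩)
    · exact Or.inl h
    · exact Or.inr ⟨b, c, rfl, rfl, hbc⟩
  · rintro (h | ⟨b, c, rfl, rfl, hbc⟩)
    · exact Or.inl h
    · exact Or.inr ⟨⟨b, Or.inl rfl⟩, Sum.inr b, Sum.inr c, rfl, rfl, b, c, rfl, rfl, hbc⟩

theorem w3_isInc {m n N : ℕ} (hm : 2 ≤ m) (hn : 2 ≤ n) {M : Type} [Linc.Structure M]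
    (h : IsInc m n M) (a : Empty → M) :
    let _ := amStr (w3Pat m n N) a; IsInc m n (M ⊕ WE m n N) := by
  obtain ⟨htyp, hfree⟩ := w_isInc (m := m) (n := n) (N := N) hm hn
  intro _
  have hI : ∀ u v : M ⊕ WE m n N, Inc u v ↔ (∃ x y : M, u = Sum.inl x ∧ v = Sum.inl y ∧ Inc x y) ∨
        ∃ b c, u = Sum.inr b ∧ v = Sum.inr c ∧ wInc b c := fun u v =>
    (mkStr_inc _ _ u v).trans (w3_amInc a u v)
  have hP : ∀ u : M ⊕ WE m n N, Pt u ↔ amPt (w3Pat m n N) u := fun u => mkStr_pt _ _ u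
  constructor
  · intro u v huv
    rw [hP, hP]
    rcases (hI u v).1 huv with ⟨x, y, rfl, rfl, hxy⟩ | ⟨b, c, rfl, rfl, hbc⟩
    · exact h.1 x y hxy
    · exact htyp b c hbc
  · intro p l hp hl hpl
    have i0 : Fin m := ⟨0, by omega⟩
    have j0 : Fin n := ⟨0, by omega⟩
    rcases (hI _ _).1 (hpl i0 j0) with ⟨x, y, hx, hy, -⟩ | ⟨b, c, hb, hc, -⟩
    · have h1 : ∀ i, ∃ x', p i = Sum.inl x' := fun i => by
        rcases (hI _ _).1 (hpl i j0) with ⟨x', y', hx', -, -⟩ | ⟨b, c, -, hc, -⟩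
        · exact ⟨x', hx'⟩
        · rw [hy] at hc
          exact absurd hc Sum.inl_ne_inr
      have h2 : ∀ j, ∃ y', l j = Sum.inl y' := fun j => by
        rcases (hI _ _).1 (hpl i0 j) with ⟨x', y', -, hy', -⟩ | ⟨b, c, hb, -, -⟩
        · exact ⟨y', hy'⟩
        · rw [hx] at hb
          exact absurd hb Sum.inl_ne_inr
      choose p' hp' using h1
      choose l' hl' using h2
      refine h.2 p' l' (fun i i' hii => hp ?_) (fun j j' hjj => hl ?_) fun i j => ?_
      · rw [hp', hp', hii]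
      · rw [hl', hl', hjj]
      · rcases (hI _ _).1 (hpl i j) with ⟨x', y', hx', hy', hxy'⟩ | ⟨b, c, hb, -, -⟩
        · rw [hp'] at hx'
          rw [hl'] at hy'
          rwa [Sum.inl.inj hx', Sum.inl.inj hy']
        · rw [hp'] at hb
          exact absurd hb Sum.inl_ne_inr
    · have h1 : ∀ i, ∃ x', p i = Sum.inr x' := fun i => by
        rcases (hI _ _).1 (hpl i j0) with ⟨x', y', -, hy', -⟩ | ⟨b', c', hb', -, -⟩
        · rw [hc] at hy'
          exact absurd hy'.symm Sum.inl_ne_inr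
        · exact ⟨b', hb'⟩
      have h2 : ∀ j, ∃ y', l j = Sum.inr y' := fun j => by
        rcases (hI _ _).1 (hpl i0 j) with ⟨x', y', hx', -, -⟩ | ⟨b', c', -, hc', -⟩
        · rw [hb] at hx'
          exact absurd hx'.symm Sum.inl_ne_inr
        · exact ⟨c', hc'⟩
      choose p' hp' using h1
      choose l' hl' using h2
      refine hfree p' l' (fun i i' hii => hp ?_) (fun j j' hjj => hl ?_) fun i j => ?_
      · rw [hp', hp', hii]
      · rw [hl', hl', hjj]
      · rcases (hI _ _).1 (hpl i j) with ⟨x', y', hx', -, -⟩ | ⟨b', c', hb', hc', hbc'⟩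
        · rw [hp'] at hx'
          exact absurd hx'.symm Sum.inl_ne_inr
        · rw [hp'] at hb'
          rw [hl'] at hc'
          rwa [Sum.inr.inj hb', Sum.inr.inj hc']

/-- row W3: the array structure embeds into existentially closed structures -/
theorem w_embed {m n : ℕ} (hm : 2 ≤ m) (hn : 2 ≤ n) {M : Type} [Linc.Structure M]
    (h : IsECInc m n M) (N : ℕ) : ∃ z : WE m n N → M, Function.Injective z ∧
      (∀ P, Pt (z P) ↔ wPt P) ∧ ∀ P l, Inc (z P) (z l) ↔ wInc P l := by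
  have hfin := w_finite m n N
  have ha : (w3Pat m n N).Old (fun e : Empty => (e.elim : M)) :=
    ⟨fun x => x.elim, fun x => x.elim, fun x => x.elim⟩
  obtain ⟨y, hy1, hy2, hy3⟩ := ec_solve h (w3Pat m n N) _ ha (w3_isInc hm hn h.1 _)
  refine ⟨y, fun b c hbc => Sum.inr_injective (hy1 ?_), fun P => ?_, fun P l => ?_⟩
  · exact hbc
  · exact hy2 (Sum.inr P)
  · refine (hy3 (Sum.inr P) (Sum.inr l)).trans ?_
    constructor
    · rintro ⟨b, c, hb, hc, hbc⟩
      rwa [Sum.inr.inj hb, Sum.inr.inj hc]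
    · exact fun hPl => ⟨P, l, rfl, rfl, hPl⟩

end Pool.Agent.Lib.MP_9a7643_lc
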