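import Pool.Agent.Lib.MP_9a7643_lc.IncTp
import Pool.Agent.Lib.MP_9a7643_lc.IncTp0
import Pool.Agent.Lib.MP_9a7643_lc.IncW3

/-! row TP2 -/

open FirstOrder Filter Cardinal

namespace Pool.Agent.Lib.MP_9a7643_lc

theorem tp2_finPV (m : ℕ) : Finite (PV m) := by
  refine Finite.of_surjective
    (fun x : (Fin 2 × Fin (m - 1)) ⊕ (Fin 2 ⊕ (Fin (m - 2) ⊕ (Unit ⊕ Unit))) => match x with
      | Sum.inl (s, k) => PV.a s k
      | Sum.inr (Sum.inl s) => PV.b s
      | Sum.inr (Sum.inr (Sum.inl k)) => PV.d k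
      | Sum.inr (Sum.inr (Sum.inr (Sum.inl _))) => PV.e
      | Sum.inr (Sum.inr (Sum.inr (Sum.inr _))) => PV.c) ?_
  intro y
  cases y with
  | a s k => exact ⟨Sum.inl (s, k), rfl⟩
  | b s => exact ⟨Sum.inr (Sum.inl s), rfl⟩
  | d k => exact ⟨Sum.inr (Sum.inr (Sum.inl k)), rfl⟩
  | e => exact ⟨Sum.inr (Sum.inr (Sum.inr (Sum.inl ()))), rfl⟩
  | c => exact ⟨Sum.inr (Sum.inr (Sum.inr (Sum.inr ()))), rfl⟩

theorem tp2_finHV (n : ℕ) : Finite (HV n) := by
  refine Finite.of_surjective
    (fun x : Fin 2 ⊕ ((Fin 2 × Fin (n - 1)) ⊕ Fin (n - 1)) => match x with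
      | Sum.inl s => HV.u s
      | Sum.inr (Sum.inl (s, k)) => HV.lam s k
      | Sum.inr (Sum.inr k) => HV.mu k) ?_
  intro y
  cases y with
  | u s => exact ⟨Sum.inl s, rfl⟩
  | lam s k => exact ⟨Sum.inr (Sum.inl (s, k)), rfl⟩
  | mu k => exact ⟨Sum.inr (Sum.inr k), rfl⟩

/-- the map of the variables into the array structure -/
def tp2_g {m n N : ℕ} (i : Fin N) (f : Fin N → Fin N) : (Unit ⊕ PV m) ⊕ HV n → WE m n N
  | Sum.inl (Sum.inl _) => WE.x f
  | Sum.inl (Sum.inr (PV.a s k)) => WE.a s i k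
  | Sum.inl (Sum.inr (PV.b s)) => WE.b s i
  | Sum.inl (Sum.inr (PV.d k)) => WE.d i k
  | Sum.inl (Sum.inr PV.e) => WE.e i
  | Sum.inl (Sum.inr PV.c) => WE.c i (f i)
  | Sum.inr (HV.u s) => WE.u s i f
  | Sum.inr (HV.lam s k) => WE.lam s i f k
  | Sum.inr (HV.mu k) => WE.mu i f k

theorem tp2_g_inj {m n N : ℕ} (i : Fin N) (f : Fin N → Fin N) :
    Function.Injective (tp2_g (m := m) (n := n) i f) := by
  intro x y h
  rcases x with (x | x) | x
  · rcases y with (y | y) | y
    · rfl
    · cases y <;> simp [tp2_g] at h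
    · cases y <;> simp [tp2_g] at h
  · rcases y with (y | y) | y
    · cases x <;> simp [tp2_g] at h
    · cases x <;> cases y <;> simp_all [tp2_g]
    · cases x <;> cases y <;> simp [tp2_g] at h
  · rcases y with (y | y) | y
    · cases x <;> simp [tp2_g] at h
    · cases x <;> cases y <;> simp [tp2_g] at h
    · cases x <;> cases y <;> simp_all [tp2_g]

theorem tp2_g_inc {m n N : ℕ} (i : Fin N) (f : Fin N → Fin N) (x y : (Unit ⊕ PV m) ⊕ HV n)
    (h : vInc x y) : wInc (tp2_g (m := m) (n := n) i f x) (tp2_g i f y) := by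
  rcases x with (x | x) | x
  · rcases y with (y | y) | y
    · exact h.elim
    · cases y <;> exact h.elim
    · cases y <;> simp_all [tp2_g, vInc, wInc]
  · rcases y with (y | y) | y
    · cases x <;> exact h.elim
    · cases x <;> cases y <;> simp_all [tp2_g, vInc, wInc]
    · cases x <;> cases y <;> simp_all [tp2_g, vInc, wInc]
  · rcases y with (y | y) | y
    · cases x <;> exact h.elim
    · cases x <;> cases y <;> simp_all [tp2_g, vInc, wInc]
    · cases x <;> cases y <;> simp_all [tp2_g, vInc, wInc]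

/-- the `TP₂` formula -/
noncomputable def tp2_phi (m n : ℕ) : Linc.Formula (Unit ⊕ PV m) :=
  have := tp2_finPV m
  have := tp2_finHV n
  Language.Formula.iExs (HV n) (neqForm ((Unit ⊕ PV m) ⊕ HV n) ⊓
    Language.Formula.iInf (fun p : {p : ((Unit ⊕ PV m) ⊕ HV n) × ((Unit ⊕ PV m) ⊕ HV n) //
      vInc p.1 p.2} => incF p.1.1 p.1.2))

theorem tp2_realize {m n : ℕ} {M : Type} [Linc.Structure M] (v : Unit ⊕ PV m → M) :
    (tp2_phi m n).Realize v ↔ ∃ w : HV n → M, Function.Injective (Sum.elim v w) ∧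
      ∀ x y, vInc x y → Inc (Sum.elim v w x) (Sum.elim v w y) := by
  have := tp2_finPV m
  have := tp2_finHV n
  rw [tp2_phi, Language.Formula.realize_iExs]
  refine exists_congr fun w => ?_
  rw [Language.Formula.realize_inf, realize_neqForm, Language.Formula.realize_iInf]
  refine and_congr Iff.rfl ?_
  constructor
  · intro h x y hxy
    have := h ⟨(x, y), hxy⟩
    rwa [realize_incF] at this
  · rintro h ⟨⟨x, y⟩, hxy⟩
    rw [realize_incF]
    exact h x y hxy

/-- row TP2 -/
theorem inc_tp2 {m n : ℕ} (hm : 2 ≤ m) (hn : 2 ≤ n) (M : Type) [Linc.Structure M] [Nonempty M]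
    (h : IsECInc m n M) : HasTP2 (incTheory M) := by
  have := tp2_finPV m
  have hM : M ⊨ Linc.completeTheory M := inferInstance
  have hfin : Finite (PV m) := tp2_finPV m
  let st : Linc.Structure M := inferInstance
  refine @hasTP2_of_arrays (incTheory M) M st inferInstance hM Unit (PV m)
    inferInstance hfin (tp2_phi m n) ?_
  intro N
  obtain ⟨z, hz, -, hz2⟩ := w_embed hm hn h N
  let prm : Fin N → Fin N → PV m → M := fun i j q => match q with
    | PV.a s k => z (WE.a s i k)
    | PV.b s => z (WE.b s i)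
    | PV.d k => z (WE.d i k)
    | PV.e => z (WE.e i)
    | PV.c => z (WE.c i j)
  refine ⟨prm, ?_, ?_⟩
  · intro f
    refine ⟨fun _ => z (WE.x f), fun i => ?_⟩
    refine (tp2_realize (m := m) (n := n) _).2 ?_
    let w : HV n → M := fun q => match q with
      | HV.u s => z (WE.u s i f)
      | HV.lam s k => z (WE.lam s i f k)
      | HV.mu k => z (WE.mu i f k)
    have e : Sum.elim (Sum.elim (fun _ : Unit => z (WE.x f)) (prm i (f i))) w =
        fun v => z (tp2_g (m := m) (n := n) i f v) := by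
      funext v
      rcases v with (v | v) | v
      · rfl
      · cases v <;> rfl
      · cases v <;> rfl
    refine ⟨w, ?_, ?_⟩
    · rw [e]
      exact hz.comp (tp2_g_inj i f)
    · intro x y hxy
      rw [e]
      exact (hz2 _ _).2 (tp2_g_inc i f x y hxy)
  · rintro i j j' hjj' ⟨x, hx1, hx2⟩
    obtain ⟨w, hw1, hw2⟩ := (tp2_realize (m := m) (n := n) _).1 hx1
    obtain ⟨w', hw1', hw2'⟩ := (tp2_realize (m := m) (n := n) _).1 hx2
    have key := v_unique hm hn h.1 _ _ hw1 hw1' hw2 hw2' rfl (by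
      intro q hq
      cases q with
      | c => exact absurd rfl hq
      | a s k => rfl
      | b s => rfl
      | d k => rfl
      | e => rfl)
    have key' : z (WE.c i j) = z (WE.c i j') := key
    have := hz key'
    simp only [WE.c.injEq, true_and] at this
    exact hjj' this

end Pool.Agent.Lib.MP_9a7643_lc
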