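import Pool.Agent.Lib.MP_9a7643_lc.IncSat
import Pool.Agent.Lib.MP_9a7643_lc.IncTp2

/-! the Keisler class of generic incidence structures -/

open FirstOrder Filter Cardinal

namespace Pool.Agent.Lib.MP_9a7643_lc

/-- models of the theory of `M` satisfy the same sentences -/
theorem models_of_completeTheory {L : FirstOrder.Language.{0, 0}} {M : Type} [L.Structure M]
    {M' : Type} [L.Structure M'] (hM' : M' ⊨ L.completeTheory M) (φ : L.Sentence)
    (hφ : M ⊨ φ) : M' ⊨ φ := by
  have := hM'
  exact Language.Theory.realize_sentence_of_mem (T := L.completeTheory M) (M := M')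
    (Language.mem_completeTheory.2 hφ)

theorem inc_main (m n : ℕ) (hm : 2 ≤ m) (hn : 2 ≤ n) (M : Type) [Linc.Structure M] [Nonempty M]
    (hM : IsECInc m n M) :
    NonSimple (incTheory M) ∧ HasTP2 (incTheory M) ∧
      (∀ S : CTheory, HasTP2 S → KLe (incTheory M) S) ∧
      ∀ (I : Type) [Infinite I] (D : Ultrafilter I), Regular D →
        ∀ (M' : Type) [Linc.Structure M'] [Nonempty M'], M' ⊨ Linc.completeTheory M →
          (Saturated Linc (Pow D M') #I ↔ GoodEq D I) := by
  have h2 : HasTP2 (incTheory M) := inc_tp2 hm hn M hM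
  refine ⟨nonSimple_of_tp2 _ h2, h2, fun S hS => inc_le (by omega) (by omega) M hM S hS, ?_⟩
  intro I _ D hD M' _ _ hM'
  constructor
  · intro h
    exact @goodEq_of_tp2 (incTheory M) h2 I _ D hD M' (inferInstanceAs (Linc.Structure M')) _ hM' h
  · intro h
    exact inc_saturated (by omega) (by omega)
      ((full_of_ec (by omega) (by omega) hM).of_models (models_of_completeTheory hM'))
      ((rich_of_ec hM).of_models (models_of_completeTheory hM')) D hD h

end Pool.Agent.Lib.MP_9a7643_lc
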