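import Pool.Agent.Lib.MP_9a7643_lc.IncBase

/-! row MOD -/

open FirstOrder Filter Cardinal

namespace Pool.Agent.Lib.MP_9a7643_lc

section mod
variable {M N : Type} [Linc.Structure M] [Linc.Structure N]

theorem mod_ae (hMN : ∀ φ : Linc.Sentence, M ⊨ φ → N ⊨ φ) {α β : Type} [Finite α] [Finite β]
    (χ : Linc.Formula α) (ψ : Linc.Formula (α ⊕ β))
    (h : ∀ a : α → M, χ.Realize a → ∃ y : β → M, ψ.Realize (Sum.elim a y)) (a : α → N)
    (ha : χ.Realize a) : ∃ y : β → N, ψ.Realize (Sum.elim a y) :=
  (realize_AE χ ψ).1 (hMN _ ((realize_AE χ ψ).2 h)) a ha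

theorem mod_typed (hMN : ∀ φ : Linc.Sentence, M ⊨ φ → N ⊨ φ)
    (h : ∀ x y : M, Inc x y → Pt x ∧ ¬ Pt y) : ∀ x y : N, Inc x y → Pt x ∧ ¬ Pt y := by
  intro x y hxy
  have key := mod_ae hMN (β := Empty) (incF (0 : Fin 2) 1)
    ((ptF (Sum.inl (0 : Fin 2))) ⊓ Language.Formula.not (ptF (Sum.inl (1 : Fin 2))))
    (by
      intro a ha
      rw [realize_incF] at ha
      refine ⟨fun e => e.elim, ?_⟩
      rw [Language.Formula.realize_inf, Language.Formula.realize_not, realize_ptF, realize_ptF]
      exact h _ _ ha) ![x, y] (by rw [realize_incF]; exact hxy)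
  obtain ⟨z, hz⟩ := key
  rw [Language.Formula.realize_inf, Language.Formula.realize_not, realize_ptF, realize_ptF] at hz
  exact hz

theorem mod_free {m n : ℕ} (hMN : ∀ φ : Linc.Sentence, M ⊨ φ → N ⊨ φ)
    (h : ∀ (p : Fin m → M) (l : Fin n → M), Function.Injective p → Function.Injective l →
      ¬ ∀ i j, Inc (p i) (l j)) :
    ∀ (p : Fin m → N) (l : Fin n → N), Function.Injective p → Function.Injective l →
      ¬ ∀ i j, Inc (p i) (l j) := by
  intro p l hp hl hi
  have key := mod_ae hMN (α := Fin m ⊕ Fin n) (β := Empty)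
    (((neqForm (L := Linc) (Fin m)).relabel Sum.inl ⊓ (neqForm (L := Linc) (Fin n)).relabel Sum.inr) ⊓
      Language.Formula.iInf (fun x : Fin m × Fin n => incF (Sum.inl x.1) (Sum.inr x.2))) ⊥
    (by
      intro a ha
      rw [Language.Formula.realize_inf, Language.Formula.realize_inf,
        Language.Formula.realize_relabel, Language.Formula.realize_relabel, realize_neqForm,
        realize_neqForm, Language.Formula.realize_iInf] at ha
      exact absurd (fun i j => by
        have := ha.2 (i, j)
        rwa [realize_incF] at this) (h _ _ ha.1.1 ha.1.2)) (Sum.elim p l)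
    (by
      rw [Language.Formula.realize_inf, Language.Formula.realize_inf,
        Language.Formula.realize_relabel, Language.Formula.realize_relabel, realize_neqForm,
        realize_neqForm, Language.Formula.realize_iInf]
      refine ⟨⟨hp, hl⟩, fun x => ?_⟩
      rw [realize_incF]
      exact hi x.1 x.2)
  obtain ⟨z, hz⟩ := key
  exact hz

theorem mod_lines {m c : ℕ} (hMN : ∀ φ : Linc.Sentence, M ⊨ φ → N ⊨ φ)
    (h : ∀ p : Fin m → M, Function.Injective p → (∀ i, Pt (p i)) →
      ∃ l : Fin c → M, Function.Injective l ∧ ∀ i j, Inc (p i) (l j)) :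
    ∀ p : Fin m → N, Function.Injective p → (∀ i, Pt (p i)) →
      ∃ l : Fin c → N, Function.Injective l ∧ ∀ i j, Inc (p i) (l j) := by
  intro p hp hpt
  have key := mod_ae hMN (α := Fin m) (β := Fin c)
    (neqForm (Fin m) ⊓ Language.Formula.iInf (fun i : Fin m => ptF i))
    ((neqForm (L := Linc) (Fin c)).relabel Sum.inr ⊓
      Language.Formula.iInf (fun x : Fin m × Fin c => incF (Sum.inl x.1) (Sum.inr x.2)))
    (by
      intro a ha
      rw [Language.Formula.realize_inf, realize_neqForm, Language.Formula.realize_iInf] at ha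
      obtain ⟨l, hl, hi⟩ := h a ha.1 (fun i => by
        have := ha.2 i
        rwa [realize_ptF] at this)
      refine ⟨l, ?_⟩
      rw [Language.Formula.realize_inf, Language.Formula.realize_relabel, realize_neqForm,
        Language.Formula.realize_iInf]
      refine ⟨hl, fun x => ?_⟩
      rw [realize_incF]
      exact hi x.1 x.2) p
    (by
      rw [Language.Formula.realize_inf, realize_neqForm, Language.Formula.realize_iInf]
      refine ⟨hp, fun i => ?_⟩
      rw [realize_ptF]
      exact hpt i)
  obtain ⟨l, hl⟩ := key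
  rw [Language.Formula.realize_inf, Language.Formula.realize_relabel, realize_neqForm,
    Language.Formula.realize_iInf] at hl
  refine ⟨l, hl.1, fun i j => ?_⟩
  have := hl.2 (i, j)
  rwa [realize_incF] at this

theorem mod_points {n c : ℕ} (hMN : ∀ φ : Linc.Sentence, M ⊨ φ → N ⊨ φ)
    (h : ∀ l : Fin n → M, Function.Injective l → (∀ j, ¬ Pt (l j)) →
      ∃ p : Fin c → M, Function.Injective p ∧ ∀ i j, Inc (p i) (l j)) :
    ∀ l : Fin n → N, Function.Injective l → (∀ j, ¬ Pt (l j)) →
      ∃ p : Fin c → N, Function.Injective p ∧ ∀ i j, Inc (p i) (l j) := by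
  intro l hl hln
  have key := mod_ae hMN (α := Fin n) (β := Fin c)
    (neqForm (Fin n) ⊓ Language.Formula.iInf (fun j : Fin n => Language.Formula.not (ptF j)))
    ((neqForm (L := Linc) (Fin c)).relabel Sum.inr ⊓
      Language.Formula.iInf (fun x : Fin c × Fin n => incF (Sum.inr x.1) (Sum.inl x.2)))
    (by
      intro a ha
      rw [Language.Formula.realize_inf, realize_neqForm, Language.Formula.realize_iInf] at ha
      obtain ⟨p, hp, hi⟩ := h a ha.1 (fun i => by
        have := ha.2 i
        rwa [Language.Formula.realize_not, realize_ptF] at this)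
      refine ⟨p, ?_⟩
      rw [Language.Formula.realize_inf, Language.Formula.realize_relabel, realize_neqForm,
        Language.Formula.realize_iInf]
      refine ⟨hp, fun x => ?_⟩
      rw [realize_incF]
      exact hi x.1 x.2) l
    (by
      rw [Language.Formula.realize_inf, realize_neqForm, Language.Formula.realize_iInf]
      refine ⟨hl, fun i => ?_⟩
      rw [Language.Formula.realize_not, realize_ptF]
      exact hln i)
  obtain ⟨p, hp⟩ := key
  rw [Language.Formula.realize_inf, Language.Formula.realize_relabel, realize_neqForm,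
    Language.Formula.realize_iInf] at hp
  refine ⟨p, hp.1, fun i j => ?_⟩
  have := hp.2 (i, j)
  rwa [realize_incF] at this

end mod

theorem Full.of_models {m n : ℕ} {M N : Type} [Linc.Structure M] [Linc.Structure N]
    (h : Full m n M) (hMN : ∀ φ : Linc.Sentence, M ⊨ φ → N ⊨ φ) : Full m n N :=
  ⟨⟨mod_typed hMN h.1.1, mod_free hMN h.1.2⟩, mod_lines hMN h.2.1, mod_points hMN h.2.2⟩

theorem IncRich.of_models {m n : ℕ} {M N : Type} [Linc.Structure M] [Linc.Structure N]
    (h : IncRich m n M) (hMN : ∀ φ : Linc.Sentence, M ⊨ φ → N ⊨ φ) : IncRich m n N := by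
  intro α β _ _ P hP a ha
  have key := mod_ae hMN (diagF (fun x => P.pt (Sum.inl x)) (fun x y => P.inc (Sum.inl x) (Sum.inl y)))
    (diagF P.pt P.inc)
    (by
      intro b hb
      rw [realize_diagF] at hb
      obtain ⟨y, hy⟩ := h α β P hP b hb
      exact ⟨y, (realize_diagF _ _ _).2 hy⟩) a ((realize_diagF _ _ _).2 ha)
  obtain ⟨y, hy⟩ := key
  exact ⟨y, (realize_diagF _ _ _).1 hy⟩

end Pool.Agent.Lib.MP_9a7643_lc
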