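import Pool.Agent.Lib.MP_9a7643_lc.ExtRich
import Pool.Agent.Lib.MP_9a7643_lc.Sat

/-!
# Saturation of ultrapowers of rich structures
-/

open FirstOrder Filter Cardinal

namespace Pool.Agent.Lib.MP_9a7643_lc

section
variable {L : FirstOrder.Language.{0, 0}}

theorem hull_true (hL : Countable L.Symbols) {κ : Cardinal.{0}} (hκ : ℵ₀ ≤ κ)
    (N : Type) [L.Structure N] : Hull (L := L) (fun _ _ => True) κ N := by
  intro X hX
  refine ⟨Language.Substructure.closure L X, Language.Substructure.subset_closure, trivial, ?_⟩
  have hF : Countable (Σ k, L.Functions k) :=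
    (Sum.inl_injective (α := Σ k, L.Functions k) (β := Σ k, L.Relations k)).countable
  have h1 := Language.Substructure.lift_card_closure_le (L := L) (s := X)
  simp only [Cardinal.lift_id] at h1
  refine h1.trans (max_le hκ ?_)
  refine (add_le_add hX ((Cardinal.mk_le_aleph0_iff.2 hF).trans hκ)).trans ?_
  exact (Cardinal.add_eq_self hκ).le

theorem rich_pow {M : Type} [L.Structure M] [Nonempty M] (hM : Rich L M)
    {J : Type} (U : Ultrafilter J) : Rich L (Pow U M) := by
  refine hM.of_models ?_
  intro φ hφ
  have := Language.Ultraproduct.sentence_realize (L := L) (M := fun _ : J => M) (u := U) φ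
  exact this.2 (Filter.Eventually.of_forall (fun _ => hφ))

theorem ext_countable {M : Type} [L.Structure M] [Nonempty M] (hM : Rich L M)
    (hL : Countable L.Symbols) {J : Type} (U : Ultrafilter J) (hU : RegFor U ℕ) :
    Ext (L := L) (fun _ _ => True) ℵ₀ (Pow U M) := by
  refine ext_of_rich hM hL U le_rfl ?_ ?_
  · intro ι hι
    exact hU.mono_card (by simpa using hι)
  · intro ι hι
    exact goodEq_countable U ι hι

/-- An ultrapower of a rich structure by a regular ultrafilter which is good for equality is
saturated. -/
theorem saturated_of_goodEq {M : Type} [L.Structure M] [Nonempty M] (hM : Rich L M)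
    (hL : Countable L.Symbols) {I : Type} [Infinite I] (D : Ultrafilter I) (hD : Regular D)
    (hg : GoodEq D I) : Saturated L (Pow D M) #I := by
  have hI : ℵ₀ ≤ #I := Cardinal.infinite_iff.1 inferInstance
  have : Nonempty (Pow D M) := Language.Ultraproduct.Product.instNonempty
  refine sat_of (F := fun _ _ => True) hI (fun B _ _ => hull_true hL le_rfl B) ?_ ?_
    (hull_true hL hI _) (hull_true hL le_rfl _) ?_
  · refine ext_of_rich hM hL D hI ?_ ?_
    · intro ι hι
      exact RegFor.mono_card (ι := I) hD hι
    · intro ι hι
      exact hg.mono_card hι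
  · exact ext_countable hM hL D hD.nat
  · intro J U hU
    exact ⟨ext_countable (rich_pow hM D) hL U hU, hull_true hL hI _, hull_true hL le_rfl _⟩

end

end Pool.Agent.Lib.MP_9a7643_lc
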