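import Pool.Agent.Lib.MP_9a7643_lc.IncExt
import Pool.Agent.Lib.MP_9a7643_lc.IncHull
import Pool.Agent.Lib.MP_9a7643_lc.IncMod
import Pool.Agent.Lib.MP_9a7643_lc.IncEC2
import Pool.Agent.Lib.MP_9a7643_lc.IncEC3
import Pool.Agent.Lib.MP_9a7643_lc.Sat
import Pool.Agent.Lib.MP_9a7643_lc.SatRich

/-! row SAT -/

open FirstOrder Filter Cardinal

namespace Pool.Agent.Lib.MP_9a7643_lc

private theorem sat_models {M : Type} [Linc.Structure M] [Nonempty M] {J : Type}
    (U : Ultrafilter J) (φ : Linc.Sentence) (hφ : M ⊨ φ) : Pow U M ⊨ φ := by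
  have := Language.Ultraproduct.sentence_realize (L := Linc) (M := fun _ : J => M) (u := U) φ
  exact this.2 (Filter.Eventually.of_forall (fun _ => hφ))

private theorem sat_ext0 {m n : ℕ} (hm : 1 ≤ m) (hn : 1 ≤ n) {M : Type} [Linc.Structure M]
    [Nonempty M] (h1 : Full m n M) (h2 : IncRich m n M) {J : Type} (U : Ultrafilter J)
    (hU : RegFor U ℕ) : Ext (L := Linc) (fun A _ => Full m n A) ℵ₀ (Pow U M) := by
  refine ext_inc hm hn h2 h1.1 U le_rfl ?_ ?_
  · intro ι hι
    exact hU.mono_card (by simpa using hι)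
  · intro ι hι
    exact goodEq_countable U ι hι

theorem inc_saturated {m n : ℕ} (hm : 1 ≤ m) (hn : 1 ≤ n) {M : Type} [Linc.Structure M]
    [Nonempty M] (h1 : Full m n M) (h2 : IncRich m n M) {I : Type} [Infinite I]
    (D : Ultrafilter I) (hD : Regular D) (hg : GoodEq D I) : Saturated Linc (Pow D M) #I := by
  have hI : ℵ₀ ≤ #I := Cardinal.infinite_iff.1 inferInstance
  have hne : Nonempty (Pow D M) := Language.Ultraproduct.Product.instNonempty
  have h1' : Full m n (Pow D M) := h1.of_models (sat_models D)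
  have h2' : IncRich m n (Pow D M) := h2.of_models (sat_models D)
  refine sat_of (L := Linc) (F := fun A _ => Full m n A) hI
    (fun B _ hB => hull_full le_rfl B hB) ?_ ?_
    (hull_full hI _ h1') (hull_full le_rfl _ h1') ?_
  · refine ext_inc hm hn h2 h1.1 D hI ?_ ?_
    · intro ι hι
      exact RegFor.mono_card (ι := I) hD hι
    · intro ι hι
      exact hg.mono_card hι
  · exact sat_ext0 hm hn h1 h2 D hD.nat
  · intro J U hU
    have h1'' : Full m n (Pow U (Pow D M)) := h1'.of_models (sat_models U)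
    exact ⟨sat_ext0 hm hn h1' h2' U hU, hull_full hI _ h1'', hull_full le_rfl _ h1''⟩

theorem inc_le {m n : ℕ} (hm : 1 ≤ m) (hn : 1 ≤ n) (M : Type) [Linc.Structure M] [Nonempty M]
    (hM : IsECInc m n M) (S : CTheory) (hS : HasTP2 S) : KLe (incTheory M) S := by
  intro I _ D hD M₁ M₂ s₁ _ _ _ hM₁ hM₂ hsat
  have h0 : ∀ φ : Linc.Sentence, M ⊨ φ → @Language.Sentence.Realize Linc M₁ s₁ φ := by
    intro φ hφ
    exact hM₁.realize_of_mem φ hφ
  exact @inc_saturated m n hm hn M₁ s₁ _ (@Full.of_models m n M M₁ _ s₁ (full_of_ec hm hn hM) h0)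
    (@IncRich.of_models m n M M₁ _ s₁ (rich_of_ec hM) h0) I _ D hD
    (goodEq_of_tp2 hS D hD M₂ hM₂ hsat)

end Pool.Agent.Lib.MP_9a7643_lc
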