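import Pool.Agent.Lib.MP_9a7643_lc.IncBase
import Pool.Agent.Lib.MP_9a7643_lc.Aleph1

/-! rows TP0, TP1 -/

open FirstOrder Filter Cardinal

namespace Pool.Agent.Lib.MP_9a7643_lc

/-- the parameters of the formula -/
inductive PV (m : ℕ) : Type
  | a (s : Fin 2) (k : Fin (m - 1)) : PV m
  | b (s : Fin 2) : PV m
  | d (k : Fin (m - 2)) : PV m
  | e : PV m
  | c : PV m

/-- the quantified variables of the formula -/
inductive HV (n : ℕ) : Type
  | u (s : Fin 2) : HV n
  | lam (s : Fin 2) (k : Fin (n - 1)) : HV n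
  | mu (k : Fin (n - 1)) : HV n

/-- the required incidences -/
def vInc {m n : ℕ} : (Unit ⊕ PV m) ⊕ HV n → (Unit ⊕ PV m) ⊕ HV n → Prop
  | Sum.inl (Sum.inl _), Sum.inr (HV.lam _ _) => True
  | Sum.inl (Sum.inr (PV.a s _)), Sum.inr (HV.lam s' _) => s = s'
  | Sum.inl (Sum.inr (PV.a s k)), Sum.inl (Sum.inr (PV.b s')) => s = s' ∧ (k : ℕ) ≠ 0
  | Sum.inr (HV.u s), Sum.inr (HV.lam s' _) => s = s'
  | Sum.inr (HV.u s), Sum.inl (Sum.inr (PV.b s')) => s = s'
  | Sum.inr (HV.u _), Sum.inr (HV.mu _) => True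
  | Sum.inl (Sum.inr (PV.d _)), Sum.inr (HV.mu _) => True
  | Sum.inl (Sum.inr (PV.d _)), Sum.inl (Sum.inr PV.e) => True
  | Sum.inl (Sum.inr PV.c), Sum.inl (Sum.inr PV.e) => True
  | Sum.inl (Sum.inr PV.c), Sum.inr (HV.mu _) => True
  | _, _ => False

theorem tp1_noK {m n : ℕ} {M : Type} [Linc.Structure M] (hI : IsInc m n M) {ι κ : Type}
    [Fintype ι] [Fintype κ] (hι : Fintype.card ι = m) (hκ : Fintype.card κ = n) {p : ι → M}
    {l : κ → M} (hp : Function.Injective p) (hl : Function.Injective l)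
    (h : ∀ i j, Inc (p i) (l j)) : False := by
  classical
  let e1 := Fintype.equivFinOfCardEq hι
  let e2 := Fintype.equivFinOfCardEq hκ
  exact hI.2 (p ∘ e1.symm) (l ∘ e2.symm) (hp.comp e1.symm.injective) (hl.comp e2.symm.injective)
    (fun i j => h _ _)

theorem tp1_opt {α : Type} {M : Type} {f : α → M} (hf : Function.Injective f) {a : M}
    (ha : a ∉ Set.range f) : Function.Injective (fun o : Option α => o.elim a f) := by
  intro x y h
  rcases x with _ | x <;> rcases y with _ | y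
  · rfl
  · exact absurd ⟨y, h.symm⟩ ha
  · exact absurd ⟨x, h⟩ ha
  · exact congrArg some (hf h)

theorem tp1_L1 {m n : ℕ} (hn : 2 ≤ n) {M : Type} [Linc.Structure M] (hI : IsInc m n M) {ι : Type}
    [Fintype ι] (hι : Fintype.card ι = m) {p : ι → M} {l l' : Fin (n - 1) → M}
    (hp : Function.Injective p) (hl : Function.Injective l) (h : ∀ i j, Inc (p i) (l j))
    (h' : ∀ i j, Inc (p i) (l' j)) (j : Fin (n - 1)) : l' j ∈ Set.range l := by
  by_contra hj
  refine tp1_noK hI hι (κ := Option (Fin (n - 1))) (by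
    rw [Fintype.card_option, Fintype.card_fin]
    omega) hp (tp1_opt hl hj) (fun i o => ?_)
  rcases o with _ | o
  · exact h' i j
  · exact h i o

theorem tp1_L2 {m n : ℕ} (hm : 2 ≤ m) (hn : 2 ≤ n) {M : Type} [Linc.Structure M]
    (hI : IsInc m n M) {κ : Type} [Fintype κ] (hκ : Fintype.card κ = m - 2)
    {l : Fin (n - 1) → M} (hl : Function.Injective l) {b : M} (hb : b ∉ Set.range l) {q : κ → M}
    (hq : Function.Injective q) {u u' : M} (hu : u ∉ Set.range q) (hu' : u' ∉ Set.range q)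
    (h1 : ∀ i j, Inc (q i) (l j)) (h2 : ∀ j, Inc u (l j)) (h3 : ∀ j, Inc u' (l j))
    (h4 : ∀ i, Inc (q i) b) (h5 : Inc u b) (h6 : Inc u' b) : u = u' := by
  by_contra hne
  have i1 : Function.Injective (fun o : Option κ => o.elim u q) := tp1_opt hq hu
  have i2 : u' ∉ Set.range (fun o : Option κ => o.elim u q) := by
    rintro ⟨o, ho⟩
    rcases o with _ | o
    · exact hne ho
    · exact hu' ⟨o, ho⟩
  refine tp1_noK hI (ι := Option (Option κ)) (κ := Option (Fin (n - 1))) (by
    rw [Fintype.card_option, Fintype.card_option, hκ]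
    omega) (by
    rw [Fintype.card_option, Fintype.card_fin]
    omega) (tp1_opt i1 i2) (tp1_opt hl hb) (fun i j => ?_)
  rcases i with _ | _ | i <;> rcases j with _ | j
  · exact h6
  · exact h3 j
  · exact h5
  · exact h2 j
  · exact h4 i
  · exact h1 i j

/-- row TP1: the last parameter is determined by the others and by `x` -/
theorem v_unique {m n : ℕ} (hm : 2 ≤ m) (hn : 2 ≤ n) {M : Type} [Linc.Structure M]
    (hI : IsInc m n M) (z z' : (Unit ⊕ PV m) ⊕ HV n → M) (hz : Function.Injective z)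
    (hz' : Function.Injective z') (h : ∀ x y, vInc x y → Inc (z x) (z y))
    (h' : ∀ x y, vInc x y → Inc (z' x) (z' y)) (hx : z (Sum.inl (Sum.inl ())) = z' (Sum.inl (Sum.inl ())))
    (hp : ∀ q : PV m, q ≠ PV.c → z (Sum.inl (Sum.inr q)) = z' (Sum.inl (Sum.inr q))) :
    z (Sum.inl (Sum.inr PV.c)) = z' (Sum.inl (Sum.inr PV.c)) := by
  classical
  have hpa : ∀ s k, z' (Sum.inl (Sum.inr (PV.a s k))) = z (Sum.inl (Sum.inr (PV.a s k))) :=
    fun s k => (hp (PV.a s k) (fun h => nomatch h)).symm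
  have hpb : ∀ s, z' (Sum.inl (Sum.inr (PV.b s))) = z (Sum.inl (Sum.inr (PV.b s))) :=
    fun s => (hp (PV.b s) (fun h => nomatch h)).symm
  have hpd : ∀ k, z' (Sum.inl (Sum.inr (PV.d k))) = z (Sum.inl (Sum.inr (PV.d k))) :=
    fun k => (hp (PV.d k) (fun h => nomatch h)).symm
  have hpe : z' (Sum.inl (Sum.inr PV.e)) = z (Sum.inl (Sum.inr PV.e)) :=
    (hp PV.e (fun h => nomatch h)).symm
  -- the lines `lam s`
  have hlam : ∀ s k, z (Sum.inr (HV.lam s k)) ∈
      Set.range (fun k => z' (Sum.inr (HV.lam s k))) := by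
    intro s k
    refine tp1_L1 hn hI (ι := Option (Fin (m - 1))) (p := fun o => o.elim (z (Sum.inl (Sum.inl ())))
      (fun k => z (Sum.inl (Sum.inr (PV.a s k))))) (l' := fun k => z (Sum.inr (HV.lam s k))) (by
      rw [Fintype.card_option, Fintype.card_fin]
      omega) ?_ ?_ ?_ ?_ k
    · apply tp1_opt
      · intro x y hxy
        have := hz hxy
        simpa using this
      · rintro ⟨k, hk⟩
        have := hz hk
        simp at this
    · intro x y hxy
      have := hz' hxy
      simpa using this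
    · intro o j
      rcases o with _ | o
      · show Inc (z (Sum.inl (Sum.inl ()))) _
        rw [hx]
        exact h' _ _ trivial
      · show Inc (z (Sum.inl (Sum.inr (PV.a s o)))) _
        rw [← hpa]
        exact h' (Sum.inl (Sum.inr (PV.a s o))) (Sum.inr (HV.lam s j)) rfl
    · intro o j
      rcases o with _ | o
      · exact h (Sum.inl (Sum.inl ())) (Sum.inr (HV.lam s j)) trivial
      · exact h (Sum.inl (Sum.inr (PV.a s o))) (Sum.inr (HV.lam s j)) rfl
  -- the points `u s`
  have hu : ∀ s, z (Sum.inr (HV.u s)) = z' (Sum.inr (HV.u s)) := by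
    intro s
    refine tp1_L2 hm hn hI (κ := {k : Fin (m - 1) // k ≠ ⟨0, by omega⟩})
      (l := fun k => z (Sum.inr (HV.lam s k))) (b := z (Sum.inl (Sum.inr (PV.b s))))
      (q := fun k => z (Sum.inl (Sum.inr (PV.a s k.1)))) ?_ ?_ ?_ ?_ ?_ ?_ ?_ ?_ ?_ ?_ ?_ ?_
    · rw [Fintype.card_subtype_compl, Fintype.card_fin, Fintype.card_subtype_eq]
      omega
    · intro x y hxy
      have := hz hxy
      simpa using this
    · rintro ⟨k, hk⟩
      have := hz hk
      simp at this
    · intro x y hxy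
      have := hz hxy
      simp only [Sum.inl.injEq, Sum.inr.injEq, PV.a.injEq, true_and] at this
      exact Subtype.ext this
    · rintro ⟨k, hk⟩
      have := hz hk
      simp at this
    · rintro ⟨k, hk⟩
      simp only at hk
      rw [← hpa] at hk
      have := hz' hk
      simp at this
    · intro i j
      exact h (Sum.inl (Sum.inr (PV.a s i.1))) (Sum.inr (HV.lam s j)) rfl
    · intro j
      exact h (Sum.inr (HV.u s)) (Sum.inr (HV.lam s j)) rfl
    · intro j
      obtain ⟨k, hk⟩ := hlam s j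
      show Inc _ (z (Sum.inr (HV.lam s j)))
      rw [← hk]
      exact h' (Sum.inr (HV.u s)) (Sum.inr (HV.lam s k)) rfl
    · intro i
      exact h (Sum.inl (Sum.inr (PV.a s i.1))) (Sum.inl (Sum.inr (PV.b s)))
        ⟨rfl, fun h0 => i.2 (Fin.ext h0)⟩
    · exact h (Sum.inr (HV.u s)) (Sum.inl (Sum.inr (PV.b s))) rfl
    · rw [← hpb]
      exact h' (Sum.inr (HV.u s)) (Sum.inl (Sum.inr (PV.b s))) rfl
  -- the lines `mu`
  have hmu : ∀ k, z (Sum.inr (HV.mu k)) ∈ Set.range (fun k => z' (Sum.inr (HV.mu k))) := by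
    intro k
    refine tp1_L1 hn hI (ι := Fin 2 ⊕ Fin (m - 2)) (p := Sum.elim (fun s => z (Sum.inr (HV.u s)))
      (fun k => z (Sum.inl (Sum.inr (PV.d k))))) (l' := fun k => z (Sum.inr (HV.mu k))) (by
      rw [Fintype.card_sum, Fintype.card_fin, Fintype.card_fin]
      omega) ?_ ?_ ?_ ?_ k
    · intro x y hxy
      rcases x with x | x <;> rcases y with y | y
      · have := hz hxy
        simp only [Sum.inr.injEq, HV.u.injEq] at this
        rw [this]
      · have := hz hxy
        simp at this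
      · have := hz hxy
        simp at this
      · have := hz hxy
        simp only [Sum.inl.injEq, Sum.inr.injEq, PV.d.injEq] at this
        rw [this]
    · intro x y hxy
      have := hz' hxy
      simpa using this
    · intro o j
      rcases o with o | o
      · show Inc (z (Sum.inr (HV.u o))) _
        rw [hu]
        exact h' (Sum.inr (HV.u o)) (Sum.inr (HV.mu j)) trivial
      · show Inc (z (Sum.inl (Sum.inr (PV.d o)))) _
        rw [← hpd]
        exact h' (Sum.inl (Sum.inr (PV.d o))) (Sum.inr (HV.mu j)) trivial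
    · intro o j
      rcases o with o | o
      · exact h (Sum.inr (HV.u o)) (Sum.inr (HV.mu j)) trivial
      · exact h (Sum.inl (Sum.inr (PV.d o))) (Sum.inr (HV.mu j)) trivial
  -- the point `c`
  refine tp1_L2 hm hn hI (κ := Fin (m - 2)) (l := fun k => z (Sum.inr (HV.mu k)))
      (b := z (Sum.inl (Sum.inr PV.e))) (q := fun k => z (Sum.inl (Sum.inr (PV.d k))))
      (Fintype.card_fin _) ?_ ?_ ?_ ?_ ?_ ?_ ?_ ?_ ?_ ?_ ?_
  · intro x y hxy
    have := hz hxy
    simpa using this
  · rintro ⟨k, hk⟩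
    have := hz hk
    simp at this
  · intro x y hxy
    have := hz hxy
    simpa using this
  · rintro ⟨k, hk⟩
    have := hz hk
    simp at this
  · rintro ⟨k, hk⟩
    simp only at hk
    rw [← hpd] at hk
    have := hz' hk
    simp at this
  · intro i j
    exact h (Sum.inl (Sum.inr (PV.d i))) (Sum.inr (HV.mu j)) trivial
  · intro j
    exact h (Sum.inl (Sum.inr PV.c)) (Sum.inr (HV.mu j)) trivial
  · intro j
    obtain ⟨k, hk⟩ := hmu j
    show Inc _ (z (Sum.inr (HV.mu j)))
    rw [← hk]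
    exact h' (Sum.inl (Sum.inr PV.c)) (Sum.inr (HV.mu k)) trivial
  · intro i
    exact h (Sum.inl (Sum.inr (PV.d i))) (Sum.inl (Sum.inr PV.e)) trivial
  · exact h (Sum.inl (Sum.inr PV.c)) (Sum.inl (Sum.inr PV.e)) trivial
  · rw [← hpe]
    exact h' (Sum.inl (Sum.inr PV.c)) (Sum.inl (Sum.inr PV.e)) trivial

end Pool.Agent.Lib.MP_9a7643_lc
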