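import Pool.Agent.Lib.MP_9a7643_lc.IncBase

/-! rows W1, W2: the finite structure which gives the `TP₂` arrays -/

open FirstOrder Filter Cardinal

namespace Pool.Agent.Lib.MP_9a7643_lc

/-- the elements of the array structure: points `x f`, `a s i k`, `u s i f`, `d i k`, `c i j`,
lines `b s i`, `lam s i f k`, `e i`, `mu i f k` -/
inductive WE (m n N : ℕ) : Type
  | x (f : Fin N → Fin N) : WE m n N
  | a (s : Fin 2) (i : Fin N) (k : Fin (m - 1)) : WE m n N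
  | b (s : Fin 2) (i : Fin N) : WE m n N
  | u (s : Fin 2) (i : Fin N) (f : Fin N → Fin N) : WE m n N
  | lam (s : Fin 2) (i : Fin N) (f : Fin N → Fin N) (k : Fin (n - 1)) : WE m n N
  | d (i : Fin N) (k : Fin (m - 2)) : WE m n N
  | e (i : Fin N) : WE m n N
  | c (i j : Fin N) : WE m n N
  | mu (i : Fin N) (f : Fin N → Fin N) (k : Fin (n - 1)) : WE m n N

/-- the points of the array structure -/
def wPt {m n N : ℕ} : WE m n N → Prop
  | WE.x _ => True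
  | WE.a _ _ _ => True
  | WE.u _ _ _ => True
  | WE.d _ _ => True
  | WE.c _ _ => True
  | _ => False

/-- the incidences of the array structure -/
def wInc {m n N : ℕ} : WE m n N → WE m n N → Prop
  | WE.x f, WE.lam _ _ f' _ => f = f'
  | WE.a s i _, WE.lam s' i' _ _ => s = s' ∧ i = i'
  | WE.a s i k, WE.b s' i' => s = s' ∧ i = i' ∧ (k : ℕ) ≠ 0
  | WE.u s i f, WE.lam s' i' f' _ => s = s' ∧ i = i' ∧ f = f'
  | WE.u s i _, WE.b s' i' => s = s' ∧ i = i'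
  | WE.u _ i f, WE.mu i' f' _ => i = i' ∧ f = f'
  | WE.d i _, WE.mu i' _ _ => i = i'
  | WE.d i _, WE.e i' => i = i'
  | WE.c i _, WE.e i' => i = i'
  | WE.c i j, WE.mu i' f _ => i = i' ∧ f i = j
  | _, _ => False

/-- colours of the points -/
def wCol {m n N : ℕ} : WE m n N → ℕ
  | WE.a _ _ k => k
  | WE.d _ k => (k : ℕ) + 1
  | _ => 0

/-- indices of the lines -/
def wIdx {m n N : ℕ} : WE m n N → ℕ
  | WE.lam _ _ _ k => k
  | WE.mu _ _ k => k
  | _ => 0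

theorem wW_cases {m n N : ℕ} (P l : WE m n N) (h : wInc P l) :
    ((∃ f, P = WE.x f) ∨ (∃ s i k, P = WE.a s i k) ∨ (∃ s i f, P = WE.u s i f) ∨
      (∃ i k, P = WE.d i k) ∨ ∃ i j, P = WE.c i j) ∧
    ((∃ s i, l = WE.b s i) ∨ (∃ s i f k, l = WE.lam s i f k) ∨ (∃ i, l = WE.e i) ∨
      ∃ i f k, l = WE.mu i f k) := by
  cases P <;> cases l <;> simp [wInc] at h ⊢

/-- row W1: two different lines with the same index have at most one common point of each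
colour -/
theorem w_unique {m n N : ℕ} (l l' P Q : WE m n N) (hl : l ≠ l') (hidx : wIdx l = wIdx l')
    (h1 : wInc P l) (h2 : wInc P l') (h3 : wInc Q l) (h4 : wInc Q l') (hc : wCol P = wCol Q) :
    P = Q := by
  obtain ⟨hP, hL⟩ := wW_cases P l h1
  obtain ⟨hQ, hL'⟩ := wW_cases Q l' h4
  rcases hL with ⟨s, i, rfl⟩ | ⟨s, i, f, k, rfl⟩ | ⟨i, rfl⟩ | ⟨i, f, k, rfl⟩ <;>
  rcases hL' with ⟨s', i', rfl⟩ | ⟨s', i', f', k', rfl⟩ | ⟨i', rfl⟩ | ⟨i', f', k', rfl⟩ <;>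
  rcases hP with ⟨g, rfl⟩ | ⟨r, j, v, rfl⟩ | ⟨r, j, g, rfl⟩ | ⟨j, v, rfl⟩ | ⟨j, v, rfl⟩ <;>
  simp only [wInc] at h1 h2 <;>
  rcases hQ with ⟨g', rfl⟩ | ⟨r', j', v', rfl⟩ | ⟨r', j', g', rfl⟩ | ⟨j', v', rfl⟩ | ⟨j', v', rfl⟩ <;>
  simp only [wInc, wCol, wIdx, add_left_inj, ← Fin.ext_iff] at h3 h4 hc hidx <;>
  first | omega | (simp_all; done) | (aesop; done)

end Pool.Agent.Lib.MP_9a7643_lc
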