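import Pool.Agent.Lib.MP_9a7643_lc.IncW

/-! row W2 -/

open FirstOrder Filter Cardinal

namespace Pool.Agent.Lib.MP_9a7643_lc

private theorem W2_col {m n N : ℕ} (hm : 2 ≤ m) (P : WE m n N) : wCol P < m - 1 := by
  cases P with
  | a s i k => exact k.isLt
  | d i k =>
    have := k.isLt
    change (k : ℕ) + 1 < m - 1
    omega
  | _ =>
    change 0 < m - 1
    omega

private theorem W2_idx {m n N : ℕ} (hn : 2 ≤ n) (P : WE m n N) : wIdx P < n - 1 := by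
  cases P with
  | lam s i f k => exact k.isLt
  | mu i f k => exact k.isLt
  | _ =>
    change 0 < n - 1
    omega

/-- row W2 -/
theorem w_isInc {m n N : ℕ} (hm : 2 ≤ m) (hn : 2 ≤ n) :
    (∀ P l : WE m n N, wInc P l → wPt P ∧ ¬ wPt l) ∧
    ∀ (p : Fin m → WE m n N) (l : Fin n → WE m n N), Function.Injective p →
      Function.Injective l → ¬ ∀ i j, wInc (p i) (l j) := by
  constructor
  · intro P l h
    cases P <;> cases l <;> first | exact h.elim | exact ⟨trivial, fun h' => h'⟩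
  · intro p l hp hl h
    obtain ⟨j, j', hj, hjj⟩ := Fintype.exists_ne_map_eq_of_card_lt
      (fun j : Fin n => (⟨wIdx (l j), W2_idx hn (l j)⟩ : Fin (n - 1)))
      (by rw [Fintype.card_fin, Fintype.card_fin]; omega)
    obtain ⟨i, i', hi, hii⟩ := Fintype.exists_ne_map_eq_of_card_lt
      (fun i : Fin m => (⟨wCol (p i), W2_col hm (p i)⟩ : Fin (m - 1)))
      (by rw [Fintype.card_fin, Fintype.card_fin]; omega)
    refine hi (hp (w_unique (l j) (l j') (p i) (p i') (fun h' => hj (hl h')) ?_ (h i j) (h i j')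
      (h i' j) (h i' j') ?_))
    · exact congrArg Fin.val hjj
    · exact congrArg Fin.val hii

/-- row W2 -/
theorem w_finite (m n N : ℕ) : Finite (WE m n N) := by
  refine Finite.of_surjective
    (fun t : (Fin N → Fin N) ⊕ (Fin 2 × Fin N × Fin (m - 1)) ⊕ (Fin 2 × Fin N) ⊕
      (Fin 2 × Fin N × (Fin N → Fin N)) ⊕ (Fin 2 × Fin N × (Fin N → Fin N) × Fin (n - 1)) ⊕
      (Fin N × Fin (m - 2)) ⊕ (Fin N) ⊕ (Fin N × Fin N) ⊕
      (Fin N × (Fin N → Fin N) × Fin (n - 1)) =>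
      (Sum.elim (fun f => WE.x f) <| Sum.elim (fun q => WE.a q.1 q.2.1 q.2.2) <|
        Sum.elim (fun q => WE.b q.1 q.2) <| Sum.elim (fun q => WE.u q.1 q.2.1 q.2.2) <|
        Sum.elim (fun q => WE.lam q.1 q.2.1 q.2.2.1 q.2.2.2) <|
        Sum.elim (fun q => WE.d q.1 q.2) <| Sum.elim (fun q => WE.e q) <|
        Sum.elim (fun q => WE.c q.1 q.2) (fun q => WE.mu q.1 q.2.1 q.2.2) : _ → WE m n N) t) ?_
  intro y
  cases y with
  | x f => exact ⟨Sum.inl f, rfl⟩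
  | a s i k => exact ⟨Sum.inr (Sum.inl (s, i, k)), rfl⟩
  | b s i => exact ⟨Sum.inr (Sum.inr (Sum.inl (s, i))), rfl⟩
  | u s i f => exact ⟨Sum.inr (Sum.inr (Sum.inr (Sum.inl (s, i, f)))), rfl⟩
  | lam s i f k => exact ⟨Sum.inr (Sum.inr (Sum.inr (Sum.inr (Sum.inl (s, i, f, k))))), rfl⟩
  | d i k => exact ⟨Sum.inr (Sum.inr (Sum.inr (Sum.inr (Sum.inr (Sum.inl (i, k)))))), rfl⟩
  | e i => exact ⟨Sum.inr (Sum.inr (Sum.inr (Sum.inr (Sum.inr (Sum.inr (Sum.inl i)))))), rfl⟩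
  | c i j =>
    exact ⟨Sum.inr (Sum.inr (Sum.inr (Sum.inr (Sum.inr (Sum.inr (Sum.inr (Sum.inl (i, j)))))))),
      rfl⟩
  | mu i f k =>
    exact ⟨Sum.inr (Sum.inr (Sum.inr (Sum.inr (Sum.inr (Sum.inr (Sum.inr (Sum.inr
      (i, f, k)))))))), rfl⟩

end Pool.Agent.Lib.MP_9a7643_lc
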