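import Pool.Agent.Lib.MP_9a7643_lc.StBase

/-! row AT: one index -/

open FirstOrder Filter Cardinal

namespace Pool.Agent.Lib.MP_9a7643_lc

section
variable {t k : ℕ} {A B : Type} [(Lst k).Structure A] [(Lst k).Structure B]

/-- A block with a new element contains less than `t` old elements. -/
theorem st_not_old (hA : StFull t k A) (hB : IsSt t k B) (j : A ↪[Lst k] B) (x : Fin k → B)
    (hx : Blk x) (hnew : ∃ i, x i ∉ Set.range j) (p : Fin t → A) (hp : Function.Injective p) :
    ¬ Set.range (fun i => j (p i)) ⊆ Set.range x := by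
  intro h
  obtain ⟨y, hy, hpy⟩ := hA.2 p hp
  have h1 : Blk (j ∘ y) := (emb_blk j y).2 hy
  have h2 : Set.range x = Set.range (j ∘ y) := by
    refine hB.2.2 x (j ∘ y) hx h1 (fun i => j (p i)) (j.injective.comp hp) h ?_
    rintro _ ⟨i, rfl⟩
    obtain ⟨l, hl⟩ := hpy ⟨i, rfl⟩
    exact ⟨l, congrArg j hl⟩
  obtain ⟨i, hi⟩ := hnew
  obtain ⟨l, hl⟩ : x i ∈ Set.range (j ∘ y) := h2 ▸ ⟨i, rfl⟩
  exact hi ⟨y l, hl⟩

/-- the elements of a fact -/
private def stat_elts (e : (B × B) ⊕ (Fin k → B)) : Set B :=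
  Sum.elim (fun e : B × B => ({e.1, e.2} : Set B)) (fun x => Set.range x) e

omit [(Lst k).Structure B] in
private theorem stat_finite (F : Set ((B × B) ⊕ (Fin k → B))) (hF : F.Finite) :
    {b : B | ∃ e ∈ F, b ∈ stat_elts e}.Finite := by
  have h : (⋃ e ∈ F, stat_elts e).Finite := by
    refine hF.biUnion ?_
    rintro (e | x) _
    · exact (Set.finite_singleton _).insert _
    · exact Set.finite_range x
  refine h.subset ?_
  rintro b ⟨e, he, hb⟩
  exact Set.mem_biUnion he hb

/-- the pattern of row AT -/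
private def stat_pat {M : Type} [(Lst k).Structure M] (r : A → M) (j : A ↪[Lst k] B)
    (F : Set ((B × B) ⊕ (Fin k → B)))
    (p : A → Prop) (q : B → Prop) : StPat k {a : A // p a} {b : B // q b} := fun x =>
  (∃ x' : Fin k → {a : A // p a}, x = Sum.inl ∘ x' ∧ Blk (fun i => r (x' i).1)) ∨
    ((∃ i b, x i = Sum.inr b) ∧
      Blk (fun i => (Sum.elim (fun a : {a : A // p a} => j a.1) (fun b : {b : B // q b} => b.1)) (x i)) ∧
      ∃ x' : Fin k → B, Sum.inr x' ∈ F ∧ Set.range x' =
        Set.range (fun i => (Sum.elim (fun a : {a : A // p a} => j a.1)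
          (fun b : {b : B // q b} => b.1)) (x i)))

/-- One index: finitely many tuples are respected. -/
theorem st_solve_at {M : Type} [(Lst k).Structure M] [Nonempty M]
    (hM : StRich t k M) (hI : IsSt t k M) (hA : StFull t k A) (hB : IsSt t k B)
    (j : A ↪[Lst k] B) (r : A → M) (F : Set ((B × B) ⊕ (Fin k → B))) (hF : F.Finite)
    (hr : ∀ a a' : A, a ≠ a' →
      (∃ e ∈ F, j a ∈ Sum.elim (fun e : B × B => ({e.1, e.2} : Set B)) (fun x => Set.range x) e) →
      (∃ e ∈ F, j a' ∈ Sum.elim (fun e : B × B => ({e.1, e.2} : Set B)) (fun x => Set.range x) e) →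
      r a ≠ r a') :
    ∃ H : B → M, (∀ a, H (j a) = r a) ∧
      (∀ b b', Sum.inl (b, b') ∈ F → b ≠ b' → H b ≠ H b') ∧
      ∀ x, Sum.inr x ∈ F → (∃ i, x i ∉ Set.range j) → (Blk (H ∘ x) ↔ Blk x) := by
  classical
  have hj : Function.Injective j := j.injective
  let p : A → Prop := fun a => ∃ e ∈ F, j a ∈ stat_elts e
  let q : B → Prop := fun b => b ∉ Set.range j ∧ ∃ e ∈ F, b ∈ stat_elts e
  have hJ := stat_finite F hF
  have hα : Finite {a : A // p a} := by
    have h1 : (j ⁻¹' {b : B | ∃ e ∈ F, b ∈ stat_elts e}).Finite := hJ.preimage hj.injOn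
    exact (h1.subset (t := {a : A | p a}) (fun a ha => ha)).to_subtype
  have hβ : Finite {b : B // q b} :=
    (hJ.subset (t := {b : B | q b}) (fun b hb => hb.2)).to_subtype
  let σ : {a : A // p a} ⊕ {b : B // q b} → B := Sum.elim (fun a => j a.1) (fun b => b.1)
  have hσ : Function.Injective σ := by
    rintro (a | b) (a' | b') h
    · exact congrArg Sum.inl (Subtype.ext (hj h))
    · exact absurd ⟨a.1, h⟩ b'.2.1
    · exact absurd ⟨a'.1, h.symm⟩ b.2.1
    · exact congrArg Sum.inr (Subtype.ext h)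
  have hσr : ∀ b, (∃ e ∈ F, b ∈ stat_elts e) → ∃ c, σ c = b := by
    intro b hb
    by_cases hbj : b ∈ Set.range j
    · obtain ⟨a, rfl⟩ := hbj
      exact ⟨Sum.inl ⟨a, hb⟩, rfl⟩
    · exact ⟨Sum.inr ⟨b, hbj, hb⟩, rfl⟩
  have hσn : ∀ c, σ c ∉ Set.range j → ∃ b, c = Sum.inr b := by
    rintro (a | b) h
    · exact absurd ⟨a.1, rfl⟩ h
    · exact ⟨b, rfl⟩
  let P : StPat k {a : A // p a} {b : B // q b} := stat_pat r j F p q
  have hP1 : ∀ x : Fin k → {a : A // p a} ⊕ {b : B // q b}, P x ↔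
      (∃ x' : Fin k → {a : A // p a}, x = Sum.inl ∘ x' ∧ Blk (fun i => r (x' i).1)) ∨
      ((∃ i b, x i = Sum.inr b) ∧ Blk (σ ∘ x) ∧
        ∃ x' : Fin k → B, Sum.inr x' ∈ F ∧ Set.range x' = Set.range (σ ∘ x)) := fun x => Iff.rfl
  have hrinj : Function.Injective (fun a : {a : A // p a} => r a.1) := by
    intro a a' h
    by_contra hne
    exact hr a.1 a'.1 (fun h => hne (Subtype.ext h)) a.2 a'.2 h
  have hnewσ : ∀ x : Fin k → {a : A // p a} ⊕ {b : B // q b}, (∃ i b, x i = Sum.inr b) →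
      ∃ i, (σ ∘ x) i ∉ Set.range j := by
    rintro x ⟨i, b, hi⟩
    refine ⟨i, ?_⟩
    change σ (x i) ∉ _
    rw [hi]
    exact b.2.1
  have hnotold : ∀ x : Fin k → {a : A // p a} ⊕ {b : B // q b}, (∃ i b, x i = Sum.inr b) →
      Blk (σ ∘ x) → ∀ u : Fin t → {a : A // p a}, Function.Injective u →
      ¬ Set.range (fun i => (Sum.inl (u i) : {a : A // p a} ⊕ {b : B // q b})) ⊆ Set.range x := by
    intro x hx hb u hu hsub
    refine st_not_old hA hB j (σ ∘ x) hb (hnewσ x hx) (fun i => (u i).1)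
      (fun i i' h => hu (Subtype.ext h)) ?_
    rintro _ ⟨i, rfl⟩
    obtain ⟨l, hl⟩ := hsub ⟨i, rfl⟩
    exact ⟨l, congrArg σ hl⟩
  have hlift : ∀ (x' : Fin k → {a : A // p a}) (u : Fin t → {a : A // p a} ⊕ {b : B // q b}),
      Function.Injective u → Set.range u ⊆ Set.range
        ((Sum.inl : {a : A // p a} → {a : A // p a} ⊕ {b : B // q b}) ∘ x') →
      ∃ u' : Fin t → {a : A // p a}, Function.Injective u' ∧ (∀ i, u i = Sum.inl (u' i)) ∧
        Set.range u' ⊆ Set.range x' := by
    intro x' u hu hsub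
    have h1 : ∀ i, ∃ l, Sum.inl (x' l) = u i := fun i => by
      obtain ⟨l, hl⟩ := hsub ⟨i, rfl⟩
      exact ⟨l, hl⟩
    choose l hl using h1
    refine ⟨fun i => x' (l i), ?_, fun i => (hl i).symm, ?_⟩
    · intro i i' h
      apply hu
      rw [← hl, ← hl]
      exact congrArg Sum.inl h
    · rintro _ ⟨i, rfl⟩
      exact ⟨l i, rfl⟩
  have hGood : P.Good t := by
    refine ⟨?_, ?_, ?_, ?_⟩
    · intro x hx
      rcases (hP1 x).1 hx with ⟨x', rfl, h⟩ | ⟨_, h, _⟩
      · have h1 := hI.1 _ h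
        intro i i' hii
        apply h1
        have h2 : x' i = x' i' := Sum.inl_injective hii
        change r (x' i).1 = r (x' i').1
        rw [h2]
      · have h1 := hB.1 _ h
        intro i i' hii
        apply h1
        exact congrArg σ hii
    · intro x τ hx
      rcases (hP1 x).1 hx with ⟨x', rfl, h⟩ | ⟨⟨i, b, hi⟩, h, x', hx', hrx⟩
      · exact (hP1 _).2 (Or.inl ⟨x' ∘ τ, rfl, hI.2.1 _ τ h⟩)
      · refine (hP1 _).2 (Or.inr ⟨⟨τ.symm i, b, ?_⟩, hB.2.1 _ τ h, x', hx', ?_⟩)
        · change x (τ (τ.symm i)) = _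
          rw [Equiv.apply_symm_apply]
          exact hi
        · rw [hrx]
          exact (τ.surjective.range_comp (σ ∘ x)).symm
    · intro x y hx hy u hu hux huy
      rcases (hP1 x).1 hx with ⟨x', rfl, h⟩ | ⟨hnx, h, _⟩
      · rcases (hP1 y).1 hy with ⟨y', rfl, h'⟩ | ⟨hny, h', _⟩
        · obtain ⟨u', hu', hu1, hu2⟩ := hlift x' u hu hux
          obtain ⟨u'', hu'', hu1', hu2'⟩ := hlift y' u hu huy
          have heq : u' = u'' := by
            funext i
            have := (hu1 i).symm.trans (hu1' i)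
            exact Sum.inl_injective this
          subst heq
          have h3 := hI.2.2 _ _ h h' (fun i => r (u' i).1) (hrinj.comp hu') (by
              rintro _ ⟨i, rfl⟩
              obtain ⟨l, hl⟩ := hu2 ⟨i, rfl⟩
              exact ⟨l, congrArg (fun a : {a : A // p a} => r a.1) hl⟩) (by
              rintro _ ⟨i, rfl⟩
              obtain ⟨l, hl⟩ := hu2' ⟨i, rfl⟩
              exact ⟨l, congrArg (fun a : {a : A // p a} => r a.1) hl⟩)
          have h4 : (fun a : {a : A // p a} => r a.1) '' Set.range x' =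
              (fun a : {a : A // p a} => r a.1) '' Set.range y' := by
            rw [← Set.range_comp, ← Set.range_comp]
            exact h3
          have h5 := hrinj.image_injective h4
          rw [Set.range_comp, Set.range_comp, h5]
        · exfalso
          obtain ⟨u', hu', hu1, hu2⟩ := hlift x' u hu hux
          refine hnotold y hny h' u' hu' ?_
          rintro _ ⟨i, rfl⟩
          have h6 := huy ⟨i, rfl⟩
          rw [hu1 i] at h6
          exact h6
      · rcases (hP1 y).1 hy with ⟨y', rfl, h'⟩ | ⟨hny, h', _⟩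
        · exfalso
          obtain ⟨u', hu', hu1, hu2⟩ := hlift y' u hu huy
          refine hnotold x hnx h u' hu' ?_
          rintro _ ⟨i, rfl⟩
          have h6 := hux ⟨i, rfl⟩
          rw [hu1 i] at h6
          exact h6
        · have h3 := hB.2.2 _ _ h h' (σ ∘ u) (hσ.comp hu) (by
              rintro _ ⟨i, rfl⟩
              obtain ⟨l, hl⟩ := hux ⟨i, rfl⟩
              exact ⟨l, congrArg σ hl⟩) (by
              rintro _ ⟨i, rfl⟩
              obtain ⟨l, hl⟩ := huy ⟨i, rfl⟩
              exact ⟨l, congrArg σ hl⟩)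
          rw [Set.range_comp, Set.range_comp] at h3
          exact hσ.image_injective h3
    · intro x hx hnew u hu
      rcases (hP1 x).1 hx with ⟨x', rfl, h⟩ | ⟨hnx, h, _⟩
      · obtain ⟨i, b, hi⟩ := hnew
        exact absurd hi (by
          intro h7
          cases h7)
      · exact hnotold x hnx h u hu
  obtain ⟨y, hy1, hy2⟩ := hM _ _ P hGood (fun a => r a.1) ⟨hrinj, by
    intro x
    rw [hP1]
    constructor
    · intro h
      exact Or.inl ⟨x, rfl, h⟩
    · rintro (⟨x', hx', h⟩ | ⟨⟨i, b, hi⟩, _⟩)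
      · have h8 : x = x' := by
          funext i
          exact Sum.inl_injective (congrFun hx' i)
        subst h8
        exact h
      · cases hi⟩
  let z : {a : A // p a} ⊕ {b : B // q b} → M := Sum.elim (fun a => r a.1) y
  let H : B → M := fun b =>
    if h : ∃ a, j a = b then r h.choose
    else if h' : ∃ c, σ c = b then z h'.choose else Classical.arbitrary M
  have hHj : ∀ a, H (j a) = r a := by
    intro a
    have h : ∃ a', j a' = j a := ⟨a, rfl⟩
    have h' : h.choose = a := hj h.choose_spec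
    simp only [H]
    rw [dif_pos h, h']
  have hHσ : ∀ c, H (σ c) = z c := by
    intro c
    by_cases h : ∃ a, j a = σ c
    · rcases c with a | b
      · exact hHj a.1
      · exact absurd h b.2.1
    · have h' : ∃ c', σ c' = σ c := ⟨c, rfl⟩
      have h'' : h'.choose = c := hσ h'.choose_spec
      simp only [H]
      rw [dif_neg h, dif_pos h', h'']
  refine ⟨H, hHj, ?_, ?_⟩
  · intro b b' hbb hne heq
    obtain ⟨c, rfl⟩ := hσr b ⟨_, hbb, Or.inl rfl⟩
    obtain ⟨c', rfl⟩ := hσr b' ⟨_, hbb, Or.inr rfl⟩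
    rw [hHσ, hHσ] at heq
    exact hne (by rw [hy1 heq])
  · intro x hx hnew
    have h9 : ∀ i, ∃ c, σ c = x i := fun i => hσr (x i) ⟨_, hx, i, rfl⟩
    choose c hc using h9
    have hcx : x = σ ∘ c := by
      funext i
      exact (hc i).symm
    have hHx : H ∘ x = z ∘ c := by
      funext i
      change H (x i) = z (c i)
      rw [← hc, hHσ]
    rw [hHx]
    refine (hy2 c).trans ?_
    rw [hP1]
    constructor
    · rintro (⟨x', hx', h⟩ | ⟨_, h, _⟩)
      · exfalso
        obtain ⟨i, hi⟩ := hnew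
        apply hi
        rw [← hc, hx']
        exact ⟨(x' i).1, rfl⟩
      · rw [hcx]
        exact h
    · intro h
      refine Or.inr ⟨?_, ?_, x, hx, ?_⟩
      · obtain ⟨i, hi⟩ := hnew
        rw [← hc] at hi
        obtain ⟨b, hb⟩ := hσn _ hi
        exact ⟨i, b, hb⟩
      · rw [← hcx]
        exact h
      · rw [← hcx]

end

end Pool.Agent.Lib.MP_9a7643_lc
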