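import Pool.Agent.Lib.MP_9a7643_lc.Bin2
import Pool.Agent.Lib.MP_9a7643_lc.IncBase

/-!
# Generic Steiner systems: definitions, patterns, formulas
-/

open FirstOrder Filter Cardinal

namespace Pool.Agent.Lib.MP_9a7643_lc

/-- the relation symbol: `blk x₁ … x_k` says that `{x₁, …, x_k}` is a block -/
inductive StRel (k : ℕ) : ℕ → Type
  | blk : StRel k k

/-- the language with one relation symbol of arity `k` -/
def Lst (k : ℕ) : FirstOrder.Language.{0, 0} := ⟨fun _ => Empty, StRel k⟩

/-- the symbol -/
def blkR (k : ℕ) : (Lst k).Relations k := StRel.blk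

/-- `x` enumerates a block -/
def Blk {k : ℕ} {A : Type} [(Lst k).Structure A] (x : Fin k → A) : Prop :=
  Language.Structure.RelMap (blkR k) x

/-- `A` is a partial Steiner system: blocks have `k` different elements (in any order), and
different blocks have less than `t` common elements. -/
def IsSt (t k : ℕ) (A : Type) [(Lst k).Structure A] : Prop :=
  (∀ x : Fin k → A, Blk x → Function.Injective x) ∧
  (∀ (x : Fin k → A) (σ : Equiv.Perm (Fin k)), Blk x → Blk (x ∘ σ)) ∧
  ∀ x y : Fin k → A, Blk x → Blk y → ∀ p : Fin t → A, Function.Injective p →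
    Set.range p ⊆ Set.range x → Set.range p ⊆ Set.range y → Set.range x = Set.range y

/-- `M` is existentially closed in the class of partial Steiner systems. -/
def IsECSt (t k : ℕ) (M : Type) [(Lst k).Structure M] : Prop :=
  IsSt t k M ∧ ∀ (r : ℕ) (φ : (Lst k).Formula (M ⊕ Fin r)), φ.IsQF →
    ∀ (M' : Type) [(Lst k).Structure M'], IsSt t k M' → ∀ (e : M ↪[Lst k] M'),
      (∃ y : Fin r → M', φ.Realize (Sum.elim e y)) → ∃ y : Fin r → M, φ.Realize (Sum.elim id y)

/-- every `t` different elements lie in a block -/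
def StFull (t k : ℕ) (A : Type) [(Lst k).Structure A] : Prop :=
  IsSt t k A ∧ ∀ p : Fin t → A, Function.Injective p → ∃ x : Fin k → A, Blk x ∧
    Set.range p ⊆ Set.range x

/-- A pattern on `α ⊕ β` (`α` old, `β` new elements): the enumerations of blocks. -/
abbrev StPat (k : ℕ) (α β : Type) : Type := (Fin k → α ⊕ β) → Prop

/-- the old part of the pattern is realized by `a` -/
def StPat.Old {k : ℕ} {α β : Type} (P : StPat k α β) {M : Type} [(Lst k).Structure M]
    (a : α → M) : Prop :=
  Function.Injective a ∧ ∀ x : Fin k → α, Blk (a ∘ x) ↔ P (Sum.inl ∘ x)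

/-- the pattern is realized by `z` -/
def StPat.Real {k : ℕ} {α β : Type} (P : StPat k α β) {M : Type} [(Lst k).Structure M]
    (z : α ⊕ β → M) : Prop :=
  Function.Injective z ∧ ∀ x : Fin k → α ⊕ β, Blk (z ∘ x) ↔ P x

/-- a partial Steiner system on `α ⊕ β` in which a block with a new element has less than `t` old
elements -/
structure StPat.Good {k : ℕ} {α β : Type} (t : ℕ) (P : StPat k α β) : Prop where
  inj : ∀ x, P x → Function.Injective x
  symm : ∀ (x) (σ : Equiv.Perm (Fin k)), P x → P (x ∘ σ)
  free : ∀ x y, P x → P y → ∀ p : Fin t → α ⊕ β, Function.Injective p →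
    Set.range p ⊆ Set.range x → Set.range p ⊆ Set.range y → Set.range x = Set.range y
  newB : ∀ x, P x → (∃ i b, x i = Sum.inr b) → ∀ p : Fin t → α, Function.Injective p →
    ¬ Set.range (fun i => (Sum.inl (p i) : α ⊕ β)) ⊆ Set.range x

/-- good patterns are realized over every realization of the old part -/
def StRich (t k : ℕ) (M : Type) [(Lst k).Structure M] : Prop :=
  ∀ (α β : Type) [Finite α] [Finite β] (P : StPat k α β), P.Good t → ∀ a : α → M, P.Old a →
    ∃ y : β → M, P.Real (Sum.elim a y)

/-- structures on a type -/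
@[reducible]
def stStr {k : ℕ} {A : Type} (blk : (Fin k → A) → Prop) : (Lst k).Structure A where
  funMap := fun f _ => (f : Empty).elim
  RelMap := fun {_} R => match R with
    | StRel.blk => fun v => blk v

theorem stStr_blk {k : ℕ} {A : Type} (blk : (Fin k → A) → Prop) (x : Fin k → A) :
    (let _ := stStr blk; Blk x) ↔ blk x := Iff.rfl

theorem stRel_iff {k : ℕ} {A B : Type} [(Lst k).Structure A] [(Lst k).Structure B] (h : A → B)
    (h1 : ∀ x : Fin k → A, Blk (h ∘ x) ↔ Blk x) {r : ℕ} (R : (Lst k).Relations r)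
    (v : Fin r → A) : Language.Structure.RelMap R (h ∘ v) ↔ Language.Structure.RelMap R v := by
  cases R with
  | blk => exact h1 v

/-- embeddings -/
def stEmb {k : ℕ} {A B : Type} [(Lst k).Structure A] [(Lst k).Structure B] (h : A → B)
    (h0 : Function.Injective h) (h1 : ∀ x : Fin k → A, Blk (h ∘ x) ↔ Blk x) : A ↪[Lst k] B where
  toFun := h
  inj' := h0
  map_fun' := fun f _ => (f : Empty).elim
  map_rel' := fun R v => stRel_iff h h1 R v

theorem emb_blk {k : ℕ} {A B : Type} [(Lst k).Structure A] [(Lst k).Structure B]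
    (j : A ↪[Lst k] B) (x : Fin k → A) : Blk (j ∘ x) ↔ Blk x := j.map_rel (blkR k) x

/-- the formula saying that `x` enumerates a block -/
def blkF {k : ℕ} {γ : Type} (x : Fin k → γ) : (Lst k).Formula γ :=
  Language.Relations.formula (blkR k) (fun i => Language.Term.var (x i))

theorem realize_blkF {k : ℕ} {γ : Type} (x : Fin k → γ) {M : Type} [(Lst k).Structure M]
    (v : γ → M) : (blkF x).Realize v ↔ Blk (v ∘ x) := by
  rw [blkF, Language.Formula.realize_rel]
  exact Iff.rfl

/-- the diagram of a finite structure -/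
noncomputable def stDiag {k : ℕ} {γ : Type} [Finite γ] (P : (Fin k → γ) → Prop) :
    (Lst k).Formula γ :=
  neqForm γ ⊓ Language.Formula.iInf (fun x : Fin k → γ => lit (P x) (blkF x))

theorem realize_stDiag {k : ℕ} {γ : Type} [Finite γ] (P : (Fin k → γ) → Prop) {M : Type}
    [(Lst k).Structure M] (z : γ → M) : (stDiag P).Realize z ↔
      Function.Injective z ∧ ∀ x : Fin k → γ, Blk (z ∘ x) ↔ P x := by
  rw [stDiag, Language.Formula.realize_inf, realize_neqForm, Language.Formula.realize_iInf]
  refine and_congr Iff.rfl (forall_congr' fun x => ?_)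
  rw [realize_lit, realize_blkF]

theorem isQF_stDiag {k : ℕ} {γ : Type} [Finite γ] (P : (Fin k → γ) → Prop) :
    (stDiag P).IsQF := by
  refine Language.BoundedFormula.IsQF.inf ?_ ?_
  · exact isQF_iInf _ (fun p => (isQF_equal _ _).not)
  · exact isQF_iInf _ (fun p => isQF_lit _ _ (isQF_rel _ _))

/-- the blocks of the amalgam of `M` and the pattern -/
def stAm {k : ℕ} {α β : Type} (P : StPat k α β) {M : Type} [(Lst k).Structure M] (a : α → M)
    (u : Fin k → M ⊕ β) : Prop :=
  (∃ x : Fin k → M, u = Sum.inl ∘ x ∧ Blk x) ∨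
    ((∃ i b, u i = Sum.inr b) ∧ ∃ x : Fin k → α ⊕ β, u = Sum.map a id ∘ x ∧ P x)

/-- the amalgam of `M` and the pattern -/
@[reducible]
def stAmStr {k : ℕ} {α β : Type} (P : StPat k α β) {M : Type} [(Lst k).Structure M]
    (a : α → M) : (Lst k).Structure (M ⊕ β) := stStr (stAm P a)

theorem countable_Lst (k : ℕ) : Countable (Lst k).Symbols := by
  have h1 : Countable (Σ r, (Lst k).Functions r) := by
    refine (?_ : Function.Injective (fun x : (Σ r, (Lst k).Functions r) => x.1)).countable
    rintro ⟨r, f⟩
    exact (f : Empty).elim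
  have h2 : Countable (Σ r, (Lst k).Relations r) := by
    refine (?_ : Function.Injective (fun x : (Σ r, (Lst k).Relations r) => x.1)).countable
    rintro ⟨r, R⟩ ⟨r', R'⟩ h
    simp only at h
    subst h
    cases R
    cases R'
    rfl
  change Countable ((Σ r, (Lst k).Functions r) ⊕ (Σ r, (Lst k).Relations r))
  infer_instance

/-- the theory of a structure -/
noncomputable def stTheory (k : ℕ) (M : Type) [(Lst k).Structure M] [Nonempty M] : CTheory where
  L := Lst k
  countable := countable_Lst k
  T := (Lst k).completeTheory M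
  complete := Language.completeTheory.isComplete (Lst k) M

end Pool.Agent.Lib.MP_9a7643_lc
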