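import Pool.Agent.Lib.MP_9a7643_lc.StBase

/-! row EC1: existentially closed Steiner systems -/

open FirstOrder Filter Cardinal

namespace Pool.Agent.Lib.MP_9a7643_lc

private theorem stec1_old {k : ℕ} {α β : Type} (P : StPat k α β) {M : Type}
    [(Lst k).Structure M] (a : α → M) (x : Fin k → M) :
    stAm P a (Sum.inl ∘ x) ↔ Blk x := by
  constructor
  · rintro (⟨x', hx, h⟩ | ⟨⟨i, b, hb⟩, _⟩)
    · have : x = x' := by
        funext i
        exact Sum.inl_injective (congrFun hx i)
      rw [this]
      exact h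
    · exact absurd hb Sum.inl_ne_inr
  · intro h
    exact Or.inl ⟨x, rfl, h⟩

private theorem stec1_blk {k : ℕ} {α β : Type} (P : StPat k α β) {M : Type}
    [(Lst k).Structure M] (a : α → M) (ha : P.Old a) (x : Fin k → α ⊕ β) :
    stAm P a (Sum.map a id ∘ x) ↔ P x := by
  have hinj : Function.Injective (Sum.map a id : α ⊕ β → M ⊕ β) :=
    Sum.map_injective.2 ⟨ha.1, Function.injective_id⟩
  constructor
  · rintro (⟨x', hx, h⟩ | ⟨_, x', hx, h⟩)
    · have hex : ∀ i, ∃ c : α, x i = Sum.inl c := by
        intro i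
        have h1 : Sum.map a id (x i) = Sum.inl (x' i) := congrFun hx i
        rcases hxi : x i with c | b
        · exact ⟨c, rfl⟩
        · rw [hxi, Sum.map_inr] at h1
          exact absurd h1 Sum.inr_ne_inl
      choose c hc using hex
      have hxc : x = Sum.inl ∘ c := funext hc
      have hx' : x' = a ∘ c := by
        funext i
        have h1 : Sum.map a id (x i) = Sum.inl (x' i) := congrFun hx i
        rw [hc i, Sum.map_inl] at h1
        exact (Sum.inl_injective h1).symm
      rw [hxc]
      rw [hx'] at h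
      exact (ha.2 c).1 h
    · have : x = x' := by
        funext i
        exact hinj (congrFun hx i)
      rw [this]
      exact h
  · intro h
    by_cases hb : ∃ i b, x i = Sum.inr b
    · obtain ⟨i, b, hib⟩ := hb
      refine Or.inr ⟨⟨i, b, ?_⟩, x, rfl, h⟩
      show Sum.map a id (x i) = Sum.inr b
      rw [hib]
      rfl
    · have hex : ∀ i, ∃ c : α, x i = Sum.inl c := by
        intro i
        rcases hxi : x i with c | b
        · exact ⟨c, rfl⟩
        · exact absurd ⟨i, b, hxi⟩ hb
      choose c hc using hex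
      have hxc : x = Sum.inl ∘ c := funext hc
      rw [hxc] at h
      refine Or.inl ⟨a ∘ c, ?_, (ha.2 c).2 h⟩
      rw [hxc]
      rfl

/-- row EC1. A pattern whose amalgam with `M` is again in the class is realized in `M`. -/
theorem st_ec_solve {t k : ℕ} {M : Type} [(Lst k).Structure M] (h : IsECSt t k M) {α β : Type}
    [Finite α] [Finite β] (P : StPat k α β) (a : α → M) (ha : P.Old a)
    (hA : let _ := stAmStr P a; IsSt t k (M ⊕ β)) : ∃ y : β → M, P.Real (Sum.elim a y) := by
  obtain ⟨r, ⟨e⟩⟩ := Finite.exists_equiv_fin β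
  let _ : (Lst k).Structure (M ⊕ β) := stAmStr P a
  have hinj : Function.Injective (Sum.map a id : α ⊕ β → M ⊕ β) :=
    Sum.map_injective.2 ⟨ha.1, Function.injective_id⟩
  let emb : M ↪[Lst k] (M ⊕ β) := stEmb (A := M) (B := M ⊕ β) Sum.inl Sum.inl_injective
    (fun x => stec1_old P a x)
  obtain ⟨y, hy⟩ := h.2 r ((stDiag P).relabel (Sum.map a e))
    ((isQF_stDiag P).relabel _) (M ⊕ β) hA emb
    ⟨fun i => Sum.inr (e.symm i), by
      rw [Language.Formula.realize_relabel, realize_stDiag]
      have h1 : (Sum.elim (⇑emb) (fun i => Sum.inr (e.symm i)) ∘ Sum.map a e : α ⊕ β → M ⊕ β) =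
          Sum.map a id := by
        funext i
        rcases i with i | i
        · rfl
        · simp
      rw [h1]
      exact ⟨hinj, fun x => stec1_blk P a ha x⟩⟩
  refine ⟨fun i => y (e i), ?_⟩
  rw [Language.Formula.realize_relabel, realize_stDiag] at hy
  have h2 : (Sum.elim id y ∘ Sum.map a e : α ⊕ β → M) = Sum.elim a (fun i => y (e i)) := by
    funext i
    rcases i with i | i <;> rfl
  rw [h2] at hy
  exact hy

end Pool.Agent.Lib.MP_9a7643_lc
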