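import Pool.Agent.Lib.MP_9a7643_lc.StEC

/-! row EC2 -/

open FirstOrder Filter Cardinal

namespace Pool.Agent.Lib.MP_9a7643_lc

private theorem stec2_inj {α β M : Type} {a : α → M} (ha : Function.Injective a) :
    Function.Injective (Sum.map a id : α ⊕ β → M ⊕ β) :=
  Sum.map_injective.2 ⟨ha, Function.injective_id⟩

private theorem stec2_inl {α β M : Type} {a : α → M} {x : M} {y : α ⊕ β}
    (h : Sum.map a id y = (Sum.inl x : M ⊕ β)) : ∃ c, y = Sum.inl c ∧ a c = x := by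
  rcases y with y | y
  · exact ⟨y, rfl, Sum.inl.inj h⟩
  · cases h

private theorem stec2_inr {α β M : Type} {a : α → M} {b : β} {y : α ⊕ β}
    (h : Sum.map a id y = (Sum.inr b : M ⊕ β)) : y = Sum.inr b := by
  rcases y with y | y
  · cases h
  · exact congrArg Sum.inr (Sum.inr.inj h)

private theorem stec2_mixed {t k : ℕ} {M : Type} {α β : Type}
    (P : StPat k α β) (hP : P.Good t) (a : α → M) (x : Fin k → M) (y : Fin k → α ⊕ β) (hy : P y)
    (hn : ∃ i b, (Sum.map a id ∘ y : Fin k → M ⊕ β) i = Sum.inr b) (p : Fin t → M ⊕ β)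
    (hp : Function.Injective p) (h1 : Set.range p ⊆ Set.range (Sum.inl ∘ x : Fin k → M ⊕ β))
    (h2 : Set.range p ⊆ Set.range (Sum.map a id ∘ y : Fin k → M ⊕ β)) : False := by
  have h3 : ∀ i, ∃ c, p i = Sum.inl (a c) ∧ Sum.inl c ∈ Set.range y := by
    intro i
    obtain ⟨j, hj⟩ := h1 ⟨i, rfl⟩
    obtain ⟨j', hj'⟩ := h2 ⟨i, rfl⟩
    have e1 : p i = Sum.inl (x j) := hj.symm
    have e2 : Sum.map a id (y j') = (Sum.inl (x j) : M ⊕ β) := by
      rw [← e1]
      exact hj'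
    obtain ⟨c, hc1, hc2⟩ := stec2_inl e2
    exact ⟨c, by rw [hc2]; exact e1, ⟨j', hc1⟩⟩
  choose c hc1 hc2 using h3
  refine hP.newB y hy ?_ c ?_ ?_
  · obtain ⟨i, b, hb⟩ := hn
    exact ⟨i, b, stec2_inr hb⟩
  · intro i i' hii
    apply hp
    rw [hc1, hc1, hii]
  · rintro _ ⟨i, rfl⟩
    exact hc2 i

private theorem stec2_main {t k : ℕ} {M : Type} [(Lst k).Structure M] (h : IsSt t k M) {α β : Type}
    (P : StPat k α β) (hP : P.Good t) (a : α → M) (ha : P.Old a) :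
    (∀ x : Fin k → M ⊕ β, stAm P a x → Function.Injective x) ∧
    (∀ (x : Fin k → M ⊕ β) (σ : Equiv.Perm (Fin k)), stAm P a x → stAm P a (x ∘ σ)) ∧
    ∀ x y : Fin k → M ⊕ β, stAm P a x → stAm P a y → ∀ p : Fin t → M ⊕ β, Function.Injective p →
      Set.range p ⊆ Set.range x → Set.range p ⊆ Set.range y → Set.range x = Set.range y := by
  refine ⟨?_, ?_, ?_⟩
  · rintro u (⟨x, rfl, hx⟩ | ⟨_, x, rfl, hx⟩)
    · exact Sum.inl_injective.comp (h.1 x hx)
    · exact (stec2_inj ha.1).comp (hP.inj x hx)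
  · rintro u σ (⟨x, rfl, hx⟩ | ⟨⟨i, b, hb⟩, x, rfl, hx⟩)
    · exact Or.inl ⟨x ∘ σ, rfl, h.2.1 x σ hx⟩
    · refine Or.inr ⟨⟨σ.symm i, b, ?_⟩, x ∘ σ, rfl, hP.symm x σ hx⟩
      rw [← hb]
      simp only [Function.comp_apply, Equiv.apply_symm_apply]
  · rintro u v (⟨x, rfl, hx⟩ | ⟨hu, x, rfl, hx⟩) (⟨y, rfl, hy⟩ | ⟨hv, y, rfl, hy⟩) p hp h1 h2
    · have h3 : ∀ i, ∃ c, p i = Sum.inl c ∧ c ∈ Set.range x ∧ c ∈ Set.range y := by
        intro i
        obtain ⟨j, hj⟩ := h1 ⟨i, rfl⟩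
        obtain ⟨j', hj'⟩ := h2 ⟨i, rfl⟩
        have e1 : p i = Sum.inl (x j) := hj.symm
        have e2 : (Sum.inl (y j') : M ⊕ β) = Sum.inl (x j) := by
          rw [← e1]
          exact hj'
        exact ⟨x j, e1, ⟨j, rfl⟩, ⟨j', Sum.inl.inj e2⟩⟩
      choose c hc1 hc2 hc3 using h3
      have h4 := h.2.2 x y hx hy c (by
        intro i i' hii
        apply hp
        rw [hc1, hc1, hii]) (by rintro _ ⟨i, rfl⟩; exact hc2 i) (by rintro _ ⟨i, rfl⟩; exact hc3 i)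
      rw [Set.range_comp, Set.range_comp, h4]
    · exact (stec2_mixed P hP a x y hy hv p hp h1 h2).elim
    · exact (stec2_mixed P hP a y x hx hu p hp h2 h1).elim
    · have h3 : ∀ i, ∃ c, p i = Sum.map a id c ∧ c ∈ Set.range x ∧ c ∈ Set.range y := by
        intro i
        obtain ⟨j, hj⟩ := h1 ⟨i, rfl⟩
        obtain ⟨j', hj'⟩ := h2 ⟨i, rfl⟩
        have e1 : p i = Sum.map a id (x j) := hj.symm
        have e2 : (Sum.map a id (y j') : M ⊕ β) = Sum.map a id (x j) := by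
          rw [← e1]
          exact hj'
        exact ⟨x j, e1, ⟨j, rfl⟩, ⟨j', stec2_inj ha.1 e2⟩⟩
      choose c hc1 hc2 hc3 using h3
      have h4 := hP.free x y hx hy c (by
        intro i i' hii
        apply hp
        rw [hc1, hc1, hii]) (by rintro _ ⟨i, rfl⟩; exact hc2 i) (by rintro _ ⟨i, rfl⟩; exact hc3 i)
      rw [Set.range_comp, Set.range_comp, h4]

/-- row EC2 -/
theorem st_rich_of_ec {t k : ℕ} {M : Type} [(Lst k).Structure M] (h : IsECSt t k M) :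
    StRich t k M := by
  intro α β _ _ P hP a ha
  exact st_ec_solve h P a ha (stec2_main h.1 P hP a ha)

end Pool.Agent.Lib.MP_9a7643_lc
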