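import Pool.Agent.Lib.MP_9a7643_lc.StEC

/-! row EC3 -/

open FirstOrder Filter Cardinal

namespace Pool.Agent.Lib.MP_9a7643_lc

private theorem stec3_bij {t k : ℕ} (htk : t < k) {x : Fin k → Fin t ⊕ Fin (k - t)}
    (hx : Function.Injective x) : Function.Surjective x := by
  have h : Fintype.card (Fin k) = Fintype.card (Fin t ⊕ Fin (k - t)) := by
    rw [Fintype.card_sum, Fintype.card_fin, Fintype.card_fin, Fintype.card_fin]
    omega
  exact ((Fintype.bijective_iff_injective_and_card x).2 ⟨hx, h⟩).2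

private theorem stec3_mixed {t k : ℕ} {M : Type} {p : Fin t → M}
    {q : Fin t → M ⊕ Fin (k - t)} (hq : Function.Injective q) {x : Fin k → M}
    {y : Fin k → Fin t ⊕ Fin (k - t)} (h1 : Set.range q ⊆ Set.range (Sum.inl ∘ x))
    (h2 : Set.range q ⊆ Set.range (Sum.map p id ∘ y)) : Set.range p ⊆ Set.range x := by
  have h3 : ∀ i, ∃ j, q i = Sum.inl (x j) := by
    intro i
    obtain ⟨j, hj⟩ := h1 ⟨i, rfl⟩
    exact ⟨j, hj.symm⟩
  have h4 : ∀ i, ∃ a, q i = Sum.inl (p a) := by
    intro i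
    obtain ⟨j, hj⟩ := h3 i
    obtain ⟨l, hl⟩ := h2 ⟨i, rfl⟩
    rw [hj] at hl
    rcases hy : y l with a | b
    · rw [Function.comp_apply, hy, Sum.map_inl] at hl
      exact ⟨a, by rw [hj, hl]⟩
    · rw [Function.comp_apply, hy, Sum.map_inr] at hl
      exact absurd hl (by simp)
  choose s hs using h4
  have hsi : Function.Injective s := fun i j hij => hq (by rw [hs, hs, hij])
  have hss : Function.Surjective s := Finite.surjective_of_injective hsi
  rintro _ ⟨a, rfl⟩
  obtain ⟨i, rfl⟩ := hss a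
  obtain ⟨j, hj⟩ := h3 i
  rw [hs i] at hj
  exact ⟨j, (Sum.inl_injective hj).symm⟩

/-- row EC3 -/
theorem st_full_of_ec {t k : ℕ} (htk : t < k) {M : Type} [(Lst k).Structure M]
    (h : IsECSt t k M) : StFull t k M := by
  refine ⟨h.1, fun p hp => ?_⟩
  by_contra hcon
  push Not at hcon
  have hnot : ∀ x : Fin k → Fin t, ¬ Function.Injective x := by
    intro x hx
    have := Fintype.card_le_of_injective x hx
    simp only [Fintype.card_fin] at this
    omega
  let P : StPat k (Fin t) (Fin (k - t)) := fun x => Function.Injective x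
  have hold : P.Old p := by
    refine ⟨hp, fun x => ⟨fun hb => ?_, fun hx => ?_⟩⟩
    · exact absurd (Function.Injective.of_comp (h.1.1 _ hb)) (hnot x)
    · exact absurd (Function.Injective.of_comp hx) (hnot x)
  have hA : let _ := stAmStr P p; IsSt t k (M ⊕ Fin (k - t)) := by
    intro _inst
    have hmap : Function.Injective (Sum.map p (id : Fin (k - t) → Fin (k - t))) :=
      Sum.map_injective.2 ⟨hp, Function.injective_id⟩
    refine ⟨?_, ?_, ?_⟩
    · rintro u (⟨x, rfl, hx⟩ | ⟨_, x, rfl, hx⟩)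
      · exact Sum.inl_injective.comp (h.1.1 x hx)
      · exact hmap.comp hx
    · rintro u σ (⟨x, rfl, hx⟩ | ⟨⟨i, b, hi⟩, x, rfl, hx⟩)
      · exact Or.inl ⟨x ∘ σ, rfl, h.1.2.1 x σ hx⟩
      · refine Or.inr ⟨⟨σ.symm i, b, ?_⟩, x ∘ σ, rfl, ?_⟩
        · rw [Function.comp_apply, Equiv.apply_symm_apply]
          exact hi
        · exact Function.Injective.comp hx σ.injective
    · rintro u v (⟨x, rfl, hx⟩ | ⟨_, x, rfl, hx⟩) (⟨y, rfl, hy⟩ | ⟨_, y, rfl, hy⟩) q hq h1 h2
      · have h3 : ∀ i, ∃ a, q i = Sum.inl a := by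
          intro i
          obtain ⟨j, hj⟩ := h1 ⟨i, rfl⟩
          exact ⟨x j, hj.symm⟩
        choose q' hq' using h3
        have hq'i : Function.Injective q' := fun i j hij => hq (by rw [hq', hq', hij])
        have e : Set.range x = Set.range y := by
          refine h.1.2.2 x y hx hy q' hq'i ?_ ?_
          · rintro _ ⟨i, rfl⟩
            obtain ⟨j, hj⟩ := h1 ⟨i, rfl⟩
            rw [hq'] at hj
            exact ⟨j, Sum.inl_injective hj⟩
          · rintro _ ⟨i, rfl⟩
            obtain ⟨j, hj⟩ := h2 ⟨i, rfl⟩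
            rw [hq'] at hj
            exact ⟨j, Sum.inl_injective hj⟩
        rw [Set.range_comp, Set.range_comp, e]
      · exact absurd (stec3_mixed hq h1 h2) (hcon x hx)
      · exact absurd (stec3_mixed hq h2 h1) (hcon y hy)
      · rw [Set.range_comp, Set.range_comp, (stec3_bij htk hx).range_eq,
          (stec3_bij htk hy).range_eq]
  obtain ⟨y, hy1, hy2⟩ := st_ec_solve h P p hold hA
  have hcard : Fintype.card (Fin k) = Fintype.card (Fin t ⊕ Fin (k - t)) := by
    rw [Fintype.card_sum, Fintype.card_fin, Fintype.card_fin, Fintype.card_fin]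
    omega
  let e : Fin k ≃ Fin t ⊕ Fin (k - t) := Fintype.equivOfCardEq hcard
  refine hcon _ ((hy2 e).2 e.injective) ?_
  rintro _ ⟨i, rfl⟩
  refine ⟨e.symm (Sum.inl i), ?_⟩
  rw [Function.comp_apply, Equiv.apply_symm_apply, Sum.elim_inl]

end Pool.Agent.Lib.MP_9a7643_lc
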