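import Pool.Agent.Lib.MP_9a7643_lc.StAt
import Pool.Agent.Lib.MP_9a7643_lc.ExtRich

/-! row EXT -/

open FirstOrder Filter Cardinal

namespace Pool.Agent.Lib.MP_9a7643_lc

/-- the elements of a fact -/
private abbrev stextSupp {k : ℕ} {B : Type} (e : (B × B) ⊕ (Fin k → B)) : Set B :=
  Sum.elim (fun e : B × B => ({e.1, e.2} : Set B)) (fun x => Set.range x) e

private theorem stext_supp_finite {k : ℕ} {B : Type} (e : (B × B) ⊕ (Fin k → B)) :
    (stextSupp e).Finite := by
  rcases e with ⟨b, b'⟩ | v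
  · exact (Set.finite_singleton b').insert b
  · exact Set.finite_range v

private theorem stext_card {B : Type} (k : ℕ) {κ : Cardinal.{0}} (hκ : ℵ₀ ≤ κ)
    (hB : #B ≤ κ) : #((B × B) ⊕ (Fin k → B)) ≤ κ := by
  have hlist : #(List B) ≤ κ := (Cardinal.mk_list_le_max B).trans (max_le hκ hB)
  have h1 : #(Fin k → B) ≤ κ :=
    (Cardinal.mk_le_of_injective (f := fun x : Fin k → B => List.ofFn x)
      List.ofFn_injective).trans hlist
  have h0 : #(B × B) ≤ κ := by
    rw [Cardinal.mk_prod, Cardinal.lift_id]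
    exact (mul_le_mul' hB hB).trans (Cardinal.mul_eq_self hκ).le
  rw [Cardinal.mk_sum]
  simp only [Cardinal.lift_id]
  refine (add_le_add h0 h1).trans ?_
  rw [Cardinal.add_eq_self hκ]

private theorem stext_pow {k : ℕ} {M : Type} [(Lst k).Structure M] {I : Type}
    (D : Ultrafilter I) (x : Fin k → I → M) :
    Blk (fun i => (x i : (D : Filter I).Product (fun _ => M))) ↔
      ∀ᶠ t in (D : Filter I), Blk (fun i => x i t) :=
  pow_rel (blkR k) x

theorem st_ext {t k : ℕ} {M : Type} [(Lst k).Structure M] [Nonempty M]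
    (hM : StRich t k M) (hI : IsSt t k M) {I : Type} (D : Ultrafilter I) {κ : Cardinal.{0}}
    (hκ : ℵ₀ ≤ κ) (hreg : ∀ ι : Type, #ι ≤ κ → RegFor D ι)
    (hgood : ∀ ι : Type, #ι ≤ κ → GoodEq D ι) :
    Ext (L := Lst k) (fun A _ => StFull t k A) κ (Pow D M) := by
  intro A B _ _ hFA hFB hB j g
  have hjinj : Function.Injective j := j.injective
  have hrep : ∀ a, ∃ r : I → M, (r : (D : Filter I).Product (fun _ => M)) = g a :=
    fun a => Quotient.exists_rep (g a)
  choose rep hrep using hrep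
  obtain ⟨d, hd, hd'⟩ := hgood A ((Cardinal.mk_le_of_injective hjinj).trans hB) M rep (by
    intro a a' hne
    have h1 : ¬ ∀ᶠ t in (D : Filter I), rep a t = rep a' t := by
      rw [← pow_eq, hrep, hrep]
      exact fun h => hne (g.injective h)
    exact Ultrafilter.eventually_not.2 h1)
  obtain ⟨E, hE, hE'⟩ := hreg ((B × B) ⊕ (Fin k → B)) (stext_card k hκ hB)
  let act : (B × B) ⊕ (Fin k → B) → Set I := fun e => E e ∩ ⋂ a ∈ j ⁻¹' (stextSupp e), d a
  have hact : ∀ e, act e ∈ D := by
    intro e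
    refine Filter.inter_mem (hE e) ?_
    refine (Filter.biInter_mem ((stext_supp_finite e).preimage hjinj.injOn)).2 ?_
    intro a _
    exact hd a
  have hsol : ∀ s, ∃ H : B → M, (∀ a, H (j a) = rep a s) ∧
      (∀ b b', s ∈ act (Sum.inl (b, b')) → b ≠ b' → H b ≠ H b') ∧
      ∀ x, s ∈ act (Sum.inr x) → (∃ i, x i ∉ Set.range j) → (Blk (H ∘ x) ↔ Blk x) := by
    intro s
    refine st_solve_at hM hI hFA hFB.1 j (fun a => rep a s) {e | s ∈ act e}
      ((hE' s).subset (fun e he => he.1)) ?_
    rintro a a' hne ⟨e, he, ha⟩ ⟨e', he', ha'⟩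
    refine hd' a a' hne s ?_ ?_
    · exact Set.mem_iInter₂.1 he.2 a ha
    · exact Set.mem_iInter₂.1 he'.2 a' ha'
  choose H hH1 hH2 hH3 using hsol
  have hcoe : ∀ a, ((fun s => H s (j a) : I → M) : (D : Filter I).Product (fun _ => M)) = g a := by
    intro a
    rw [← hrep a]
    congr 1
    funext s
    exact hH1 s a
  refine ⟨stEmb (fun b => ((fun s => H s b : I → M) : (D : Filter I).Product (fun _ => M)))
    ?_ ?_, hcoe⟩
  · intro b b' h
    by_contra hne
    have h1 := (pow_eq _ _).1 h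
    have h2 : ∀ᶠ s in (D : Filter I), H s b ≠ H s b' := by
      filter_upwards [hact (Sum.inl (b, b'))] with s hs
      exact hH2 s b b' hs hne
    obtain ⟨s, hs1, hs2⟩ := (h1.and h2).exists
    exact hs2 hs1
  · intro v
    by_cases hv : ∃ i, v i ∉ Set.range j
    · refine (stext_pow D (fun i s => H s (v i))).trans ?_
      have h1 : ∀ᶠ s in (D : Filter I), (Blk (fun i => H s (v i)) ↔ Blk v) := by
        filter_upwards [hact (Sum.inr v)] with s hs
        exact hH3 s v hs hv
      rw [Filter.eventually_congr h1]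
      simp
    · push Not at hv
      choose u hu using hv
      have hu' : j ∘ u = v := funext hu
      rw [← hu', emb_blk j u, ← emb_blk g u]
      refine Iff.of_eq (congrArg _ ?_)
      funext i
      exact hcoe (u i)

end Pool.Agent.Lib.MP_9a7643_lc
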