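import Pool.Agent.Lib.MP_9a7643_lc.StBase
import Pool.Agent.Lib.MP_9a7643_lc.BF

/-! row HULL -/

open FirstOrder Filter Cardinal

namespace Pool.Agent.Lib.MP_9a7643_lc

private def sthull_step {t k : ℕ} {N : Type} (w : (Fin t → N) → Fin k → N) (S : Set N) : Set N :=
  S ∪ Set.range (fun q : (Fin t → S) × Fin k => w (Subtype.val ∘ q.1) q.2)

private theorem sthull_card {t k : ℕ} {κ : Cardinal.{0}} (hκ : ℵ₀ ≤ κ) {N : Type}
    (w : (Fin t → N) → Fin k → N) {S : Set N} (hS : #S ≤ κ) : #(sthull_step w S) ≤ κ := by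
  refine (mk_union_le _ _).trans ((add_le_add hS ?_).trans (add_eq_self hκ).le)
  refine mk_range_le.trans ?_
  rw [mk_prod, Cardinal.lift_id, Cardinal.lift_id, ← Cardinal.power_def, mk_fin, mk_fin]
  refine (mul_le_mul' ((power_le_power_right hS).trans (power_nat_le hκ))
    ((nat_lt_aleph0 k).le.trans hκ)).trans (mul_eq_self hκ).le

theorem hull_stFull {t k : ℕ} {κ : Cardinal.{0}} (hκ : ℵ₀ ≤ κ) (N : Type) [(Lst k).Structure N]
    (hN : StFull t k N) : Hull (L := Lst k) (fun A _ => StFull t k A) κ N := by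
  intro X hX
  have hw : ∀ p : Fin t → N, ∃ x : Fin k → N, Function.Injective p → Blk x ∧
      Set.range p ⊆ Set.range x := by
    intro p
    by_cases hp : Function.Injective p
    · obtain ⟨x, h1, h2⟩ := hN.2 p hp
      exact ⟨x, fun _ => ⟨h1, h2⟩⟩
    · by_cases hk : Nonempty (Fin k → N)
      · exact ⟨hk.some, fun h => absurd h hp⟩
      · refine ⟨fun i => ?_, fun h => absurd h hp⟩
        exfalso
        apply hk
        have : Nonempty N := by
          by_contra hN'
          rw [not_nonempty_iff] at hN'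
          exact hp (fun i => (hN'.false (p i)).elim)
        exact ⟨fun _ => this.some⟩
  choose w hw using hw
  let S : ℕ → Set N := fun n => (sthull_step w)^[n] X
  have hS1 : ∀ n, S (n + 1) = sthull_step w (S n) := fun n => by
    simp only [S, Function.iterate_succ_apply']
  have hcard : ∀ n, #(S n) ≤ κ := by
    intro n
    induction n with
    | zero => exact hX
    | succ n ih =>
      rw [hS1]
      exact sthull_card hκ w ih
  have hmono : Monotone S := monotone_nat_of_le_succ fun n => by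
    rw [hS1]
    exact Set.subset_union_left
  let A : (Lst k).Substructure N :=
    { carrier := ⋃ n, S n
      fun_mem := fun f => (f : Empty).elim }
  have hA : ∀ x : Fin k → A, Blk x ↔ Blk (Subtype.val ∘ x : Fin k → N) := fun x => Iff.rfl
  refine ⟨A, ?_, ⟨⟨?_, ?_, ?_⟩, ?_⟩, ?_⟩
  · intro x hx
    exact Set.mem_iUnion.2 ⟨0, hx⟩
  · intro x hx
    exact (hN.1.1 _ ((hA x).1 hx)).of_comp
  · intro x σ hx
    exact hN.1.2.1 _ σ ((hA x).1 hx)
  · intro x y hx hy p hp h1 h2
    have h3 := hN.1.2.2 _ _ ((hA x).1 hx) ((hA y).1 hy) (Subtype.val ∘ p)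
      (Subtype.val_injective.comp hp) (by
        rw [Set.range_comp, Set.range_comp]
        exact Set.image_mono h1) (by
        rw [Set.range_comp, Set.range_comp]
        exact Set.image_mono h2)
    rw [Set.range_comp, Set.range_comp] at h3
    exact Subtype.val_injective.image_injective h3
  · intro p hp
    have h1 : ∀ i, ∃ n, (p i : N) ∈ S n := fun i => Set.mem_iUnion.1 (p i).2
    choose n hn using h1
    obtain ⟨m, hm⟩ : ∃ m, ∀ i, n i ≤ m := ⟨Finset.univ.sup n, fun i => Finset.le_sup (Finset.mem_univ i)⟩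
    obtain ⟨h2, h3⟩ := hw (Subtype.val ∘ p) (Subtype.val_injective.comp hp)
    have h4 : ∀ j, w (Subtype.val ∘ p) j ∈ S (m + 1) := by
      intro j
      rw [hS1]
      exact Or.inr ⟨(fun i => ⟨(p i : N), hmono (hm i) (hn i)⟩, j), rfl⟩
    refine ⟨fun j => ⟨w (Subtype.val ∘ p) j, Set.mem_iUnion.2 ⟨m + 1, h4 j⟩⟩, ?_, ?_⟩
    · rw [hA]
      exact h2
    · rintro _ ⟨i, rfl⟩
      obtain ⟨j, hj⟩ := h3 ⟨i, rfl⟩
      exact ⟨j, Subtype.ext hj⟩
  · refine (mk_iUnion_le (fun n => S n)).trans ?_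
    rw [mk_nat]
    exact (mul_le_mul' hκ (ciSup_le' hcard)).trans (mul_eq_self hκ).le

end Pool.Agent.Lib.MP_9a7643_lc
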