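import Pool.Agent.Lib.MP_9a7643_lc.StW

/-! row W2 -/

open FirstOrder Filter Cardinal

namespace Pool.Agent.Lib.MP_9a7643_lc

/-- the pattern -/
private def W2pat (t N : ℕ) : StPat (t + 1) Empty (SE t N) := fun x =>
  ∃ y : Fin (t + 1) → SE t N, x = Sum.inr ∘ y ∧ sBlk y

private theorem W2_am {t N : ℕ} {M : Type} [(Lst (t + 1)).Structure M]
    {u : Fin (t + 1) → M ⊕ SE t N} (h : stAm (W2pat t N) (Empty.elim : Empty → M) u) :
    (∃ x : Fin (t + 1) → M, u = Sum.inl ∘ x ∧ Blk x) ∨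
      ∃ y : Fin (t + 1) → SE t N, u = Sum.inr ∘ y ∧ sBlk y := by
  rcases h with h | ⟨_, x, hx, y, hy, hB⟩
  · exact Or.inl h
  · refine Or.inr ⟨y, ?_, hB⟩
    rw [hx, hy]
    rfl

private theorem W2_am' {t N : ℕ} {M : Type} [(Lst (t + 1)).Structure M]
    {y : Fin (t + 1) → SE t N} (h : sBlk y) :
    stAm (W2pat t N) (Empty.elim : Empty → M) (Sum.inr ∘ y) :=
  Or.inr ⟨⟨0, y 0, rfl⟩, Sum.inr ∘ y, rfl, y, rfl, h⟩

private theorem W2_symm {t N : ℕ} {y : Fin (t + 1) → SE t N} (σ : Equiv.Perm (Fin (t + 1)))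
    (h : sBlk y) : sBlk (y ∘ σ) := by
  obtain ⟨h1, B, h2⟩ := h
  refine ⟨h1.comp σ.injective, B, fun P => ?_⟩
  rw [σ.surjective.range_comp]
  exact h2 P

private theorem W2_isSt {t N : ℕ} (ht : 2 ≤ t) {M : Type} [(Lst (t + 1)).Structure M]
    (h : IsSt t (t + 1) M) : let _ := stAmStr (W2pat t N) (Empty.elim : Empty → M)
    IsSt t (t + 1) (M ⊕ SE t N) := by
  intro inst
  refine ⟨?_, ?_, ?_⟩
  · intro u hu
    rcases W2_am hu with ⟨x, rfl, hx⟩ | ⟨y, rfl, hy⟩
    · exact Sum.inl_injective.comp (h.1 x hx)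
    · exact Sum.inr_injective.comp hy.1
  · intro u σ hu
    rcases W2_am hu with ⟨x, rfl, hx⟩ | ⟨y, rfl, hy⟩
    · exact Or.inl ⟨x ∘ σ, rfl, h.2.1 x σ hx⟩
    · exact W2_am' (W2_symm σ hy)
  · intro u v hu hv p hp hpu hpv
    have i0 : Fin t := ⟨0, by omega⟩
    rcases W2_am hu with ⟨x, rfl, hx⟩ | ⟨y, rfl, hy⟩
    · rcases W2_am hv with ⟨x', rfl, hx'⟩ | ⟨y', rfl, hy'⟩
      · have h1 : ∀ i, ∃ m, p i = Sum.inl m := fun i => by
          obtain ⟨j, hj⟩ := hpu ⟨i, rfl⟩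
          exact ⟨x j, hj.symm⟩
        choose q hq using h1
        have hqinj : Function.Injective q := fun i j hij => hp (by rw [hq, hq, hij])
        have h2 : Set.range q ⊆ Set.range x := by
          rintro _ ⟨i, rfl⟩
          obtain ⟨j, hj⟩ := hpu ⟨i, rfl⟩
          exact ⟨j, Sum.inl_injective (hj.trans (hq i))⟩
        have h3 : Set.range q ⊆ Set.range x' := by
          rintro _ ⟨i, rfl⟩
          obtain ⟨j, hj⟩ := hpv ⟨i, rfl⟩
          exact ⟨j, Sum.inl_injective (hj.trans (hq i))⟩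
        rw [Set.range_comp, Set.range_comp, h.2.2 x x' hx hx' q hqinj h2 h3]
      · obtain ⟨j, hj⟩ := hpu ⟨i0, rfl⟩
        obtain ⟨j', hj'⟩ := hpv ⟨i0, rfl⟩
        have : (Sum.inl (x j) : M ⊕ SE t N) = Sum.inr (y' j') := hj.trans hj'.symm
        cases this
    · rcases W2_am hv with ⟨x', rfl, hx'⟩ | ⟨y', rfl, hy'⟩
      · obtain ⟨j, hj⟩ := hpu ⟨i0, rfl⟩
        obtain ⟨j', hj'⟩ := hpv ⟨i0, rfl⟩
        have : (Sum.inr (y j) : M ⊕ SE t N) = Sum.inl (x' j') := hj.trans hj'.symm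
        cases this
      · have h1 : ∀ i, ∃ m, p i = Sum.inr m := fun i => by
          obtain ⟨j, hj⟩ := hpu ⟨i, rfl⟩
          exact ⟨y j, hj.symm⟩
        choose q hq using h1
        have hqinj : Function.Injective q := fun i j hij => hp (by rw [hq, hq, hij])
        obtain ⟨_, B, hB⟩ := hy
        obtain ⟨_, B', hB'⟩ := hy'
        have h2 : ∀ i, sMem (q i) B := fun i => by
          rw [← hB]
          obtain ⟨j, hj⟩ := hpu ⟨i, rfl⟩
          exact ⟨j, Sum.inr_injective (hj.trans (hq i))⟩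
        have h3 : ∀ i, sMem (q i) B' := fun i => by
          rw [← hB']
          obtain ⟨j, hj⟩ := hpv ⟨i, rfl⟩
          exact ⟨j, Sum.inr_injective (hj.trans (hq i))⟩
        have h4 : B = B' := s_unique ht B B' q hqinj h2 h3
        have h5 : Set.range y = Set.range y' := by
          ext P
          rw [hB, hB', h4]
        rw [Set.range_comp, Set.range_comp, h5]

/-- row W2: the array structure embeds into existentially closed structures; every block name is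
enumerated by a block -/
theorem s_embed {t : ℕ} (ht : 2 ≤ t) {M : Type} [(Lst (t + 1)).Structure M]
    (h : IsECSt t (t + 1) M) (N : ℕ) : ∃ z : SE t N → M, Function.Injective z ∧
      ∀ x : Fin (t + 1) → SE t N, sBlk x → Blk (z ∘ x) := by
  have : Finite (SE t N) := s_finite t N
  obtain ⟨y, hy1, hy2⟩ := st_ec_solve h (W2pat t N) (Empty.elim : Empty → M)
    ⟨fun e => e.elim, fun x => (x 0).elim⟩ (W2_isSt ht h.1)
  refine ⟨y, ?_, fun x hx => ?_⟩
  · intro p q hpq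
    exact Sum.inr_injective (hy1 (show Sum.elim Empty.elim y (Sum.inr p) =
      Sum.elim Empty.elim y (Sum.inr q) from hpq))
  · exact (hy2 (Sum.inr ∘ x)).2 ⟨x, rfl, hx⟩

end Pool.Agent.Lib.MP_9a7643_lc
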