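import Pool.Agent.Lib.MP_9a7643_lc.StTp
import Pool.Agent.Lib.MP_9a7643_lc.IncTp0
import Pool.Agent.Lib.MP_9a7643_lc.StW2

/-! row TP2 -/

open FirstOrder Filter Cardinal

namespace Pool.Agent.Lib.MP_9a7643_lc

private theorem stp2_fin (t : ℕ) : Finite (SPV t) := by
  refine Finite.of_surjective
    (fun x : (Fin 2 × Fin (t - 1)) ⊕ (Fin (t - 2) ⊕ Unit) => match x with
      | Sum.inl (s, l) => SPV.a s l
      | Sum.inr (Sum.inl l) => SPV.d l
      | Sum.inr (Sum.inr _) => SPV.c) ?_
  intro y
  cases y with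
  | a s l => exact ⟨Sum.inl (s, l), rfl⟩
  | d l => exact ⟨Sum.inr (Sum.inl l), rfl⟩
  | c => exact ⟨Sum.inr (Sum.inr ()), rfl⟩

/-- the map of the variables into the array structure -/
private def stp2_g {t N : ℕ} (i : Fin N) (f : Fin N → Fin N) : SV t → SE t N
  | Sum.inl (Sum.inl _) => SE.x f
  | Sum.inl (Sum.inr (SPV.a s l)) => SE.a s i l
  | Sum.inl (Sum.inr (SPV.d l)) => SE.d i l
  | Sum.inl (Sum.inr SPV.c) => SE.c i (f i)
  | Sum.inr s => SE.u s i f

private theorem stp2_g_inj {t N : ℕ} (i : Fin N) (f : Fin N → Fin N) :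
    Function.Injective (stp2_g (t := t) i f) := by
  intro x y h
  rcases x with (x | x) | x
  · rcases y with (y | y) | y
    · rfl
    · cases y <;> simp [stp2_g] at h
    · simp [stp2_g] at h
  · rcases y with (y | y) | y
    · cases x <;> simp [stp2_g] at h
    · cases x <;> cases y <;> simp_all [stp2_g]
    · cases x <;> simp [stp2_g] at h
  · rcases y with (y | y) | y
    · simp [stp2_g] at h
    · cases y <;> simp [stp2_g] at h
    · simp_all [stp2_g]

private theorem stp2_A_inj {t : ℕ} (s : Fin 2) : Function.Injective (blkA t s) := by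
  intro i j h
  unfold blkA at h
  split_ifs at h with h1 h2 h3 h4 h5 h6
  · simp only [Sum.inl.injEq, Sum.inr.injEq, SPV.a.injEq, Fin.mk.injEq, true_and] at h
    exact Fin.ext h
  all_goals first
    | (exfalso; simp at h; done)
    | (apply Fin.ext; omega)

private theorem stp2_C_inj {t : ℕ} : Function.Injective (blkC t) := by
  intro i j h
  unfold blkC at h
  split_ifs at h
  all_goals first
    | (exfalso; simp at h; done)
    | (apply Fin.ext; omega)
    | (simp only [Sum.inl.injEq, Sum.inr.injEq, SPV.d.injEq, Fin.mk.injEq] at h; exact Fin.ext h)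

private theorem stp2_A {t N : ℕ} (ht : 2 ≤ t) (i : Fin N) (f : Fin N → Fin N) (s : Fin 2) :
    sBlk (stp2_g (t := t) i f ∘ blkA t s) := by
  refine ⟨(stp2_g_inj i f).comp (stp2_A_inj s), Sum.inl (s, i, f), fun P => ⟨?_, ?_⟩⟩
  · rintro ⟨r, rfl⟩
    show sMem (stp2_g i f (blkA t s r)) _
    unfold blkA
    split_ifs
    · exact ⟨rfl, rfl⟩
    · rfl
    · exact ⟨rfl, rfl, rfl⟩
  · intro h
    cases P with
    | x f' =>
      have h' : f' = f := h
      subst h'
      refine ⟨⟨t - 1, by omega⟩, ?_⟩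
      show stp2_g i f' (blkA t s ⟨t - 1, _⟩) = _
      unfold blkA
      rw [dif_neg (by simp), if_pos rfl]
      rfl
    | a s' i' l =>
      obtain ⟨h1, h2⟩ : s' = s ∧ i' = i := h
      subst h1 h2
      refine ⟨⟨l, by omega⟩, ?_⟩
      show stp2_g i' f (blkA t s' ⟨l, _⟩) = _
      unfold blkA
      rw [dif_pos l.2]
      rfl
    | u s' i' f' =>
      obtain ⟨h1, h2, h3⟩ : s' = s ∧ i' = i ∧ f' = f := h
      subst h1 h2 h3
      refine ⟨⟨t, by omega⟩, ?_⟩
      show stp2_g i' f' (blkA t s' ⟨t, _⟩) = _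
      unfold blkA
      rw [dif_neg (by simp), if_neg (by simp; omega)]
      rfl
    | d i' l => exact absurd h (by simp [sMem])
    | c i' j => exact absurd h (by simp [sMem])

private theorem stp2_C {t N : ℕ} (ht : 2 ≤ t) (i : Fin N) (f : Fin N → Fin N) :
    sBlk (stp2_g (t := t) i f ∘ blkC t) := by
  refine ⟨(stp2_g_inj i f).comp stp2_C_inj, Sum.inr (i, f), fun P => ⟨?_, ?_⟩⟩
  · rintro ⟨r, rfl⟩
    show sMem (stp2_g i f (blkC t r)) _
    unfold blkC
    split_ifs
    · rfl
    · exact ⟨rfl, rfl⟩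
    · exact ⟨rfl, rfl⟩
    · exact ⟨rfl, rfl⟩
  · intro h
    cases P with
    | x f' => exact absurd h (by simp [sMem])
    | a s' i' l => exact absurd h (by simp [sMem])
    | u s' i' f' =>
      obtain ⟨h2, h3⟩ : i' = i ∧ f' = f := h
      subst h2 h3
      have hs : s' = 0 ∨ s' = 1 := by omega
      rcases hs with rfl | rfl
      · refine ⟨⟨t - 2, by omega⟩, ?_⟩
        show stp2_g i' f' (blkC t ⟨t - 2, _⟩) = _
        unfold blkC
        rw [dif_neg (by simp), if_pos rfl]
        rfl
      · refine ⟨⟨t - 1, by omega⟩, ?_⟩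
        show stp2_g i' f' (blkC t ⟨t - 1, _⟩) = _
        unfold blkC
        rw [dif_neg (by simp; omega), if_neg (by simp; omega), if_pos rfl]
        rfl
    | d i' l =>
      have h2 : i' = i := h
      subst h2
      refine ⟨⟨l, by omega⟩, ?_⟩
      show stp2_g i' f (blkC t ⟨l, _⟩) = _
      unfold blkC
      rw [dif_pos l.2]
      rfl
    | c i' j =>
      obtain ⟨h1, h2⟩ : i' = i ∧ f i' = j := h
      subst h1
      refine ⟨⟨t, by omega⟩, ?_⟩
      show stp2_g i' f (blkC t ⟨t, _⟩) = _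
      unfold blkC
      rw [dif_neg (by simp), if_neg (by simp; omega), if_neg (by simp; omega), ← h2]
      rfl

/-- the formula -/
private noncomputable def stp2_phi (t : ℕ) : (Lst (t + 1)).Formula (Unit ⊕ SPV t) :=
  have := stp2_fin t
  Language.Formula.iExs (Fin 2) (neqForm ((Unit ⊕ SPV t) ⊕ Fin 2) ⊓
    ((blkF (blkA t 0) ⊓ blkF (blkA t 1)) ⊓ blkF (blkC t)))

private theorem stp2_realize {t : ℕ} {M : Type} [(Lst (t + 1)).Structure M]
    (v : Unit ⊕ SPV t → M) :
    (stp2_phi t).Realize v ↔ ∃ w : Fin 2 → M, Function.Injective (Sum.elim v w) ∧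
      (∀ s, Blk (Sum.elim v w ∘ blkA t s)) ∧ Blk (Sum.elim v w ∘ blkC t) := by
  have := stp2_fin t
  rw [stp2_phi, Language.Formula.realize_iExs]
  refine exists_congr fun w => ?_
  rw [Language.Formula.realize_inf, realize_neqForm, Language.Formula.realize_inf,
    Language.Formula.realize_inf, realize_blkF, realize_blkF, realize_blkF]
  refine and_congr Iff.rfl (and_congr ?_ Iff.rfl)
  constructor
  · rintro ⟨h0, h1⟩ s
    have hs : s = 0 ∨ s = 1 := by omega
    rcases hs with rfl | rfl
    · exact h0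
    · exact h1
  · intro h
    exact ⟨h 0, h 1⟩

/-- row TP2 -/
theorem st_tp2 {t : ℕ} (ht : 2 ≤ t) (M : Type) [(Lst (t + 1)).Structure M] [Nonempty M]
    (h : IsECSt t (t + 1) M) : HasTP2 (stTheory (t + 1) M) := by
  have hM : M ⊨ (Lst (t + 1)).completeTheory M := inferInstance
  have hfin : Finite (SPV t) := stp2_fin t
  let st : (Lst (t + 1)).Structure M := inferInstance
  refine @hasTP2_of_arrays (stTheory (t + 1) M) M st inferInstance hM Unit (SPV t)
    inferInstance hfin (stp2_phi t) ?_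
  intro N
  obtain ⟨z, hz, hz2⟩ := s_embed ht h N
  let prm : Fin N → Fin N → SPV t → M := fun i j q => match q with
    | SPV.a s l => z (SE.a s i l)
    | SPV.d l => z (SE.d i l)
    | SPV.c => z (SE.c i j)
  refine ⟨prm, ?_, ?_⟩
  · intro f
    refine ⟨fun _ => z (SE.x f), fun i => ?_⟩
    refine (stp2_realize (t := t) _).2 ?_
    let w : Fin 2 → M := fun s => z (SE.u s i f)
    have e : Sum.elim (Sum.elim (fun _ : Unit => z (SE.x f)) (prm i (f i))) w =
        z ∘ stp2_g (t := t) i f := by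
      funext v
      rcases v with (v | v) | v
      · rfl
      · cases v <;> rfl
      · rfl
    refine ⟨w, ?_, ?_, ?_⟩
    · rw [e]
      exact hz.comp (stp2_g_inj i f)
    · intro s
      rw [e]
      exact hz2 _ (stp2_A ht i f s)
    · rw [e]
      exact hz2 _ (stp2_C ht i f)
  · rintro i j j' hjj' ⟨x, hx1, hx2⟩
    obtain ⟨w, hw1, hw2, hw3⟩ := (stp2_realize (t := t) _).1 hx1
    obtain ⟨w', hw1', hw2', hw3'⟩ := (stp2_realize (t := t) _).1 hx2
    have key := s_v_unique ht h.1 _ _ hw1 hw1' hw2 hw2' hw3 hw3' rfl (by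
      intro q hq
      cases q with
      | c => exact absurd rfl hq
      | a s l => rfl
      | d l => rfl)
    have key' : z (SE.c i j) = z (SE.c i j') := key
    have := hz key'
    simp only [SE.c.injEq, true_and] at this
    exact hjj' this

end Pool.Agent.Lib.MP_9a7643_lc
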