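import Pool.Agent.Lib.MP_9a7643_lc.StSat
import Pool.Agent.Lib.MP_9a7643_lc.StTp2

/-! the Keisler class of generic Steiner systems -/

open FirstOrder Filter Cardinal

namespace Pool.Agent.Lib.MP_9a7643_lc

/-- models of the theory of `M` satisfy the same sentences -/
theorem st_models {L : FirstOrder.Language.{0, 0}} {M : Type} [L.Structure M]
    {M' : Type} [L.Structure M'] (hM' : M' ⊨ L.completeTheory M) (φ : L.Sentence)
    (hφ : M ⊨ φ) : M' ⊨ φ := by
  have := hM'
  exact Language.Theory.realize_sentence_of_mem (T := L.completeTheory M) (M := M')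
    (Language.mem_completeTheory.2 hφ)

theorem st_main (t : ℕ) (ht : 2 ≤ t) (M : Type) [(Lst (t + 1)).Structure M] [Nonempty M]
    (hM : IsECSt t (t + 1) M) :
    NonSimple (stTheory (t + 1) M) ∧ HasTP2 (stTheory (t + 1) M) ∧
      (∀ S : CTheory, HasTP2 S → KLe (stTheory (t + 1) M) S) ∧
      ∀ (I : Type) [Infinite I] (D : Ultrafilter I), Regular D →
        ∀ (M' : Type) [(Lst (t + 1)).Structure M'] [Nonempty M'],
          M' ⊨ (Lst (t + 1)).completeTheory M →
          (Saturated (Lst (t + 1)) (Pow D M') #I ↔ GoodEq D I) := by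
  have h2 : HasTP2 (stTheory (t + 1) M) := st_tp2 ht M hM
  refine ⟨nonSimple_of_tp2 _ h2, h2, fun S hS => st_le (Nat.lt_succ_self t) M hM S hS, ?_⟩
  intro I _ D hD M' _ _ hM'
  constructor
  · intro h
    exact @goodEq_of_tp2 (stTheory (t + 1) M) h2 I _ D hD M'
      (inferInstanceAs ((Lst (t + 1)).Structure M')) _ hM' h
  · intro h
    exact st_saturated ((st_full_of_ec (Nat.lt_succ_self t) hM).of_models (st_models hM'))
      ((st_rich_of_ec hM).of_models (st_models hM')) D hD h

end Pool.Agent.Lib.MP_9a7643_lc
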