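import Pool.Agent.Lib.MP_9a7643_lc.StBase

/-! row MOD -/

open FirstOrder Filter Cardinal

namespace Pool.Agent.Lib.MP_9a7643_lc

/-- transfer of `∀ x (χ(x) → ∃ y ψ(x, y))` -/
private theorem stmod_ae {k : ℕ} {α β : Type} [Finite α] [Finite β] {M N : Type}
    [(Lst k).Structure M] [(Lst k).Structure N]
    (hMN : ∀ φ : (Lst k).Sentence, M ⊨ φ → N ⊨ φ) (χ : (Lst k).Formula α)
    (ψ : (Lst k).Formula (α ⊕ β))
    (h : ∀ a : α → M, χ.Realize a → ∃ y : β → M, ψ.Realize (Sum.elim a y)) :
    ∀ a : α → N, χ.Realize a → ∃ y : β → N, ψ.Realize (Sum.elim a y) :=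
  (realize_AE χ ψ).1 (hMN _ ((realize_AE χ ψ).2 h))

/-- transfer of `∀ x (χ(x) → ψ(x))` -/
private theorem stmod_all {k : ℕ} {α : Type} [Finite α] {M N : Type}
    [(Lst k).Structure M] [(Lst k).Structure N]
    (hMN : ∀ φ : (Lst k).Sentence, M ⊨ φ → N ⊨ φ) (χ ψ : (Lst k).Formula α)
    (h : ∀ a : α → M, χ.Realize a → ψ.Realize a) :
    ∀ a : α → N, χ.Realize a → ψ.Realize a := by
  intro a ha
  obtain ⟨y, hy⟩ := stmod_ae (β := Empty) hMN χ (ψ.relabel Sum.inl) (fun b hb => by
    refine ⟨Empty.elim, ?_⟩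
    rw [Language.Formula.realize_relabel, Sum.elim_comp_inl]
    exact h b hb) a ha
  rwa [Language.Formula.realize_relabel, Sum.elim_comp_inl] at hy

/-- `{u i} ⊆ {v j}` -/
private noncomputable def stmod_sub {k : ℕ} {γ ι κ : Type} [Finite ι] [Finite κ] (u : ι → γ)
    (v : κ → γ) : (Lst k).Formula γ :=
  Language.Formula.iInf (fun i : ι => Language.Formula.iSup (fun j : κ =>
    Language.Term.equal (Language.Term.var (u i)) (Language.Term.var (v j))))

private theorem stmod_realize_sub {k : ℕ} {γ ι κ : Type} [Finite ι] [Finite κ] (u : ι → γ)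
    (v : κ → γ) {M : Type} [(Lst k).Structure M] (a : γ → M) :
    (stmod_sub (k := k) u v).Realize a ↔ Set.range (a ∘ u) ⊆ Set.range (a ∘ v) := by
  rw [stmod_sub, Language.Formula.realize_iInf]
  constructor
  · rintro h _ ⟨i, rfl⟩
    have h1 := h i
    rw [Language.Formula.realize_iSup] at h1
    obtain ⟨j, hj⟩ := h1
    rw [Language.Formula.realize_equal, Language.Term.realize_var, Language.Term.realize_var] at hj
    exact ⟨j, hj.symm⟩
  · intro h i
    rw [Language.Formula.realize_iSup]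
    obtain ⟨j, hj⟩ := h ⟨i, rfl⟩
    refine ⟨j, ?_⟩
    rw [Language.Formula.realize_equal, Language.Term.realize_var, Language.Term.realize_var]
    exact hj.symm

/-- the three clauses of `IsSt` -/
private theorem stmod_isSt {t k : ℕ} {M N : Type} [(Lst k).Structure M] [(Lst k).Structure N]
    (h : IsSt t k M) (hMN : ∀ φ : (Lst k).Sentence, M ⊨ φ → N ⊨ φ) : IsSt t k N := by
  obtain ⟨h1, h2, h3⟩ := h
  refine ⟨?_, ?_, ?_⟩
  · intro x hx
    have := stmod_all hMN (blkF (id : Fin k → Fin k)) (neqForm (Fin k)) (fun a ha => by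
      rw [realize_blkF] at ha
      rw [realize_neqForm]
      exact h1 a ha) x (by rw [realize_blkF]; exact hx)
    rwa [realize_neqForm] at this
  · intro x σ hx
    have := stmod_all hMN (blkF (id : Fin k → Fin k)) (blkF (σ : Fin k → Fin k)) (fun a ha => by
      rw [realize_blkF] at ha
      rw [realize_blkF]
      exact h2 a σ ha) x (by rw [realize_blkF]; exact hx)
    rwa [realize_blkF] at this
  · intro x y hx hy p hp hpx hpy
    let X : Fin k → (Fin k ⊕ Fin k) ⊕ Fin t := fun i => Sum.inl (Sum.inl i)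
    let Y : Fin k → (Fin k ⊕ Fin k) ⊕ Fin t := fun i => Sum.inl (Sum.inr i)
    let P : Fin t → (Fin k ⊕ Fin k) ⊕ Fin t := fun i => Sum.inr i
    have key := stmod_all hMN
      (((blkF X ⊓ blkF Y) ⊓ (neqForm (Fin t)).relabel P) ⊓ (stmod_sub P X ⊓ stmod_sub P Y))
      (stmod_sub X Y ⊓ stmod_sub Y X) (fun a ha => by
        rw [Language.Formula.realize_inf, Language.Formula.realize_inf,
          Language.Formula.realize_inf, Language.Formula.realize_inf, realize_blkF, realize_blkF,
          Language.Formula.realize_relabel, realize_neqForm, stmod_realize_sub,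
          stmod_realize_sub] at ha
        obtain ⟨⟨⟨k1, k2⟩, k3⟩, k4, k5⟩ := ha
        have e := h3 _ _ k1 k2 _ k3 k4 k5
        rw [Language.Formula.realize_inf, stmod_realize_sub, stmod_realize_sub]
        exact ⟨e.subset, e.superset⟩)
      (Sum.elim (Sum.elim x y) p) (by
        rw [Language.Formula.realize_inf, Language.Formula.realize_inf,
          Language.Formula.realize_inf, Language.Formula.realize_inf, realize_blkF, realize_blkF,
          Language.Formula.realize_relabel, realize_neqForm, stmod_realize_sub,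
          stmod_realize_sub]
        exact ⟨⟨⟨hx, hy⟩, hp⟩, hpx, hpy⟩)
    rw [Language.Formula.realize_inf, stmod_realize_sub, stmod_realize_sub] at key
    exact Set.Subset.antisymm key.1 key.2

theorem StFull.of_models {t k : ℕ} {M N : Type} [(Lst k).Structure M] [(Lst k).Structure N]
    (h : StFull t k M) (hMN : ∀ φ : (Lst k).Sentence, M ⊨ φ → N ⊨ φ) : StFull t k N := by
  refine ⟨stmod_isSt h.1 hMN, fun p hp => ?_⟩
  let X : Fin k → Fin t ⊕ Fin k := Sum.inr
  let P : Fin t → Fin t ⊕ Fin k := Sum.inl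
  obtain ⟨x, hx⟩ := stmod_ae hMN (neqForm (Fin t)) (blkF X ⊓ stmod_sub P X) (fun a ha => by
    rw [realize_neqForm] at ha
    obtain ⟨x, k1, k2⟩ := h.2 a ha
    refine ⟨x, ?_⟩
    rw [Language.Formula.realize_inf, realize_blkF, stmod_realize_sub]
    exact ⟨k1, k2⟩) p (by rw [realize_neqForm]; exact hp)
  rw [Language.Formula.realize_inf, realize_blkF, stmod_realize_sub] at hx
  exact ⟨x, hx.1, hx.2⟩

theorem StRich.of_models {t k : ℕ} {M N : Type} [(Lst k).Structure M] [(Lst k).Structure N]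
    (h : StRich t k M) (hMN : ∀ φ : (Lst k).Sentence, M ⊨ φ → N ⊨ φ) : StRich t k N := by
  intro α β _ _ P hP a ha
  obtain ⟨y, hy⟩ := stmod_ae hMN (stDiag (fun x : Fin k → α => P (Sum.inl ∘ x))) (stDiag P)
    (fun b hb => by
      rw [realize_stDiag] at hb
      obtain ⟨y, hy⟩ := h α β P hP b hb
      refine ⟨y, ?_⟩
      rw [realize_stDiag]
      exact hy) a (by rw [realize_stDiag]; exact ha)
  rw [realize_stDiag] at hy
  exact ⟨y, hy⟩

end Pool.Agent.Lib.MP_9a7643_lc
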