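import Pool.Agent.Lib.MP_9a7643_lc.StExt
import Pool.Agent.Lib.MP_9a7643_lc.StHull
import Pool.Agent.Lib.MP_9a7643_lc.StMod
import Pool.Agent.Lib.MP_9a7643_lc.StEC2
import Pool.Agent.Lib.MP_9a7643_lc.StEC3
import Pool.Agent.Lib.MP_9a7643_lc.Sat
import Pool.Agent.Lib.MP_9a7643_lc.SatRich

/-! row SAT -/

open FirstOrder Filter Cardinal

namespace Pool.Agent.Lib.MP_9a7643_lc

private theorem stsat_models {k : ℕ} {M : Type} [(Lst k).Structure M] [Nonempty M] {J : Type}
    (U : Ultrafilter J) (φ : (Lst k).Sentence) (hφ : M ⊨ φ) : Pow U M ⊨ φ := by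
  have := Language.Ultraproduct.sentence_realize (L := Lst k) (M := fun _ : J => M) (u := U) φ
  exact this.2 (Filter.Eventually.of_forall (fun _ => hφ))

private theorem stsat_ext0 {t k : ℕ} {M : Type} [(Lst k).Structure M]
    [Nonempty M] (h1 : StFull t k M) (h2 : StRich t k M) {J : Type} (U : Ultrafilter J)
    (hU : RegFor U ℕ) : Ext (L := Lst k) (fun A _ => StFull t k A) ℵ₀ (Pow U M) := by
  refine st_ext h2 h1.1 U le_rfl ?_ ?_
  · intro ι hι
    exact hU.mono_card (by simpa using hι)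
  · intro ι hι
    exact goodEq_countable U ι hι

theorem st_saturated {t k : ℕ} {M : Type} [(Lst k).Structure M]
    [Nonempty M] (h1 : StFull t k M) (h2 : StRich t k M) {I : Type} [Infinite I]
    (D : Ultrafilter I) (hD : Regular D) (hg : GoodEq D I) :
    Saturated (Lst k) (Pow D M) #I := by
  have hI : ℵ₀ ≤ #I := Cardinal.infinite_iff.1 inferInstance
  have hne : Nonempty (Pow D M) := Language.Ultraproduct.Product.instNonempty
  have h1' : StFull t k (Pow D M) := h1.of_models (stsat_models D)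
  have h2' : StRich t k (Pow D M) := h2.of_models (stsat_models D)
  refine sat_of (L := Lst k) (F := fun A _ => StFull t k A) hI
    (fun B _ hB => hull_stFull le_rfl B hB) ?_ ?_
    (hull_stFull hI _ h1') (hull_stFull le_rfl _ h1') ?_
  · refine st_ext h2 h1.1 D hI ?_ ?_
    · intro ι hι
      exact RegFor.mono_card (ι := I) hD hι
    · intro ι hι
      exact hg.mono_card hι
  · exact stsat_ext0 h1 h2 D hD.nat
  · intro J U hU
    have h1'' : StFull t k (Pow U (Pow D M)) := h1'.of_models (stsat_models U)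
    exact ⟨stsat_ext0 h1' h2' U hU, hull_stFull hI _ h1'', hull_stFull le_rfl _ h1''⟩

theorem st_le {t k : ℕ} (htk : t < k) (M : Type) [(Lst k).Structure M] [Nonempty M]
    (hM : IsECSt t k M) (S : CTheory) (hS : HasTP2 S) : KLe (stTheory k M) S := by
  intro I _ D hD M₁ M₂ s₁ _ _ _ hM₁ hM₂ hsat
  have h0 : ∀ φ : (Lst k).Sentence, M ⊨ φ → @Language.Sentence.Realize (Lst k) M₁ s₁ φ := by
    intro φ hφ
    exact hM₁.realize_of_mem φ hφ
  exact @st_saturated t k M₁ s₁ _ (@StFull.of_models t k M M₁ _ s₁ (st_full_of_ec htk hM) h0)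
    (@StRich.of_models t k M M₁ _ s₁ (st_rich_of_ec hM) h0) I _ D hD
    (goodEq_of_tp2 hS D hD M₂ hM₂ hsat)

end Pool.Agent.Lib.MP_9a7643_lc
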