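import Pool.Agent.Lib.MP_9a7643_lc.StBase

/-! row TP1 -/

open FirstOrder Filter Cardinal

namespace Pool.Agent.Lib.MP_9a7643_lc

/-- the parameters of the formula -/
inductive SPV (t : ℕ) : Type
  | a (s : Fin 2) (l : Fin (t - 1)) : SPV t
  | d (l : Fin (t - 2)) : SPV t
  | c : SPV t

/-- the variables: `inl (inl ())` is `x`, `inr s` are the quantified variables `u s` -/
abbrev SV (t : ℕ) : Type := (Unit ⊕ SPV t) ⊕ Fin 2

/-- the two blocks `{x, a s l, u s}` -/
def blkA (t : ℕ) (s : Fin 2) (i : Fin (t + 1)) : SV t :=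
  if h : (i : ℕ) < t - 1 then Sum.inl (Sum.inr (SPV.a s ⟨i, h⟩))
  else if (i : ℕ) = t - 1 then Sum.inl (Sum.inl ()) else Sum.inr s

/-- the block `{u 0, u 1, d l, c}` -/
def blkC (t : ℕ) (i : Fin (t + 1)) : SV t :=
  if h : (i : ℕ) < t - 2 then Sum.inl (Sum.inr (SPV.d ⟨i, h⟩))
  else if (i : ℕ) = t - 2 then Sum.inr 0 else if (i : ℕ) = t - 1 then Sum.inr 1
  else Sum.inl (Sum.inr SPV.c)

private theorem tp1s_key {t : ℕ} {M : Type} [(Lst (t + 1)).Structure M]
    (hI : IsSt t (t + 1) M) {γ : Type} (z z' : γ → M) (w : Fin (t + 1) → γ) (h : Blk (z ∘ w))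
    (h' : Blk (z' ∘ w)) (he : ∀ i : Fin t, z (w i.castSucc) = z' (w i.castSucc)) :
    z (w (Fin.last t)) = z' (w (Fin.last t)) := by
  have hinj := hI.1 _ h
  have hr : Set.range (z ∘ w) = Set.range (z' ∘ w) := by
    refine hI.2.2 _ _ h h' (fun i : Fin t => z (w i.castSucc)) ?_ ?_ ?_
    · intro i j hij
      exact Fin.castSucc_injective t (hinj hij)
    · rintro _ ⟨i, rfl⟩
      exact ⟨i.castSucc, rfl⟩
    · rintro _ ⟨i, rfl⟩
      exact ⟨i.castSucc, (he i).symm⟩
  have hm : z (w (Fin.last t)) ∈ Set.range (z' ∘ w) := by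
    rw [← hr]
    exact ⟨Fin.last t, rfl⟩
  obtain ⟨i, hi⟩ := hm
  rcases Fin.eq_castSucc_or_eq_last i with ⟨j, rfl⟩ | rfl
  · exfalso
    have h1 : (z ∘ w) j.castSucc = (z ∘ w) (Fin.last t) := (he j).trans hi
    exact (Fin.castSucc_lt_last j).ne (hinj h1)
  · exact hi.symm

/-- row TP1: the last parameter is determined by the others and by `x` -/
theorem s_v_unique {t : ℕ} (ht : 2 ≤ t) {M : Type} [(Lst (t + 1)).Structure M]
    (hI : IsSt t (t + 1) M) (z z' : SV t → M) (hz : Function.Injective z)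
    (hz' : Function.Injective z') (h : ∀ s, Blk (z ∘ blkA t s)) (h' : ∀ s, Blk (z' ∘ blkA t s))
    (hc : Blk (z ∘ blkC t)) (hc' : Blk (z' ∘ blkC t))
    (hx : z (Sum.inl (Sum.inl ())) = z' (Sum.inl (Sum.inl ())))
    (hp : ∀ q : SPV t, q ≠ SPV.c → z (Sum.inl (Sum.inr q)) = z' (Sum.inl (Sum.inr q))) :
    z (Sum.inl (Sum.inr SPV.c)) = z' (Sum.inl (Sum.inr SPV.c)) := by
  have hu : ∀ s : Fin 2, z (Sum.inr s) = z' (Sum.inr s) := by
    intro s
    have hl : blkA t s (Fin.last t) = Sum.inr s := by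
      unfold blkA
      rw [dif_neg (by rw [Fin.val_last]; omega), if_neg (by rw [Fin.val_last]; omega)]
    have key := tp1s_key hI z z' (blkA t s) (h s) (h' s) (fun i => ?_)
    · rwa [hl] at key
    · by_cases h1 : (i : ℕ) < t - 1
      · have e1 : blkA t s i.castSucc = Sum.inl (Sum.inr (SPV.a s ⟨i, h1⟩)) := by
          unfold blkA
          rw [dif_pos (by rw [Fin.val_castSucc]; exact h1)]
          rfl
        rw [e1]
        exact hp _ (by intro hh; cases hh)
      · have h2 : (i : ℕ) = t - 1 := by omega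
        have e1 : blkA t s i.castSucc = Sum.inl (Sum.inl ()) := by
          unfold blkA
          rw [dif_neg (by rw [Fin.val_castSucc]; exact h1),
            if_pos (by rw [Fin.val_castSucc]; exact h2)]
        rw [e1]
        exact hx
  have hl : blkC t (Fin.last t) = Sum.inl (Sum.inr SPV.c) := by
    unfold blkC
    rw [dif_neg (by rw [Fin.val_last]; omega), if_neg (by rw [Fin.val_last]; omega),
      if_neg (by rw [Fin.val_last]; omega)]
  have key := tp1s_key hI z z' (blkC t) hc hc' (fun i => ?_)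
  · rwa [hl] at key
  · by_cases h1 : (i : ℕ) < t - 2
    · have e1 : blkC t i.castSucc = Sum.inl (Sum.inr (SPV.d ⟨i, h1⟩)) := by
        unfold blkC
        rw [dif_pos (by rw [Fin.val_castSucc]; exact h1)]
        rfl
      rw [e1]
      exact hp _ (by intro hh; cases hh)
    · by_cases h2 : (i : ℕ) = t - 2
      · have e1 : blkC t i.castSucc = Sum.inr 0 := by
          unfold blkC
          rw [dif_neg (by rw [Fin.val_castSucc]; exact h1),
            if_pos (by rw [Fin.val_castSucc]; exact h2)]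
        rw [e1]
        exact hu 0
      · have h3 : (i : ℕ) = t - 1 := by omega
        have e1 : blkC t i.castSucc = Sum.inr 1 := by
          unfold blkC
          rw [dif_neg (by rw [Fin.val_castSucc]; exact h1),
            if_neg (by rw [Fin.val_castSucc]; exact h2),
            if_pos (by rw [Fin.val_castSucc]; exact h3)]
        rw [e1]
        exact hu 1

end Pool.Agent.Lib.MP_9a7643_lc
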