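import Pool.Agent.Lib.MP_9a7643_lc.StEC

/-! rows W1, W2: the finite partial Steiner system which gives the `TP₂` arrays (`k = t + 1`) -/

open FirstOrder Filter Cardinal

namespace Pool.Agent.Lib.MP_9a7643_lc

/-- the elements of the array structure -/
inductive SE (t N : ℕ) : Type
  | x (f : Fin N → Fin N) : SE t N
  | a (s : Fin 2) (i : Fin N) (l : Fin (t - 1)) : SE t N
  | u (s : Fin 2) (i : Fin N) (f : Fin N → Fin N) : SE t N
  | d (i : Fin N) (l : Fin (t - 2)) : SE t N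
  | c (i j : Fin N) : SE t N

/-- the names of the blocks -/
abbrev SB (N : ℕ) : Type := (Fin 2 × Fin N × (Fin N → Fin N)) ⊕ (Fin N × (Fin N → Fin N))

/-- the elements of the blocks: `{x f, a s i l, u s i f}` and `{u 0 i f, u 1 i f, d i l, c i (f i)}` -/
def sMem {t N : ℕ} : SE t N → SB N → Prop
  | SE.x f, Sum.inl (_, _, f') => f = f'
  | SE.a s i _, Sum.inl (s', i', _) => s = s' ∧ i = i'
  | SE.u s i f, Sum.inl (s', i', f') => s = s' ∧ i = i' ∧ f = f'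
  | SE.u _ i f, Sum.inr (i', f') => i = i' ∧ f = f'
  | SE.d i _, Sum.inr (i', _) => i = i'
  | SE.c i j, Sum.inr (i', f) => i = i' ∧ f i = j
  | _, _ => False

/-- the enumerations of the blocks -/
def sBlk {t N : ℕ} (x : Fin (t + 1) → SE t N) : Prop :=
  Function.Injective x ∧ ∃ B : SB N, ∀ P, P ∈ Set.range x ↔ sMem P B

/-- colours of the elements -/
def sW_col {t N : ℕ} : SE t N → ℕ
  | SE.x _ => 0
  | SE.a _ _ l => l
  | SE.u _ _ _ => 0
  | SE.d _ l => l + 1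
  | SE.c _ _ => 0

theorem sW_col_lt {t N : ℕ} (ht : 2 ≤ t) (B B' : SB N) (hne : B ≠ B') (P : SE t N)
    (h : sMem P B) (h' : sMem P B') : sW_col P < t - 1 := by
  rcases P with f | ⟨s, i, l⟩ | ⟨s, i, f⟩ | ⟨i, l⟩ | ⟨i, j⟩
  · show 0 < t - 1
    omega
  · show (l : ℕ) < t - 1
    exact l.2
  · show 0 < t - 1
    omega
  · show (l : ℕ) + 1 < t - 1
    have := l.2
    omega
  · show 0 < t - 1
    omega

theorem sW_col_inj {t N : ℕ} (B B' : SB N) (hne : B ≠ B') (P Q : SE t N)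
    (h : sMem P B) (h' : sMem P B') (g : sMem Q B) (g' : sMem Q B')
    (hc : sW_col P = sW_col Q) : P = Q := by
  rcases B with ⟨bs, bi, bf⟩ | ⟨bi, bf⟩ <;> rcases B' with ⟨bs', bi', bf'⟩ | ⟨bi', bf'⟩ <;>
  rcases P with f | ⟨s, i, l⟩ | ⟨s, i, f⟩ | ⟨i, l⟩ | ⟨i, j⟩ <;>
  rcases Q with e | ⟨r, k, m⟩ | ⟨r, k, e⟩ | ⟨k, m⟩ | ⟨k, n⟩ <;>
  simp only [sMem, sW_col] at h h' g g' hc <;> aesop

/-- row W1: two different blocks have less than `t` common elements -/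
theorem s_unique {t N : ℕ} (ht : 2 ≤ t) (B B' : SB N) (p : Fin t → SE t N)
    (hp : Function.Injective p) (h : ∀ i, sMem (p i) B) (h' : ∀ i, sMem (p i) B') : B = B' := by
  by_contra hne
  have hinj : Function.Injective fun i : Fin t =>
      (⟨sW_col (p i), sW_col_lt ht B B' hne (p i) (h i) (h' i)⟩ : Fin (t - 1)) := by
    intro i j hij
    rw [Fin.mk.injEq] at hij
    exact hp (sW_col_inj B B' hne _ _ (h i) (h' i) (h j) (h' j) hij)
  have hcard := Fintype.card_le_of_injective _ hinj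
  rw [Fintype.card_fin, Fintype.card_fin] at hcard
  omega

/-- row W1 -/
theorem s_finite (t N : ℕ) : Finite (SE t N) := by
  refine Finite.of_surjective (fun z : (Fin N → Fin N) ⊕ (Fin 2 × Fin N × Fin (t - 1)) ⊕
    (Fin 2 × Fin N × (Fin N → Fin N)) ⊕ (Fin N × Fin (t - 2)) ⊕ (Fin N × Fin N) =>
    (match z with
      | Sum.inl f => SE.x f
      | Sum.inr (Sum.inl (s, i, l)) => SE.a s i l
      | Sum.inr (Sum.inr (Sum.inl (s, i, f))) => SE.u s i f
      | Sum.inr (Sum.inr (Sum.inr (Sum.inl (i, l)))) => SE.d i l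
      | Sum.inr (Sum.inr (Sum.inr (Sum.inr (i, j)))) => SE.c i j : SE t N)) ?_
  rintro (f | ⟨s, i, l⟩ | ⟨s, i, f⟩ | ⟨i, l⟩ | ⟨i, j⟩)
  · exact ⟨Sum.inl f, rfl⟩
  · exact ⟨Sum.inr (Sum.inl (s, i, l)), rfl⟩
  · exact ⟨Sum.inr (Sum.inr (Sum.inl (s, i, f))), rfl⟩
  · exact ⟨Sum.inr (Sum.inr (Sum.inr (Sum.inl (i, l)))), rfl⟩
  · exact ⟨Sum.inr (Sum.inr (Sum.inr (Sum.inr (i, j)))), rfl⟩

end Pool.Agent.Lib.MP_9a7643_lc
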